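import Mathlib

/-!
# H84E, module B: countable Borel colourings, rounds and base points
-/

set_option autoImplicit false

namespace Pool.Agent.Lib.H84E

open MeasurableSpace Function

/-- a Borel map without fixed points has a countable Borel colouring -/
theorem b_one {X : Type*} [MeasurableSpace X] [StandardBorelSpace X] (T : X → X)
    (hT : Measurable T) (hfix : ∀ x, T x ≠ x) :
    ∃ f : X → ℕ, Measurable f ∧ ∀ x, f (T x) ≠ f x := by
  classical
  obtain ⟨Φ, hΦ, hinj⟩ := measurable_injection_nat_bool_of_countablySeparated X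
  have hex : ∀ x, ∃ n, Φ (T x) n ≠ Φ x n := by
    intro x
    by_contra hno
    push_neg at hno
    exact hfix x (hinj (funext hno))
  have hΦn : ∀ n, Measurable (fun x => Φ x n) := fun n => (measurable_pi_apply n).comp hΦ
  have hmeas : ∀ k, MeasurableSet {x | Φ (T x) k ≠ Φ x k} := by
    intro k
    exact (measurableSet_eq_fun ((hΦn k).comp hT) (hΦn k)).compl
  have hg : Measurable (fun x => Nat.find (hex x)) := measurable_find hex hmeas
  have hb : Measurable (fun x => Φ x (Nat.find (hex x))) := by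
    have h1 : Measurable (fun q : ℕ × X => Φ q.2 q.1) :=
      measurable_from_prod_countable_right fun n => hΦn n
    exact h1.comp (hg.prodMk measurable_id)
  refine ⟨fun x => Nat.pair (Nat.find (hex x)) (if Φ x (Nat.find (hex x)) then 1 else 0), ?_, ?_⟩
  · have h2 : Measurable (fun q : ℕ × Bool => Nat.pair q.1 (if q.2 then 1 else 0)) :=
      Measurable.of_discrete
    exact h2.comp (hg.prodMk hb)
  · intro x h
    simp only [Nat.pair_eq_pair] at h
    obtain ⟨h1, h2⟩ := h
    have h3 := Nat.find_spec (hex x)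
    rw [← h1] at h3
    rw [h1] at h2
    rw [h1] at h3
    cases hA : Φ (T x) (Nat.find (hex x)) <;> cases hB : Φ x (Nat.find (hex x)) <;> simp_all

/-- a countable Borel colouring for finitely many group elements without fixed points -/
theorem b_col {Γ : Type*} [Group Γ] {X : Type*} [MeasurableSpace X] [StandardBorelSpace X]
    [MulAction Γ X] (hm : ∀ γ : Γ, Measurable (fun x : X => γ • x)) (F : Finset Γ)
    (hF : ∀ γ ∈ F, ∀ x : X, γ • x ≠ x) :
    ∃ f : X → ℕ, Measurable f ∧ ∀ γ ∈ F, ∀ x, f (γ • x) ≠ f x := by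
  classical
  induction F using Finset.induction_on with
  | empty => exact ⟨fun _ => 0, measurable_const, by simp⟩
  | insert g F hg ih =>
    obtain ⟨f, hf, hfF⟩ := ih fun γ hγ => hF γ (Finset.mem_insert_of_mem hγ)
    obtain ⟨h, hh, hhg⟩ := b_one (fun x : X => g • x) (hm g) (hF g (Finset.mem_insert_self _ _))
    refine ⟨fun x => Nat.pair (f x) (h x), ?_, ?_⟩
    · have h2 : Measurable (fun q : ℕ × ℕ => Nat.pair q.1 q.2) := Measurable.of_discrete
      exact h2.comp (hf.prodMk hh)
    · intro γ hγ x hx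
      simp only [Nat.pair_eq_pair] at hx
      rcases Finset.mem_insert.1 hγ with rfl | h'
      · exact hhg x hx.2
      · exact hfF γ h' x hx.1

/-- base points: `idx x` is the number of the point `x` in its `s`-cycle -/
theorem b_idx {Γ : Type*} [Group Γ] {X : Type*} [MeasurableSpace X]
    [MulAction Γ X] (hm : ∀ γ : Γ, Measurable (fun x : X => γ • x)) (s : Γ) (m : ℕ)
    (hm0 : 0 < m) (hs : s ^ m = 1) (f : X → ℕ) (hf : Measurable f)
    (hfs : ∀ a : ℕ, 0 < a → a < m → ∀ x, f (s ^ a • x) ≠ f x) :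
    ∃ idx : X → ℕ, Measurable idx ∧ (∀ x, idx x < m) ∧ ∀ x, idx (s • x) = (idx x + 1) % m := by
  classical
  set p : X → ℕ → Prop := fun x n => ∀ a : ℕ, f (s⁻¹ ^ n • x) ≤ f (s ^ a • x) with hp
  have hsinv : s⁻¹ = s ^ (m - 1) := by
    rw [inv_eq_iff_mul_eq_one, ← pow_succ', Nat.sub_add_cancel hm0, hs]
  have hpowmod : ∀ n, s ^ n = s ^ (n % m) := by
    intro n
    conv_lhs => rw [← Nat.div_add_mod n m, pow_add, pow_mul, hs, one_pow, one_mul]
  have hinvmod : ∀ n, s⁻¹ ^ n = s⁻¹ ^ (n % m) := by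
    intro n
    have : s⁻¹ ^ m = 1 := by rw [inv_pow, hs, inv_one]
    conv_lhs => rw [← Nat.div_add_mod n m, pow_add, pow_mul, this, one_pow, one_mul]
  have hex : ∀ x, ∃ n, p x n := by
    intro x
    -- the minimum of `f` on the orbit
    obtain ⟨a, -, ha⟩ := Finset.exists_min_image (Finset.range m) (fun a => f (s ^ a • x))
      ⟨0, Finset.mem_range.2 hm0⟩
    refine ⟨(m - 1) * a, fun b => ?_⟩
    have h1 : s⁻¹ ^ ((m - 1) * a) = s ^ a := by
      rw [pow_mul, inv_pow, ← hsinv, inv_inv]
    rw [h1, hpowmod b]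
    exact ha _ (Finset.mem_range.2 (Nat.mod_lt _ hm0))
  have hmeas : ∀ k, MeasurableSet {x | p x k} := by
    intro k
    have : {x | p x k} = ⋂ a : ℕ, {x | f (s⁻¹ ^ k • x) ≤ f (s ^ a • x)} := by
      ext x; simp [hp]
    rw [this]
    exact MeasurableSet.iInter fun a => measurableSet_le (hf.comp (hm _)) (hf.comp (hm _))
  have hlt : ∀ x, Nat.find (hex x) < m := by
    intro x
    have h1 : p x (Nat.find (hex x) % m) := by
      intro a
      rw [← hinvmod]
      exact Nat.find_spec (hex x) a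
    exact (Nat.find_min' (hex x) h1).trans_lt (Nat.mod_lt _ hm0)
  -- uniqueness
  have huniq : ∀ x n n', n < m → n' < m → p x n → p x n' → n = n' := by
    have key : ∀ x n n', n < n' → n' < m → p x n → p x n' → False := by
      intro x n n' hnn hn' h h'
      have e1 : s⁻¹ ^ n • x = s ^ ((m - 1) * n) • x := by rw [pow_mul, ← hsinv]
      have e2 : s⁻¹ ^ n' • x = s ^ ((m - 1) * n') • x := by rw [pow_mul, ← hsinv]
      have l1 := h ((m - 1) * n')
      have l2 := h' ((m - 1) * n)
      rw [← e2] at l1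
      rw [← e1] at l2
      have e3 : s⁻¹ ^ n • x = s ^ (n' - n) • s⁻¹ ^ n' • x := by
        rw [smul_smul]
        congr 1
        have : s⁻¹ ^ n' = s⁻¹ ^ (n' - n) * s⁻¹ ^ n := by rw [← pow_add]; congr 1; omega
        rw [this, inv_pow s (n' - n), ← mul_assoc, mul_inv_cancel, one_mul]
      apply hfs (n' - n) (by omega) (by omega) (s⁻¹ ^ n' • x)
      rw [← e3]
      omega
    intro x n n' hn hn' h h'
    rcases lt_trichotomy n n' with hlt | heq | hgt
    · exact (key x n n' hlt hn' h h').elim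
    · exact heq
    · exact (key x n' n hgt hn h' h).elim
  refine ⟨fun x => Nat.find (hex x), measurable_find hex hmeas, hlt, fun x => ?_⟩
  apply huniq (s • x) _ _ (hlt _) (Nat.mod_lt _ hm0) (Nat.find_spec (hex (s • x)))
  intro a
  rw [← hinvmod, pow_succ, smul_smul, mul_assoc, inv_mul_cancel, mul_one]
  have := Nat.find_spec (hex x) (a + 1)
  rw [smul_smul, ← pow_succ]
  exact this

/-- the rounds -/
theorem b_rounds {Γ : Type*} [Group Γ] {X : Type*} [MeasurableSpace X] [StandardBorelSpace X]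
    [MulAction Γ X] (hm : ∀ γ : Γ, Measurable (fun x : X => γ • x))
    (hfree : ∀ (γ : Γ) (x : X), γ • x = x → γ = 1) (s t : Γ) (m : ℕ) (hm0 : 0 < m)
    (hs : orderOf s = m) (ht : ∀ j : ℤ, j ≠ 0 → |j| < 7 → t ^ j ∉ Subgroup.zpowers s) :
    ∃ col idx : X → ℕ, Measurable col ∧ Measurable idx ∧ (∀ x, col (s • x) = col x) ∧
      (∀ j : ℤ, j ≠ 0 → |j| < 7 → ∀ x, col (t ^ j • x) ≠ col x) ∧
      (∀ x, idx x < m) ∧ ∀ x, idx (s • x) = (idx x + 1) % m := by
  classical
  have hsm : s ^ m = 1 := by rw [← hs]; exact pow_orderOf_eq_one s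
  -- the group elements which have to be separated
  set F : Finset Γ := ((Finset.range m).image fun a => s ^ a).erase 1 ∪
    ((Finset.range m) ×ˢ (Finset.Icc (-6 : ℤ) 6).erase 0).image (fun q => s ^ q.1 * t ^ q.2) with hF
  have hF1 : ∀ γ ∈ F, γ ≠ 1 := by
    intro γ hγ
    rw [hF, Finset.mem_union] at hγ
    rcases hγ with h | h
    · exact (Finset.mem_erase.1 h).1
    · obtain ⟨⟨a, j⟩, hq, rfl⟩ := Finset.mem_image.1 h
      rw [Finset.mem_product] at hq
      have hj := Finset.mem_erase.1 hq.2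
      have hj2 := Finset.mem_Icc.1 hj.2
      intro h1
      apply ht j hj.1 (by rw [abs_lt]; omega)
      have : t ^ j = (s ^ a)⁻¹ := by
        rw [eq_inv_iff_mul_eq_one]
        have h2 : (s ^ a)⁻¹ = t ^ j := inv_eq_of_mul_eq_one_right h1
        rw [← h2, inv_mul_cancel]
      rw [this]
      exact Subgroup.inv_mem _ (Subgroup.pow_mem _ (Subgroup.mem_zpowers s) a)
  obtain ⟨f, hf, hfF⟩ := b_col hm F (fun γ hγ x hx => hF1 γ hγ (hfree γ x hx))
  obtain ⟨idx, hidx, hlt, hsucc⟩ := b_idx hm s m hm0 hsm f hf (by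
    intro a ha ham x
    apply hfF
    rw [hF, Finset.mem_union]
    left
    refine Finset.mem_erase.2 ⟨?_, Finset.mem_image.2 ⟨a, Finset.mem_range.2 ham, rfl⟩⟩
    intro h1
    have := orderOf_dvd_of_pow_eq_one h1
    rw [hs] at this
    exact absurd (Nat.le_of_dvd ha this) (by omega))
  set C : X → Finset ℕ := fun x => (Finset.range m).image (fun a => f (s ^ a • x)) with hC
  have hpowmod : ∀ n, s ^ n = s ^ (n % m) := by
    intro n
    conv_lhs => rw [← Nat.div_add_mod n m, pow_add, pow_mul, hsm, one_pow, one_mul]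
  have hCmem : ∀ x k, k ∈ C x ↔ ∃ a : ℕ, f (s ^ a • x) = k := by
    intro x k
    simp only [hC, Finset.mem_image, Finset.mem_range]
    constructor
    · rintro ⟨a, -, h⟩; exact ⟨a, h⟩
    · rintro ⟨a, h⟩
      exact ⟨a % m, Nat.mod_lt _ hm0, by rw [← hpowmod]; exact h⟩
  refine ⟨fun x => Encodable.encode (C x), idx, ?_, hidx, ?_, ?_, hlt, hsucc⟩
  · -- measurability
    have h1 : Measurable (fun x : X => (fun a : Fin m => f (s ^ (a : ℕ) • x))) :=
      measurable_pi_lambda _ fun a => hf.comp (hm _)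
    have h2 : Measurable (fun g : Fin m → ℕ =>
        Encodable.encode ((Finset.univ : Finset (Fin m)).image g)) := Measurable.of_discrete
    have h3 : (fun x => Encodable.encode (C x)) = (fun g : Fin m → ℕ =>
        Encodable.encode ((Finset.univ : Finset (Fin m)).image g)) ∘
          (fun x : X => (fun a : Fin m => f (s ^ (a : ℕ) • x))) := by
      funext x
      simp only [Function.comp_apply]
      congr 1
      ext k
      simp only [hC, Finset.mem_image, Finset.mem_range, Finset.mem_univ, true_and]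
      constructor
      · rintro ⟨a, ha, h⟩; exact ⟨⟨a, ha⟩, h⟩
      · rintro ⟨a, h⟩; exact ⟨a, a.2, h⟩
    rw [h3]
    exact h2.comp h1
  · intro x
    show Encodable.encode (C (s • x)) = Encodable.encode (C x)
    congr 1
    ext k
    rw [hCmem, hCmem]
    constructor
    · rintro ⟨a, h⟩
      exact ⟨a + 1, by rw [pow_succ, ← smul_smul]; exact h⟩
    · rintro ⟨a, h⟩
      refine ⟨a + (m - 1), ?_⟩
      rw [smul_smul, ← pow_succ, show a + (m - 1) + 1 = a + m by omega, pow_add, hsm, mul_one]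
      exact h
  · intro j hj hj7 x hx
    have hCe : C (t ^ j • x) = C x := Encodable.encode_injective hx
    have : f x ∈ C (t ^ j • x) := by
      rw [hCe, hCmem]
      exact ⟨0, by simp⟩
    simp only [hC, Finset.mem_image, Finset.mem_range] at this
    obtain ⟨a, ha, h⟩ := this
    rw [smul_smul] at h
    refine hfF _ ?_ x h
    rw [hF, Finset.mem_union]
    right
    rw [abs_lt] at hj7
    exact Finset.mem_image.2 ⟨(a, j), Finset.mem_product.2 ⟨Finset.mem_range.2 ha,
      Finset.mem_erase.2 ⟨hj, Finset.mem_Icc.2 ⟨by omega, by omega⟩⟩⟩, rfl⟩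

end Pool.Agent.Lib.H84E
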