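import Mathlib

/-!
# H84E: Borel edge colourings of Schreier graphs, one generator of finite order and one of
infinite order need only five colours (MP_110ff7_lc).  Definitions.

A line (an orbit of `t`) is described by three functions on `ℤ`:
`R i` : the vertex `i` is processed, `P i` : the two colours of the `s`-edges at the vertex `i`,
`c i` : the colour of the edge from `i` to `i + 1` (meaningful if both ends are processed).
-/

set_option autoImplicit false

namespace Pool.Agent.Lib.H84E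

/-- The rules of the line at the window `k, ..., k + 6`. -/
structure Loc (R : ℤ → Prop) (P : ℤ → Finset (Fin 5)) (c : ℤ → Fin 5) (k : ℤ) : Prop where
  /-- the colour of an edge is not used by the `s`-edges at its ends -/
  E1 : R k → R (k + 1) → c k ∉ P k ∧ c k ∉ P (k + 1)
  /-- consecutive edges have different colours -/
  E2 : R k → R (k + 1) → R (k + 2) → c k ≠ c (k + 1)
  /-- facing triples at distance two are different -/
  J0 : R k → R (k + 1) → ¬ R (k + 2) → R (k + 3) → R (k + 4) →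
    insert (c k) (P (k + 1)) ≠ insert (c (k + 3)) (P (k + 3))
  /-- facing triples separated by an isolated vertex whose pair lies in the triple -/
  J1 : R k → R (k + 1) → ¬ R (k + 2) → R (k + 3) → ¬ R (k + 4) → R (k + 5) → R (k + 6) →
    insert (c k) (P (k + 1)) = insert (c (k + 5)) (P (k + 5)) →
    ¬ P (k + 3) ⊆ insert (c k) (P (k + 1))
  /-- a left facing triple does not contain the pairs of the two next isolated vertices -/
  I : ¬ R k → R (k + 1) → ¬ R (k + 2) → R (k + 3) → ¬ R (k + 4) → R (k + 5) → R (k + 6) →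
    P (k + 1) ⊆ insert (c (k + 5)) (P (k + 5)) → ¬ P (k + 3) ⊆ insert (c (k + 5)) (P (k + 5))
  /-- two neighbouring isolated vertices with the same pair -/
  D2 : ¬ R k → R (k + 1) → ¬ R (k + 2) → R (k + 3) → ¬ R (k + 4) →
    P (k + 1) = P (k + 3) → R (k + 5)
  /-- three neighbouring isolated vertices do not have the same pair -/
  D3 : ¬ R k → R (k + 1) → ¬ R (k + 2) → R (k + 3) → ¬ R (k + 4) → R (k + 5) → ¬ R (k + 6) →
    P (k + 1) = P (k + 3) → P (k + 3) ≠ P (k + 5)

/-- A triple `T` which would be in conflict with the left of the position `j`, if `T` became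
the left facing triple of `j` (and `j - 1` is not processed). -/
def AL (R : ℤ → Prop) (P : ℤ → Finset (Fin 5)) (c : ℤ → Fin 5) (j : ℤ)
    (T : Finset (Fin 5)) : Prop :=
  R (j - 2) ∧ ((R (j - 3) ∧ T = insert (c (j - 3)) (P (j - 2))) ∨
    (¬ R (j - 3) ∧ R (j - 4) ∧ P (j - 2) ⊆ T ∧
      ((R (j - 5) ∧ T = insert (c (j - 5)) (P (j - 4))) ∨ (¬ R (j - 5) ∧ P (j - 4) ⊆ T))))

/-- A triple `T` which would be in conflict with the right of the position `j`, if `T` became
the right facing triple of `j` (and `j + 1` is not processed). -/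
def AR (R : ℤ → Prop) (P : ℤ → Finset (Fin 5)) (c : ℤ → Fin 5) (j : ℤ)
    (T : Finset (Fin 5)) : Prop :=
  R (j + 2) ∧ ((R (j + 3) ∧ T = insert (c (j + 2)) (P (j + 2))) ∨
    (¬ R (j + 3) ∧ R (j + 4) ∧ R (j + 5) ∧ P (j + 2) ⊆ T ∧ T = insert (c (j + 4)) (P (j + 4))))

/-- The vertex `0` may get the pair `Q`, with colour `a` on the edge `(-1, 0)` and colour `b` on
the edge `(0, 1)` (if the other ends are processed). -/
structure Move (R : ℤ → Prop) (P : ℤ → Finset (Fin 5)) (c : ℤ → Fin 5)
    (Q : Finset (Fin 5)) (a b : Fin 5) : Prop where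
  a1 : R (-1) → a ∉ P (-1) ∧ a ∉ Q
  b1 : R 1 → b ∉ P 1 ∧ b ∉ Q
  ab : R (-1) → R 1 → a ≠ b
  a2 : R (-1) → R (-2) → a ≠ c (-2)
  b2 : R 1 → R 2 → b ≠ c 1
  a3 : R (-1) → ¬ R (-2) → ¬ AL R P c (-1) (insert a (P (-1)))
  b3 : R 1 → ¬ R 2 → ¬ AR R P c 1 (insert b (P 1))
  a4 : R (-1) → ¬ R 1 → ¬ AR R P c 0 (insert a Q)
  b4 : R 1 → ¬ R (-1) → ¬ AL R P c 0 (insert b Q)
  z1 : ¬ R (-1) → ¬ R 1 → ∀ T, AR R P c 0 T → ¬ Q ⊆ T
  z2 : ¬ R (-1) → ¬ R 1 → (∀ T, ¬ AR R P c 0 T) →
    (R (-2) → ¬ R (-3) → Q ≠ P (-2)) ∧ (R 2 → ¬ R 3 → Q ≠ P 2)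

/-- The state of the line after the vertex `0` has been processed. -/
def newR (R : ℤ → Prop) : ℤ → Prop := fun i => R i ∨ i = 0

/-- The pairs after the vertex `0` has been processed. -/
def newP (P : ℤ → Finset (Fin 5)) (Q : Finset (Fin 5)) : ℤ → Finset (Fin 5) :=
  fun i => if i = 0 then Q else P i

/-- The colours of the edges after the vertex `0` has been processed. -/
def newc (c : ℤ → Fin 5) (a b : Fin 5) : ℤ → Fin 5 :=
  fun i => if i = -1 then a else if i = 0 then b else c i

end Pool.Agent.Lib.H84E
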