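import Mathlib
import Pool.Agent.Lib.H84E.B

/-!
# H84E, module C: single generators
-/

set_option autoImplicit false

namespace Pool.Agent.Lib.H84E

variable {Γ : Type*} [Group Γ] {X : Type*} [MulAction Γ X]

theorem c_pick : ∃ p : Fin 3 × Fin 3 → Fin 3, ∀ q, p q ≠ q.1 ∧ p q ≠ q.2 := by
  have h : ∀ q : Fin 3 × Fin 3, ∃ r, r ≠ q.1 ∧ r ≠ q.2 := by decide
  choose p hp using h
  exact ⟨p, hp⟩

/-- three colours for one generator -/
theorem c_three [MeasurableSpace X] [StandardBorelSpace X]
    (hm : ∀ γ : Γ, Measurable (fun x : X => γ • x))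
    (hfree : ∀ (γ : Γ) (x : X), γ • x = x → γ = 1) (t : Γ) (ht : t ≠ 1) :
    ∃ d : X → Fin 3, Measurable d ∧ ∀ x, d x ≠ d (t • x) := by
  classical
  obtain ⟨f, hf, hft⟩ := b_col hm {t} (fun γ hγ x hx => ht (by
    rw [Finset.mem_singleton] at hγ
    rw [← hγ]
    exact hfree γ x hx))
  have hft : ∀ x, f (t • x) ≠ f x := fun x => hft t (Finset.mem_singleton_self t) x
  obtain ⟨p, hp⟩ := c_pick
  set D : ℕ → X → Fin 3 := fun n => Nat.rec (fun _ => 0)
    (fun k d => fun x => if f x = k then p (d (t • x), d (t⁻¹ • x)) else d x) n with hD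
  have hDs : ∀ n x, D (n + 1) x =
      if f x = n then p (D n (t • x), D n (t⁻¹ • x)) else D n x := fun n x => rfl
  have hDm : ∀ n, Measurable (D n) := by
    intro n
    induction n with
    | zero => exact measurable_const
    | succ n ih =>
      have h0 : Measurable (fun x => p (D n (t • x), D n (t⁻¹ • x))) :=
        (Measurable.of_discrete (f := p)).comp ((ih.comp (hm _)).prodMk (ih.comp (hm _)))
      exact Measurable.ite (hf (measurableSet_singleton n)) h0 ih
  have hst : ∀ x N, f x < N → D N x = D (f x + 1) x := by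
    intro x N hN
    obtain ⟨k, rfl⟩ := Nat.exists_eq_add_of_lt hN
    clear hN
    induction k with
    | zero => rfl
    | succ k ih =>
      rw [show f x + (k + 1) + 1 = (f x + k + 1) + 1 by omega, hDs, if_neg (by omega)]
      exact ih
  refine ⟨fun x => D (f x + 1) x, ?_, fun x => ?_⟩
  · have h1 : Measurable (fun q : ℕ × X => D (q.1 + 1) q.2) :=
      measurable_from_prod_countable_right fun n => hDm (n + 1)
    exact h1.comp (hf.prodMk measurable_id)
  · show D (f x + 1) x ≠ D (f (t • x) + 1) (t • x)
    rcases Nat.lt_or_gt_of_ne (hft x) with h | h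
    · rw [hDs (f x) x, if_pos rfl]
      rw [← hst (t • x) (f x) h]
      exact (hp _).1
    · rw [hDs (f (t • x)) (t • x), if_pos rfl, inv_smul_smul, ← hst x (f (t • x)) h]
      exact (hp (D (f (t • x)) (t • t • x), D (f (t • x)) x)).2.symm

/-- two colours for one generator of even order -/
theorem c_two [MeasurableSpace X] [StandardBorelSpace X]
    (hm : ∀ γ : Γ, Measurable (fun x : X => γ • x))
    (hfree : ∀ (γ : Γ) (x : X), γ • x = x → γ = 1) (s : Γ) (hs0 : 0 < orderOf s)
    (hs : Even (orderOf s)) :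
    ∃ d : X → Fin 2, Measurable d ∧ ∀ x, d x ≠ d (s • x) := by
  classical
  set F : Finset Γ := ((Finset.range (orderOf s)).image fun a => s ^ a).erase 1 with hF
  obtain ⟨f, hf, hfF⟩ := b_col hm F (fun γ hγ x hx => by
    rw [hF, Finset.mem_erase] at hγ
    exact hγ.1 (hfree γ x hx))
  obtain ⟨idx, hidx, hlt, hsucc⟩ := b_idx hm s (orderOf s) hs0 (pow_orderOf_eq_one s) f hf (by
    intro a ha ham x
    apply hfF
    refine Finset.mem_erase.2 ⟨?_, Finset.mem_image.2 ⟨a, Finset.mem_range.2 ham, rfl⟩⟩
    intro h1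
    have := orderOf_dvd_of_pow_eq_one h1
    exact absurd (Nat.le_of_dvd ha this) (by omega))
  refine ⟨fun x => if idx x % 2 = 0 then 0 else 1, ?_, fun x => ?_⟩
  · have h1 : Measurable (fun k : ℕ => (if k % 2 = 0 then 0 else 1 : Fin 2)) :=
      Measurable.of_discrete
    exact h1.comp hidx
  · obtain ⟨r, hr⟩ := hs
    have h1 := hlt x
    have h2 : idx (s • x) % 2 = (idx x + 1) % 2 := by
      rw [hsucc]
      exact Nat.mod_mod_of_dvd _ ⟨r, by omega⟩
    simp only
    rcases Nat.mod_two_eq_zero_or_one (idx x) with h | h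
    · have h3 : idx (s • x) % 2 = 1 := by omega
      simp [h, h3]
    · have h3 : idx (s • x) % 2 = 0 := by omega
      simp [h, h3]

/-- a Borel edge colouring with `n` colours, as colours of the directions at a vertex -/
def DirCol (X : Type*) [MulAction Γ X] [MeasurableSpace X] (S : Finset Γ) (n : ℕ) : Prop :=
  ∃ c : Γ → X → ℕ, (∀ s ∈ S, Measurable (c s)) ∧ (∀ s ∈ S, ∀ x, c s x < n) ∧
    (∀ s ∈ S, ∀ x, c s⁻¹ (s • x) = c s x) ∧
    (∀ s ∈ S, ∀ s' ∈ S, s ≠ s' → ∀ x, c s x ≠ c s' x)

theorem c_union [MeasurableSpace X] [DecidableEq Γ] {S S' : Finset Γ} {n n' : ℕ}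
    (hS : ∀ s ∈ S, s⁻¹ ∈ S)
    (hS' : ∀ s ∈ S', s⁻¹ ∈ S') (hd : Disjoint S S') (h : DirCol X S n) (h' : DirCol X S' n') :
    DirCol X (S ∪ S') (n + n') := by
  obtain ⟨c, h1, h2, h3, h4⟩ := h
  obtain ⟨c', h1', h2', h3', h4'⟩ := h'
  have hn : ∀ s ∈ S', s ∉ S := fun s hs hs' => Finset.disjoint_left.1 hd hs' hs
  refine ⟨fun s x => if s ∈ S then c s x else n + c' s x, ?_, ?_, ?_, ?_⟩
  · intro s hs
    rcases Finset.mem_union.1 hs with h | h
    · simp only [h, if_true]
      exact h1 s h
    · simp only [hn s h, if_false]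
      exact measurable_const.add (h1' s h)
  · intro s hs x
    rcases Finset.mem_union.1 hs with h | h
    · simp only [h, if_true]
      exact (h2 s h x).trans_le (Nat.le_add_right _ _)
    · simp only [hn s h, if_false]
      have := h2' s h x
      omega
  · intro s hs x
    rcases Finset.mem_union.1 hs with h | h
    · simp only [h, hS s h, if_true]
      exact h3 s h x
    · simp only [hn s h, hn _ (hS' s h), if_false]
      rw [h3' s h x]
  · intro s hs s' hs' hne x
    rcases Finset.mem_union.1 hs with h | h <;> rcases Finset.mem_union.1 hs' with k | k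
    · simp only [h, k, if_true]
      exact h4 s h s' k hne x
    · simp only [h, hn _ k, if_true, if_false]
      have := h2 s h x
      omega
    · simp only [hn _ h, k, if_true, if_false]
      have := h2 s' k x
      omega
    · simp only [hn _ h, hn _ k, if_false]
      have := h4' s h s' k hne x
      omega

theorem c_single [MeasurableSpace X] [DecidableEq Γ] {s : Γ} (hne : s ≠ s⁻¹) {n : ℕ}
    (hm : ∀ γ : Γ, Measurable (fun x : X => γ • x)) {d : X → Fin n} (hd : Measurable d)
    (hds : ∀ x, d x ≠ d (s • x)) : DirCol X ({s, s⁻¹} : Finset Γ) n := by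
  have hne' : s⁻¹ ≠ s := hne.symm
  have hv : Measurable (fun i : Fin n => (i : ℕ)) := Measurable.of_discrete
  refine ⟨fun g x => if g = s then (d x : ℕ) else (d (s⁻¹ • x) : ℕ), ?_, ?_, ?_, ?_⟩
  · intro g hg
    by_cases h : g = s
    · simp only [h, if_true]
      exact hv.comp hd
    · simp only [h, if_false]
      exact hv.comp (hd.comp (hm _))
  · intro g hg x
    by_cases h : g = s
    · simp only [h, if_true]
      exact (d x).2
    · simp only [h, if_false]
      exact (d _).2
  · intro g hg x
    rcases Finset.mem_insert.1 hg with rfl | h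
    · simp only [hne', if_false, if_true, inv_smul_smul]
    · rw [Finset.mem_singleton] at h
      subst h
      simp only [inv_inv, if_true, hne', if_false]
  · have key : ∀ x, (d x : ℕ) ≠ (d (s⁻¹ • x) : ℕ) := by
      intro x h
      have := hds (s⁻¹ • x)
      rw [smul_inv_smul] at this
      exact this (Fin.ext h).symm
    intro g hg g' hg' hgg x
    rcases Finset.mem_insert.1 hg with rfl | h <;> rcases Finset.mem_insert.1 hg' with h' | h'
    · exact absurd h'.symm hgg
    · rw [Finset.mem_singleton] at h'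
      subst h'
      simp only [if_true, hne', if_false]
      exact key x
    · rw [Finset.mem_singleton] at h
      subst h'
      subst h
      simp only [if_true, hne', if_false]
      exact (key x).symm
    · rw [Finset.mem_singleton] at h h'
      exact absurd (h.trans h'.symm) hgg

theorem c_invol [MeasurableSpace X] {s : Γ} (hs : s⁻¹ = s) : DirCol X ({s} : Finset Γ) 1 := by
  refine ⟨fun _ _ => 0, fun _ _ => measurable_const, fun _ _ _ => Nat.one_pos,
    fun _ _ _ => rfl, ?_⟩
  intro g hg g' hg' hgg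
  rw [Finset.mem_singleton] at hg hg'
  exact absurd (hg.trans hg'.symm) hgg

end Pool.Agent.Lib.H84E
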