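import Pool.Agent.Lib.H84E.Base

/-!
# H84E, chunk T1: a move keeps all the rules
-/

set_option autoImplicit false

namespace Pool.Agent.Lib.H84E

variable {R : ℤ → Prop} {P : ℤ → Finset (Fin 5)} {c : ℤ → Fin 5}
  {Q : Finset (Fin 5)} {a b : Fin 5}

theorem t1_m6 (hL : Loc R P c (-6)) (h0 : ¬ R 0) (hM : Move R P c Q a b) :
    Loc (newR R) (newP P Q) (newc c a b) (-6) := by
  obtain ⟨e1, e2, j0, j1, i1, d2, d3⟩ := hL
  obtain ⟨a1, b1, ab, a2, b2, a3, b3, a4, b4, z1, z2⟩ := hM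
  constructor <;> simp [newR, newP, newc, AL, AR] at * <;> norm_num at *
  all_goals grind

theorem t1_m5 (hL : Loc R P c (-5)) (h0 : ¬ R 0) (hM : Move R P c Q a b) :
    Loc (newR R) (newP P Q) (newc c a b) (-5) := by
  obtain ⟨e1, e2, j0, j1, i1, d2, d3⟩ := hL
  obtain ⟨a1, b1, ab, a2, b2, a3, b3, a4, b4, z1, z2⟩ := hM
  constructor <;> simp [newR, newP, newc, AL, AR] at * <;> norm_num at *
  all_goals grind

theorem t1_m4 (hL : Loc R P c (-4)) (h0 : ¬ R 0) (hM : Move R P c Q a b) :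
    Loc (newR R) (newP P Q) (newc c a b) (-4) := by
  obtain ⟨e1, e2, j0, j1, i1, d2, d3⟩ := hL
  obtain ⟨a1, b1, ab, a2, b2, a3, b3, a4, b4, z1, z2⟩ := hM
  constructor <;> simp [newR, newP, newc, AL, AR] at * <;> norm_num at *
  all_goals grind

theorem t1_m3 (hL : Loc R P c (-3)) (h0 : ¬ R 0) (hM : Move R P c Q a b) :
    Loc (newR R) (newP P Q) (newc c a b) (-3) := by
  obtain ⟨e1, e2, j0, j1, i1, d2, d3⟩ := hL
  obtain ⟨a1, b1, ab, a2, b2, a3, b3, a4, b4, z1, z2⟩ := hM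
  constructor <;> simp [newR, newP, newc, AL, AR] at * <;> norm_num at *
  all_goals grind

theorem t1_m2 (hL : Loc R P c (-2)) (h0 : ¬ R 0) (hM : Move R P c Q a b) :
    Loc (newR R) (newP P Q) (newc c a b) (-2) := by
  obtain ⟨e1, e2, j0, j1, i1, d2, d3⟩ := hL
  obtain ⟨a1, b1, ab, a2, b2, a3, b3, a4, b4, z1, z2⟩ := hM
  constructor <;> simp [newR, newP, newc, AL, AR] at * <;> norm_num at *
  all_goals grind

theorem t1_m1 (hL : Loc R P c (-1)) (h0 : ¬ R 0) (hM : Move R P c Q a b) :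
    Loc (newR R) (newP P Q) (newc c a b) (-1) := by
  obtain ⟨e1, e2, j0, j1, i1, d2, d3⟩ := hL
  obtain ⟨a1, b1, ab, a2, b2, a3, b3, a4, b4, z1, z2⟩ := hM
  constructor <;> simp [newR, newP, newc, AL, AR] at * <;> norm_num at *
  all_goals grind

theorem t1_m0 (hL : Loc R P c 0) (h0 : ¬ R 0) (hM : Move R P c Q a b) :
    Loc (newR R) (newP P Q) (newc c a b) 0 := by
  obtain ⟨e1, e2, j0, j1, i1, d2, d3⟩ := hL
  obtain ⟨a1, b1, ab, a2, b2, a3, b3, a4, b4, z1, z2⟩ := hM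
  constructor <;> simp [newR, newP, newc, AL, AR] at * <;> norm_num at *
  all_goals grind

/-- a move keeps all the rules -/
theorem move_loc (hL : ∀ k, -6 ≤ k → k ≤ 0 → Loc R P c k) (h0 : ¬ R 0)
    (hM : Move R P c Q a b) (k : ℤ) (h1 : -6 ≤ k) (h2 : k ≤ 0) :
    Loc (newR R) (newP P Q) (newc c a b) k := by
  have h := hL k h1 h2
  interval_cases k
  · exact t1_m6 h h0 hM
  · exact t1_m5 h h0 hM
  · exact t1_m4 h h0 hM
  · exact t1_m3 h h0 hM
  · exact t1_m2 h h0 hM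
  · exact t1_m1 h h0 hM
  · exact t1_m0 h h0 hM

end Pool.Agent.Lib.H84E
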