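import Mathlib

/-!
# H84E, module P: counting of the refused pairs
-/

set_option autoImplicit false

namespace Pool.Agent.Lib.H84E

open Finset

/-- If one colour outside a triple (or pair) `T₀` is to be chosen, outside `Q`, and such that a
certain triple is avoided, then at most three pairs `Q` are refused. -/
theorem p_one (T₀ : Finset (Fin 5)) (hT₀ : T₀.card ≤ 3) (Z : Finset (Fin 5) → Prop)
    (hZ : ∀ T T', T.card = 3 → T'.card = 3 → Z T → Z T' → T = T') :
    ∃ Bad : Finset (Finset (Fin 5)), Bad.card ≤ 3 ∧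
      ∀ Q : Finset (Fin 5), Q.card = 2 → Q ∉ Bad → ∃ a, a ∉ T₀ ∧ a ∉ Q ∧ ¬ Z (insert a Q) := by
  classical
  obtain ⟨u, w, huw, hu, hw⟩ : ∃ u w : Fin 5, u ≠ w ∧ u ∉ T₀ ∧ w ∉ T₀ := by
    have hc : 1 < (T₀ᶜ).card := by
      rw [card_compl, Fintype.card_fin]; omega
    obtain ⟨u, hu, w, hw, hne⟩ := one_lt_card.1 hc
    exact ⟨u, w, hne, mem_compl.1 hu, mem_compl.1 hw⟩
  have hins : ∀ (Q : Finset (Fin 5)) (a : Fin 5), Q.card = 2 → a ∉ Q → (insert a Q).card = 3 := by
    intro Q a hQ ha
    rw [card_insert_of_notMem ha, hQ]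
  by_cases hT : ∃ T, T.card = 3 ∧ Z T ∧ u ∈ T ∧ w ∈ T
  · obtain ⟨T, hT3, hZT, huT, hwT⟩ := hT
    refine ⟨powersetCard 2 T, ?_, ?_⟩
    · rw [card_powersetCard, hT3]
      decide
    · intro Q hQ hQT
      have hnot : ¬ Q ⊆ T := fun h => hQT (mem_powersetCard.2 ⟨h, hQ⟩)
      have hz : ∀ a, a ∉ Q → ¬ Z (insert a Q) := by
        intro a ha hZa
        have := hZ _ _ (hins Q a hQ ha) hT3 hZa hZT
        exact hnot (this ▸ subset_insert a Q)
      by_cases huQ : u ∈ Q
      · refine ⟨w, hw, ?_, ?_⟩
        · intro hwQ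
          apply hnot
          have : Q = {u, w} := by
            symm
            apply eq_of_subset_of_card_le
            · intro z hz
              simp only [mem_insert, mem_singleton] at hz
              rcases hz with rfl | rfl <;> assumption
            · rw [hQ, card_pair huw]
          rw [this]
          intro z hz
          simp only [mem_insert, mem_singleton] at hz
          rcases hz with rfl | rfl <;> assumption
        · apply hz
          intro hwQ
          apply hnot
          have : Q = {u, w} := by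
            symm
            apply eq_of_subset_of_card_le
            · intro z hz
              simp only [mem_insert, mem_singleton] at hz
              rcases hz with rfl | rfl <;> assumption
            · rw [hQ, card_pair huw]
          rw [this]
          intro z hz
          simp only [mem_insert, mem_singleton] at hz
          rcases hz with rfl | rfl <;> assumption
      · exact ⟨u, hu, huQ, hz u huQ⟩
  · refine ⟨{{u, w}}, by simp, ?_⟩
    intro Q hQ hQn
    simp only [mem_singleton] at hQn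
    have hnb : ¬ (u ∈ Q ∧ w ∈ Q) := by
      rintro ⟨h1, h2⟩
      apply hQn
      symm
      apply eq_of_subset_of_card_le
      · intro z hz
        simp only [mem_insert, mem_singleton] at hz
        rcases hz with rfl | rfl <;> assumption
      · rw [hQ, card_pair huw]
    by_cases huQ : u ∈ Q
    · have hwQ : w ∉ Q := fun h => hnb ⟨huQ, h⟩
      exact ⟨w, hw, hwQ, fun hZa => hT ⟨_, hins Q w hQ hwQ, hZa, mem_insert_of_mem huQ,
        mem_insert_self _ _⟩⟩
    · by_cases hwQ : w ∈ Q
      · exact ⟨u, hu, huQ, fun hZa => hT ⟨_, hins Q u hQ huQ, hZa, mem_insert_self _ _,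
          mem_insert_of_mem hwQ⟩⟩
      · by_cases hZa : Z (insert u Q)
        · refine ⟨w, hw, hwQ, fun hZb => ?_⟩
          have := hZ _ _ (hins Q u hQ huQ) (hins Q w hQ hwQ) hZa hZb
          have h1 : u ∈ insert w Q := this ▸ mem_insert_self _ _
          simp only [mem_insert] at h1
          tauto
        · exact ⟨u, hu, huQ, hZa⟩

/-- the case of two two-sets -/
theorem p_two_aux (p q r u : Fin 5) (hpq : p ≠ q) (hru : r ≠ u)
    (hne : ({p, q} : Finset (Fin 5)) ≠ {r, u}) :
    ∃ Bad : Finset (Finset (Fin 5)), Bad.card ≤ 3 ∧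
      ∀ Q : Finset (Fin 5), Q.card = 2 → Q ∉ Bad → ∃ a b, a ∈ ({p, q} : Finset (Fin 5)) ∧
        b ∈ ({r, u} : Finset (Fin 5)) ∧ a ∉ Q ∧ b ∉ Q ∧ a ≠ b := by
  classical
  refine ⟨{{p, q}, {r, u}, ({p, q} \ {r, u}) ∪ ({r, u} \ {p, q})}, card_le_three, ?_⟩
  intro Q hQ hQn
  simp only [mem_insert, mem_singleton, not_or] at hQn
  obtain ⟨h1, h2, h3⟩ := hQn
  by_contra hcon
  push_neg at hcon
  obtain ⟨x, y, hxy, rfl⟩ := card_eq_two.1 hQ
  have hp := hcon p r (by simp) (by simp)
  have hp' := hcon p u (by simp) (by simp)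
  have hq := hcon q r (by simp) (by simp)
  have hq' := hcon q u (by simp) (by simp)
  apply h3
  ext z
  simp only [mem_insert, mem_singleton, mem_union, mem_sdiff] at hp hp' hq hq' ⊢
  have e1 : ∀ a b : Fin 5, ({x, y} : Finset (Fin 5)) = {a, b} ↔ (x = a ∧ y = b) ∨ (x = b ∧ y = a) := by
    intro a b
    constructor
    · intro h
      have m1 : x ∈ ({a, b} : Finset (Fin 5)) := by rw [← h]; simp
      have m2 : y ∈ ({a, b} : Finset (Fin 5)) := by rw [← h]; simp
      simp only [mem_insert, mem_singleton] at m1 m2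
      grind
    · rintro (⟨rfl, rfl⟩ | ⟨rfl, rfl⟩)
      · rfl
      · exact pair_comm _ _
  have e2 : ¬ ((p = r ∧ q = u) ∨ (p = u ∧ q = r)) := by
    rintro (⟨rfl, rfl⟩ | ⟨rfl, rfl⟩)
    · exact hne rfl
    · exact hne (pair_comm _ _)
  rw [e1] at h1 h2
  clear e1 hcon hQ hne h3
  grind

/-- Two colours are to be chosen, outside the triples (or pairs) `T₁` and `T₂`, outside `Q`, and
different. If `T₁` and `T₂` are not the same triple, then at most three pairs `Q` are refused. -/
theorem p_two (T₁ T₂ : Finset (Fin 5)) (h₁ : T₁.card ≤ 3) (h₂ : T₂.card ≤ 3)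
    (hne : T₁ ≠ T₂ ∨ T₁.card ≤ 2) :
    ∃ Bad : Finset (Finset (Fin 5)), Bad.card ≤ 3 ∧
      ∀ Q : Finset (Fin 5), Q.card = 2 → Q ∉ Bad → ∃ a b, a ∉ T₁ ∧ b ∉ T₂ ∧ a ∉ Q ∧ b ∉ Q ∧
        a ≠ b := by
  classical
  have main : ∃ p q r u : Fin 5, p ≠ q ∧ r ≠ u ∧ p ∉ T₁ ∧ q ∉ T₁ ∧ r ∉ T₂ ∧ u ∉ T₂ ∧
      ({p, q} : Finset (Fin 5)) ≠ {r, u} := by
    obtain ⟨r, hr, u, hu, hru⟩ := one_lt_card.1 (show 1 < (T₂ᶜ).card by
      rw [card_compl, Fintype.card_fin]; omega)
    obtain ⟨p, hp, q, hq, hpq⟩ := one_lt_card.1 (show 1 < (T₁ᶜ).card by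
      rw [card_compl, Fintype.card_fin]; omega)
    rw [mem_compl] at hr hu hp hq
    by_cases h : ({p, q} : Finset (Fin 5)) = {r, u}
    · -- there is a third colour outside `T₁` or outside `T₂`
      have h3 : (∃ z, z ∉ T₁ ∧ z ≠ p ∧ z ≠ q) ∨ (∃ z, z ∉ T₂ ∧ z ≠ r ∧ z ≠ u) := by
        by_contra hno
        push_neg at hno
        obtain ⟨n1, n2⟩ := hno
        have e1 : T₁ᶜ = {p, q} := by
          ext z
          simp only [mem_compl, mem_insert, mem_singleton]
          constructor
          · intro hz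
            by_contra hc
            rw [not_or] at hc
            exact hc.2 (n1 z hz hc.1)
          · rintro (rfl | rfl) <;> assumption
        have e2 : T₂ᶜ = {r, u} := by
          ext z
          simp only [mem_compl, mem_insert, mem_singleton]
          constructor
          · intro hz
            by_contra hc
            rw [not_or] at hc
            exact hc.2 (n2 z hz hc.1)
          · rintro (rfl | rfl) <;> assumption
        rcases hne with hne | hne
        · apply hne
          rw [← compl_inj_iff, e1, e2, h]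
        · have hc : (T₁ᶜ).card = 2 := by rw [e1, card_pair hpq]
          rw [card_compl, Fintype.card_fin] at hc
          omega
      rcases h3 with ⟨z, hz, hzp, hzq⟩ | ⟨z, hz, hzr, hzu⟩
      · refine ⟨p, z, r, u, fun h => hzp h.symm, hru, hp, hz, hr, hu, ?_⟩
        rw [← h]
        intro h'
        have : z ∈ ({p, q} : Finset (Fin 5)) := by rw [← h']; simp
        simp only [mem_insert, mem_singleton] at this
        tauto
      · refine ⟨p, q, r, z, hpq, fun h => hzr h.symm, hp, hq, hr, hz, ?_⟩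
        rw [h]
        intro h'
        have : z ∈ ({r, u} : Finset (Fin 5)) := by rw [h']; simp
        simp only [mem_insert, mem_singleton] at this
        tauto
    · exact ⟨p, q, r, u, hpq, hru, hp, hq, hr, hu, h⟩
  obtain ⟨p, q, r, u, hpq, hru, hp, hq, hr, hu, hne⟩ := main
  obtain ⟨Bad, hB, hall⟩ := p_two_aux p q r u hpq hru hne
  refine ⟨Bad, hB, fun Q hQ hQn => ?_⟩
  obtain ⟨a, b, ha, hb, haQ, hbQ, hab⟩ := hall Q hQ hQn
  refine ⟨a, b, ?_, ?_, haQ, hbQ, hab⟩
  · simp only [mem_insert, mem_singleton] at ha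
    rcases ha with rfl | rfl <;> assumption
  · simp only [mem_insert, mem_singleton] at hb
    rcases hb with rfl | rfl <;> assumption

end Pool.Agent.Lib.H84E
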