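import Mathlib
import Pool.Agent.Lib.H84E.Base
import Pool.Agent.Lib.H84E.P

/-!
# H84E, module T2: at most three pairs are refused by the line
-/

set_option autoImplicit false

namespace Pool.Agent.Lib.H84E

open Finset

variable {R : ℤ → Prop} {P : ℤ → Finset (Fin 5)} {c : ℤ → Fin 5}

/-- the forbidden set on the left of the position `0` -/
theorem t2_left (hL : ∀ k, Loc R P c k) (hP : ∀ i, R i → (P i).card = 2)
    (h0 : ¬ R 0) (h1 : R (-1)) :
    ∃ T : Finset (Fin 5), T.card ≤ 3 ∧ P (-1) ⊆ T ∧
      (∀ a, a ∉ T → (a ∉ P (-1) ∧ (R (-2) → a ≠ c (-2)) ∧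
        (¬ R (-2) → ¬ AL R P c (-1) (insert a (P (-1)))))) ∧
      (T.card = 3 → (R (-2) ∧ T = insert (c (-2)) (P (-1))) ∨ (¬ R (-2) ∧ AL R P c (-1) T)) := by
  classical
  have hc := hP _ h1
  by_cases h2 : R (-2)
  · refine ⟨insert (c (-2)) (P (-1)), ?_, subset_insert _ _, ?_, fun _ => Or.inl ⟨h2, rfl⟩⟩
    · have := card_insert_le (c (-2)) (P (-1))
      omega
    · intro a ha
      rw [mem_insert, not_or] at ha
      exact ⟨ha.2, fun _ => ha.1, fun h => absurd h2 h⟩
  · by_cases hx : ∃ x, x ∉ P (-1) ∧ AL R P c (-1) (insert x (P (-1)))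
    · obtain ⟨x, hx1, hx2⟩ := hx
      refine ⟨insert x (P (-1)), ?_, subset_insert _ _, ?_, fun _ => Or.inr ⟨h2, hx2⟩⟩
      · have := card_insert_le x (P (-1))
        omega
      · intro a ha
        rw [mem_insert, not_or] at ha
        refine ⟨ha.2, fun h => absurd h h2, fun _ hA => ?_⟩
        apply ha.1
        -- uniqueness of `x`
        have hin : ∀ T : Finset (Fin 5), insert a (P (-1)) = T → insert x (P (-1)) = T → a = x := by
          intro T e1 e2
          have : a ∈ insert x (P (-1)) := by rw [e2, ← e1]; exact mem_insert_self _ _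
          rw [mem_insert] at this
          exact this.resolve_right ha.2
        unfold AL at hA hx2
        norm_num at hA hx2
        obtain ⟨r3, hA⟩ := hA
        obtain ⟨-, hx2⟩ := hx2
        by_cases r4 : R (-4)
        · have e1 : insert a (P (-1)) = insert (c (-4)) (P (-3)) := by
            rcases hA with h | h
            · exact h.2
            · exact absurd r4 h.1
          have e2 : insert x (P (-1)) = insert (c (-4)) (P (-3)) := by
            rcases hx2 with h | h
            · exact h.2
            · exact absurd r4 h.1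
          exact hin _ e1 e2
        · have g1 : R (-5) ∧ P (-3) ⊆ insert a (P (-1)) ∧
              ((R (-6) ∧ insert a (P (-1)) = insert (c (-6)) (P (-5))) ∨
                (¬ R (-6) ∧ P (-5) ⊆ insert a (P (-1)))) := by
            rcases hA with h | h
            · exact absurd h.1 r4
            · exact h.2
          have g2 : R (-5) ∧ P (-3) ⊆ insert x (P (-1)) ∧
              ((R (-6) ∧ insert x (P (-1)) = insert (c (-6)) (P (-5))) ∨
                (¬ R (-6) ∧ P (-5) ⊆ insert x (P (-1)))) := by
            rcases hx2 with h | h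
            · exact absurd h.1 r4
            · exact h.2
          obtain ⟨r5, s1, g1⟩ := g1
          obtain ⟨-, s2, g2⟩ := g2
          by_cases r6 : R (-6)
          · have e1 : insert a (P (-1)) = insert (c (-6)) (P (-5)) := by
              rcases g1 with h | h
              · exact h.2
              · exact absurd r6 h.1
            have e2 : insert x (P (-1)) = insert (c (-6)) (P (-5)) := by
              rcases g2 with h | h
              · exact h.2
              · exact absurd r6 h.1
            exact hin _ e1 e2
          · have g1 : P (-5) ⊆ insert a (P (-1)) := by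
              rcases g1 with h | h
              · exact absurd h.1 r6
              · exact h.2
            have g2 : P (-5) ⊆ insert x (P (-1)) := by
              rcases g2 with h | h
              · exact absurd h.1 r6
              · exact h.2
            by_contra hne
            -- both pairs are inside `P (-1)`
            have q1 : P (-3) ⊆ P (-1) := by
              intro z hz
              have m1 := s1 hz
              have m2 := s2 hz
              rw [mem_insert] at m1 m2
              grind
            have q2 : P (-5) ⊆ P (-1) := by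
              intro z hz
              have m1 := g1 hz
              have m2 := g2 hz
              rw [mem_insert] at m1 m2
              grind
            have q3 : P (-3) = P (-1) :=
              eq_of_subset_of_card_le q1 (by rw [hc, hP _ r3])
            have q4 : P (-5) = P (-1) :=
              eq_of_subset_of_card_le q2 (by rw [hc, hP _ r5])
            have d := (hL (-6)).D3
            norm_num at d
            exact d r6 r5 r4 r3 h2 h1 h0 (q4.trans q3.symm) q3
    · push_neg at hx
      refine ⟨P (-1), by omega, subset_rfl, ?_, fun h => by omega⟩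
      intro a ha
      exact ⟨ha, fun h => absurd h h2, fun _ => hx a ha⟩

/-- the forbidden set on the right of the position `0` -/
theorem t2_right (hP : ∀ i, R i → (P i).card = 2) (h1 : R 1) :
    ∃ T : Finset (Fin 5), T.card ≤ 3 ∧ P 1 ⊆ T ∧
      (∀ b, b ∉ T → (b ∉ P 1 ∧ (R 2 → b ≠ c 1) ∧
        (¬ R 2 → ¬ AR R P c 1 (insert b (P 1))))) ∧
      (T.card = 3 → (R 2 ∧ T = insert (c 1) (P 1)) ∨ (¬ R 2 ∧ AR R P c 1 T)) := by
  classical
  have hc := hP _ h1
  by_cases h2 : R 2
  · refine ⟨insert (c 1) (P 1), ?_, subset_insert _ _, ?_, fun _ => Or.inl ⟨h2, rfl⟩⟩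
    · have := card_insert_le (c 1) (P 1)
      omega
    · intro a ha
      rw [mem_insert, not_or] at ha
      exact ⟨ha.2, fun _ => ha.1, fun h => absurd h2 h⟩
  · by_cases hx : ∃ x, x ∉ P 1 ∧ AR R P c 1 (insert x (P 1))
    · obtain ⟨x, hx1, hx2⟩ := hx
      refine ⟨insert x (P 1), ?_, subset_insert _ _, ?_, fun _ => Or.inr ⟨h2, hx2⟩⟩
      · have := card_insert_le x (P 1)
        omega
      · intro a ha
        rw [mem_insert, not_or] at ha
        refine ⟨ha.2, fun h => absurd h h2, fun _ hA => ?_⟩
        apply ha.1
        have hin : ∀ T : Finset (Fin 5), insert a (P 1) = T → insert x (P 1) = T → a = x := by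
          intro T e1 e2
          have : a ∈ insert x (P 1) := by rw [e2, ← e1]; exact mem_insert_self _ _
          rw [mem_insert] at this
          exact this.resolve_right ha.2
        unfold AR at hA hx2
        norm_num at hA hx2
        obtain ⟨-, hA⟩ := hA
        obtain ⟨-, hx2⟩ := hx2
        by_cases r4 : R 4
        · have e1 : insert a (P 1) = insert (c 3) (P 3) := by
            rcases hA with h | h
            · exact h.2
            · exact absurd r4 h.1
          have e2 : insert x (P 1) = insert (c 3) (P 3) := by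
            rcases hx2 with h | h
            · exact h.2
            · exact absurd r4 h.1
          exact hin _ e1 e2
        · have e1 : insert a (P 1) = insert (c 5) (P 5) := by
            rcases hA with h | h
            · exact absurd h.1 r4
            · exact h.2.2.2.2
          have e2 : insert x (P 1) = insert (c 5) (P 5) := by
            rcases hx2 with h | h
            · exact absurd h.1 r4
            · exact h.2.2.2.2
          exact hin _ e1 e2
    · push_neg at hx
      refine ⟨P 1, by omega, subset_rfl, ?_, fun h => by omega⟩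
      intro a ha
      exact ⟨ha, fun h => absurd h h2, fun _ => hx a ha⟩

/-- the triple with `AR 0` is unique -/
theorem t2_AR_unique {T T' : Finset (Fin 5)} (h : AR R P c 0 T) (h' : AR R P c 0 T') :
    T = T' := by
  unfold AR at h h'
  norm_num at h h'
  grind

/-- `AR 0` triples have at most three elements -/
theorem t2_AR_card (hP : ∀ i, R i → (P i).card = 2) {T : Finset (Fin 5)}
    (h : AR R P c 0 T) : T.card ≤ 3 := by
  unfold AR at h
  norm_num at h
  obtain ⟨r2, h | h⟩ := h
  · rw [h.2]
    have := card_insert_le (c 2) (P 2)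
    have := hP _ r2
    omega
  · rw [h.2.2.2.2]
    have := card_insert_le (c 4) (P 4)
    have := hP _ h.2.1
    omega

/-- the triple with `AL 0` is unique -/
theorem t2_AL_unique (hL : ∀ k, Loc R P c k) (hP : ∀ i, R i → (P i).card = 2)
    (h0 : ¬ R 0) (hm1 : ¬ R (-1)) {T T' : Finset (Fin 5)} (hT : T.card = 3) (hT' : T'.card = 3)
    (h : AL R P c 0 T) (h' : AL R P c 0 T') : T = T' := by
  classical
  unfold AL at h h'
  norm_num at h h'
  obtain ⟨r2, h⟩ := h
  obtain ⟨-, h'⟩ := h'
  by_cases r3 : R (-3)
  · have e1 : T = insert (c (-3)) (P (-2)) := by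
      rcases h with h | h
      · exact h.2
      · exact absurd r3 h.1
    have e2 : T' = insert (c (-3)) (P (-2)) := by
      rcases h' with h | h
      · exact h.2
      · exact absurd r3 h.1
    rw [e1, e2]
  · have g1 : R (-4) ∧ P (-2) ⊆ T ∧ ((R (-5) ∧ T = insert (c (-5)) (P (-4))) ∨
        (¬ R (-5) ∧ P (-4) ⊆ T)) := by
      rcases h with h | h
      · exact absurd h.1 r3
      · exact h.2
    have g2 : R (-4) ∧ P (-2) ⊆ T' ∧ ((R (-5) ∧ T' = insert (c (-5)) (P (-4))) ∨
        (¬ R (-5) ∧ P (-4) ⊆ T')) := by
      rcases h' with h | h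
      · exact absurd h.1 r3
      · exact h.2
    obtain ⟨r4, s1, g1⟩ := g1
    obtain ⟨-, s2, g2⟩ := g2
    by_cases r5 : R (-5)
    · have e1 : T = insert (c (-5)) (P (-4)) := by
        rcases g1 with h | h
        · exact h.2
        · exact absurd r5 h.1
      have e2 : T' = insert (c (-5)) (P (-4)) := by
        rcases g2 with h | h
        · exact h.2
        · exact absurd r5 h.1
      rw [e1, e2]
    · have g1 : P (-4) ⊆ T := by
        rcases g1 with h | h
        · exact absurd h.1 r5
        · exact h.2
      have g2 : P (-4) ⊆ T' := by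
        rcases g2 with h | h
        · exact absurd h.1 r5
        · exact h.2
      have d := (hL (-5)).D2
      norm_num at d
      have hne : P (-4) ≠ P (-2) := fun h => h0 (d r5 r4 r3 r2 hm1 h)
      have hU : 3 ≤ (P (-4) ∪ P (-2)).card := by
        by_contra hlt
        have c4 := hP _ r4
        have c2 := hP _ r2
        have e1 : P (-4) = P (-4) ∪ P (-2) :=
          eq_of_subset_of_card_le subset_union_left (by omega)
        have e2 : P (-2) = P (-4) ∪ P (-2) :=
          eq_of_subset_of_card_le subset_union_right (by omega)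
        exact hne (e1.trans e2.symm)
      have u1 : P (-4) ∪ P (-2) = T :=
        eq_of_subset_of_card_le (union_subset g1 s1) (by omega)
      have u2 : P (-4) ∪ P (-2) = T' :=
        eq_of_subset_of_card_le (union_subset g2 s2) (by omega)
      rw [← u1, ← u2]

/-- the two forbidden sets are not the same triple -/
theorem t2_ne (hL : ∀ k, Loc R P c k) (h0 : ¬ R 0) (h1 : R (-1)) (h2 : R 1)
    {T : Finset (Fin 5)} (s1 : P (-1) ⊆ T) (s2 : P 1 ⊆ T)
    (hl : (R (-2) ∧ T = insert (c (-2)) (P (-1))) ∨ (¬ R (-2) ∧ AL R P c (-1) T))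
    (hr : (R 2 ∧ T = insert (c 1) (P 1)) ∨ (¬ R 2 ∧ AR R P c 1 T)) : False := by
  unfold AL at hl
  unfold AR at hr
  norm_num at hl hr
  rcases hl with ⟨l2, hl⟩ | ⟨l2, l3, hl⟩
  · rcases hr with ⟨r2, hr⟩ | ⟨r2, r3, hr⟩
    · have j := (hL (-2)).J0
      norm_num at j
      exact j l2 h1 h0 h2 r2 (hl.symm.trans hr)
    · rcases hr with ⟨r4, hr⟩ | ⟨r4, r5, r6, hs, hr⟩
      · have j := (hL (-2)).J1
        norm_num at j
        exact j l2 h1 h0 h2 r2 r3 r4 (hl.symm.trans hr) (hl ▸ s2)
      · have j := (hL 0).I
        norm_num at j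
        exact j h0 h2 r2 r3 r4 r5 r6 (hr ▸ s2) (hr ▸ hs)
  · rcases hr with ⟨r2, hr⟩ | ⟨r2, r3, hr⟩
    · rcases hl with ⟨l4, hl⟩ | ⟨l4, l5, hs, hl⟩
      · have j := (hL (-4)).J1
        norm_num at j
        exact j l4 l3 l2 h1 h0 h2 r2 (hl.symm.trans hr) (hl ▸ s1)
      · have j := (hL (-4)).I
        norm_num at j
        exact j l4 l3 l2 h1 h0 h2 r2 (hr ▸ hs) (hr ▸ s1)
    · rcases hr with ⟨r4, hr⟩ | ⟨r4, r5, r6, hs, hr⟩
      · have j := (hL (-2)).I
        norm_num at j
        exact j l2 h1 h0 h2 r2 r3 r4 (hr ▸ s1) (hr ▸ s2)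
      · have j := (hL 0).I
        norm_num at j
        exact j h0 h2 r2 r3 r4 r5 r6 (hr ▸ s2) (hr ▸ hs)

/-- **The line refuses at most three pairs.** -/
theorem line_step (hL : ∀ k, Loc R P c k) (hP : ∀ i, R i → (P i).card = 2) (h0 : ¬ R 0) :
    ∃ Bad : Finset (Finset (Fin 5)), Bad.card ≤ 3 ∧
      ∀ Q : Finset (Fin 5), Q.card = 2 → Q ∉ Bad → ∃ a b, Move R P c Q a b := by
  classical
  by_cases hm1 : R (-1)
  · obtain ⟨TL, cL, sL, aL, eL⟩ := t2_left hL hP h0 hm1
    by_cases h1 : R 1
    · obtain ⟨TR, cR, sR, aR, eR⟩ := t2_right (c := c) hP h1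
      have hne : TL ≠ TR ∨ TL.card ≤ 2 := by
        by_contra hcon
        rw [not_or] at hcon
        obtain ⟨e, hc⟩ := hcon
        have e : TL = TR := not_not.1 e
        have hc3 : TL.card = 3 := by omega
        have l := eL hc3
        have r := eR (e ▸ hc3)
        rw [← e] at r sR
        exact t2_ne hL h0 hm1 h1 sL sR l r
      obtain ⟨Bad, hB, hall⟩ := p_two TL TR cL cR hne
      refine ⟨Bad, hB, fun Q hQ hQn => ?_⟩
      obtain ⟨a, b, ha, hb, haQ, hbQ, hab⟩ := hall Q hQ hQn
      obtain ⟨a1, a2, a3⟩ := aL a ha
      obtain ⟨b1, b2, b3⟩ := aR b hb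
      exact ⟨a, b, {
        a1 := fun _ => ⟨a1, haQ⟩
        b1 := fun _ => ⟨b1, hbQ⟩
        ab := fun _ _ => hab
        a2 := fun _ => a2
        b2 := fun _ => b2
        a3 := fun _ => a3
        b3 := fun _ => b3
        a4 := fun _ h => absurd h1 h
        b4 := fun _ h => absurd hm1 h
        z1 := fun h => absurd hm1 h
        z2 := fun h => absurd hm1 h }⟩
    · obtain ⟨Bad, hB, hall⟩ := p_one TL cL (AR R P c 0)
        (fun T T' _ _ h h' => t2_AR_unique h h')
      refine ⟨Bad, hB, fun Q hQ hQn => ?_⟩
      obtain ⟨a, ha, haQ, hZ⟩ := hall Q hQ hQn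
      obtain ⟨a1, a2, a3⟩ := aL a ha
      exact ⟨a, a, {
        a1 := fun _ => ⟨a1, haQ⟩
        b1 := fun h => absurd h h1
        ab := fun _ h => absurd h h1
        a2 := fun _ => a2
        b2 := fun h => absurd h h1
        a3 := fun _ => a3
        b3 := fun h => absurd h h1
        a4 := fun _ _ => hZ
        b4 := fun h => absurd h h1
        z1 := fun h => absurd hm1 h
        z2 := fun h => absurd hm1 h }⟩
  · by_cases h1 : R 1
    · obtain ⟨TR, cR, sR, aR, eR⟩ := t2_right (c := c) hP h1
      obtain ⟨Bad, hB, hall⟩ := p_one TR cR (AL R P c 0)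
        (fun T T' hT hT' h h' => t2_AL_unique hL hP h0 hm1 hT hT' h h')
      refine ⟨Bad, hB, fun Q hQ hQn => ?_⟩
      obtain ⟨b, hb, hbQ, hZ⟩ := hall Q hQ hQn
      obtain ⟨b1, b2, b3⟩ := aR b hb
      exact ⟨b, b, {
        a1 := fun h => absurd h hm1
        b1 := fun _ => ⟨b1, hbQ⟩
        ab := fun h => absurd h hm1
        a2 := fun h => absurd h hm1
        b2 := fun _ => b2
        a3 := fun h => absurd h hm1
        b3 := fun _ => b3
        a4 := fun h => absurd h hm1
        b4 := fun _ _ => hZ
        z1 := fun _ h => absurd h1 h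
        z2 := fun _ h => absurd h1 h }⟩
    · by_cases hT : ∃ T, AR R P c 0 T
      · obtain ⟨T, hT⟩ := hT
        refine ⟨powersetCard 2 T, ?_, ?_⟩
        · rw [card_powersetCard]
          have := t2_AR_card hP hT
          calc T.card.choose 2 ≤ Nat.choose 3 2 := Nat.choose_le_choose 2 this
            _ = 3 := by decide
        · intro Q hQ hQn
          exact ⟨0, 0, {
            a1 := fun h => absurd h hm1
            b1 := fun h => absurd h h1
            ab := fun h => absurd h hm1
            a2 := fun h => absurd h hm1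
            b2 := fun h => absurd h h1
            a3 := fun h => absurd h hm1
            b3 := fun h => absurd h h1
            a4 := fun h => absurd h hm1
            b4 := fun h => absurd h h1
            z1 := fun _ _ T' hT' hs => hQn (mem_powersetCard.2 ⟨t2_AR_unique hT' hT ▸ hs, hQ⟩)
            z2 := fun _ _ h => absurd hT (h T) }⟩
      · push_neg at hT
        refine ⟨{P (-2), P 2}, card_le_two.trans (by norm_num), ?_⟩
        intro Q hQ hQn
        simp only [mem_insert, mem_singleton, not_or] at hQn
        exact ⟨0, 0, {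
          a1 := fun h => absurd h hm1
          b1 := fun h => absurd h h1
          ab := fun h => absurd h hm1
          a2 := fun h => absurd h hm1
          b2 := fun h => absurd h h1
          a3 := fun h => absurd h hm1
          b3 := fun h => absurd h h1
          a4 := fun h => absurd h hm1
          b4 := fun h => absurd h h1
          z1 := fun _ _ T' hT' => absurd hT' (hT T')
          z2 := fun _ _ _ => ⟨fun _ _ => hQn.1, fun _ _ => hQn.2⟩ }⟩

end Pool.Agent.Lib.H84E
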