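import Mathlib
import Pool.Agent.Lib.H84E.Base
import Pool.Agent.Lib.H84E.T1
import Pool.Agent.Lib.H84E.T2

/-!
# H84E, module M1: congruence lemmas for lines, choice depending on a finite view
-/

set_option autoImplicit false

namespace Pool.Agent.Lib.H84E

theorem m1_Loc_congr {R R' : ℤ → Prop} {P P' : ℤ → Finset (Fin 5)} {c c' : ℤ → Fin 5} {k : ℤ}
    (hR : ∀ i, k ≤ i → i ≤ k + 6 → (R i ↔ R' i)) (hP : ∀ i, k ≤ i → i ≤ k + 6 → P i = P' i)
    (hc : ∀ i, k ≤ i → i ≤ k + 5 → c i = c' i) (h : Loc R P c k) : Loc R' P' c' k := by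
  have r0 := hR k (by omega) (by omega)
  have r1 := hR (k + 1) (by omega) (by omega)
  have r2 := hR (k + 2) (by omega) (by omega)
  have r3 := hR (k + 3) (by omega) (by omega)
  have r4 := hR (k + 4) (by omega) (by omega)
  have r5 := hR (k + 5) (by omega) (by omega)
  have r6 := hR (k + 6) (by omega) (by omega)
  have p0 := hP k (by omega) (by omega)
  have p1 := hP (k + 1) (by omega) (by omega)
  have p3 := hP (k + 3) (by omega) (by omega)
  have p5 := hP (k + 5) (by omega) (by omega)
  have c0 := hc k (by omega) (by omega)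
  have c1 := hc (k + 1) (by omega) (by omega)
  have c3 := hc (k + 3) (by omega) (by omega)
  have c5 := hc (k + 5) (by omega) (by omega)
  obtain ⟨E1, E2, J0, J1, I, D2, D3⟩ := h
  rw [r0, r1, p0, p1, c0] at E1
  rw [r0, r1, r2, c0, c1] at E2
  rw [r0, r1, r2, r3, r4, c0, c3, p1, p3] at J0
  rw [r0, r1, r2, r3, r4, r5, r6, c0, c5, p1, p3, p5] at J1
  rw [r0, r1, r2, r3, r4, r5, r6, c5, p1, p3, p5] at I
  rw [r0, r1, r2, r3, r4, r5, p1, p3] at D2
  rw [r0, r1, r2, r3, r4, r5, r6, p1, p3, p5] at D3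
  exact ⟨E1, E2, J0, J1, I, D2, D3⟩

theorem m1_Loc_shift {R : ℤ → Prop} {P : ℤ → Finset (Fin 5)} {c : ℤ → Fin 5} {k j : ℤ}
    (h : Loc R P c (k + j)) :
    Loc (fun i => R (i + j)) (fun i => P (i + j)) (fun i => c (i + j)) k := by
  obtain ⟨E1, E2, J0, J1, I, D2, D3⟩ := h
  constructor
  · simpa only [add_right_comm] using E1
  · simpa only [add_right_comm] using E2
  · simpa only [add_right_comm] using J0
  · simpa only [add_right_comm] using J1
  · simpa only [add_right_comm] using I
  · simpa only [add_right_comm] using D2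
  · simpa only [add_right_comm] using D3

theorem m1_Move_congr {R R' : ℤ → Prop} {P P' : ℤ → Finset (Fin 5)} {c c' : ℤ → Fin 5}
    {Q : Finset (Fin 5)} {a b : Fin 5}
    (hR : ∀ i, -7 ≤ i → i ≤ 7 → (R i ↔ R' i)) (hP : ∀ i, -7 ≤ i → i ≤ 7 → P i = P' i)
    (hc : ∀ i, -7 ≤ i → i ≤ 7 → c i = c' i) (h : Move R P c Q a b) : Move R' P' c' Q a b := by
  have hAL0 : ∀ T, AL R P c 0 T ↔ AL R' P' c' 0 T := by
    intro T
    unfold AL
    norm_num
    rw [hR (-2) (by norm_num) (by norm_num), hR (-3) (by norm_num) (by norm_num),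
      hR (-4) (by norm_num) (by norm_num), hR (-5) (by norm_num) (by norm_num),
      hP (-2) (by norm_num) (by norm_num), hP (-4) (by norm_num) (by norm_num),
      hc (-3) (by norm_num) (by norm_num), hc (-5) (by norm_num) (by norm_num)]
  have hAL1 : ∀ T, AL R P c (-1) T ↔ AL R' P' c' (-1) T := by
    intro T
    unfold AL
    norm_num
    rw [hR (-3) (by norm_num) (by norm_num), hR (-4) (by norm_num) (by norm_num),
      hR (-5) (by norm_num) (by norm_num), hR (-6) (by norm_num) (by norm_num),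
      hP (-3) (by norm_num) (by norm_num), hP (-5) (by norm_num) (by norm_num),
      hc (-4) (by norm_num) (by norm_num), hc (-6) (by norm_num) (by norm_num)]
  have hAR0 : ∀ T, AR R P c 0 T ↔ AR R' P' c' 0 T := by
    intro T
    unfold AR
    norm_num
    rw [hR 2 (by norm_num) (by norm_num), hR 3 (by norm_num) (by norm_num),
      hR 4 (by norm_num) (by norm_num), hR 5 (by norm_num) (by norm_num),
      hP 2 (by norm_num) (by norm_num), hP 4 (by norm_num) (by norm_num),
      hc 2 (by norm_num) (by norm_num), hc 4 (by norm_num) (by norm_num)]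
  have hAR1 : ∀ T, AR R P c 1 T ↔ AR R' P' c' 1 T := by
    intro T
    unfold AR
    norm_num
    rw [hR 3 (by norm_num) (by norm_num), hR 4 (by norm_num) (by norm_num),
      hR 5 (by norm_num) (by norm_num), hR 6 (by norm_num) (by norm_num),
      hP 3 (by norm_num) (by norm_num), hP 5 (by norm_num) (by norm_num),
      hc 3 (by norm_num) (by norm_num), hc 5 (by norm_num) (by norm_num)]
  obtain ⟨a1, b1, ab, a2, b2, a3, b3, a4, b4, z1, z2⟩ := h
  have rm3 := hR (-3) (by norm_num) (by norm_num)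
  have rm2 := hR (-2) (by norm_num) (by norm_num)
  have rm1 := hR (-1) (by norm_num) (by norm_num)
  have r1 := hR 1 (by norm_num) (by norm_num)
  have r2 := hR 2 (by norm_num) (by norm_num)
  have r3 := hR 3 (by norm_num) (by norm_num)
  have pm2 := hP (-2) (by norm_num) (by norm_num)
  have pm1 := hP (-1) (by norm_num) (by norm_num)
  have p1 := hP 1 (by norm_num) (by norm_num)
  have p2 := hP 2 (by norm_num) (by norm_num)
  have cm2 := hc (-2) (by norm_num) (by norm_num)
  have c1 := hc 1 (by norm_num) (by norm_num)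
  simp only [hAL0, hAL1, hAR0, hAR1, rm3, rm2, rm1, r1, r2, r3, pm2, pm1, p1, p2, cm2, c1] at *
  exact ⟨a1, b1, ab, a2, b2, a3, b3, a4, b4, z1, z2⟩

/-- a choice which depends on a view only -/
theorem m1_choose {X V β : Type*} [Nonempty β] (view : X → V) (D : X → Prop) (p : X → β → Prop)
    (hcongr : ∀ x x' b, D x → D x' → view x = view x' → p x b → p x' b)
    (hex : ∀ x, D x → ∃ b, p x b) : ∃ g : V → β, ∀ x, D x → p x (g (view x)) := by
  classical
  refine ⟨fun v => if h : ∃ x, D x ∧ view x = v then (hex h.choose h.choose_spec.1).choose else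
    Classical.arbitrary β, fun x hx => ?_⟩
  have h : ∃ x', D x' ∧ view x' = view x := ⟨x, hx, rfl⟩
  simp only [dif_pos h]
  exact hcongr _ _ _ h.choose_spec.1 hx h.choose_spec.2 (hex h.choose h.choose_spec.1).choose_spec

end Pool.Agent.Lib.H84E
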