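import Mathlib

/-!
# H84E, module S: the cell lemma

On a cycle of length `m ≥ 3`, if every vertex refuses at most three of the ten colour pairs,
there is a proper edge colouring with five colours which respects all the refusals.
-/

set_option autoImplicit false

namespace Pool.Agent.Lib.H84E

open Finset

/-- the colours which can follow a colour of `R` at a vertex which refuses the pairs in `Bad` -/
def nxt (Bad : Finset (Finset (Fin 5))) (R : Finset (Fin 5)) : Finset (Fin 5) :=
  univ.filter (fun y => ∃ x ∈ R, x ≠ y ∧ ({x, y} : Finset (Fin 5)) ∉ Bad)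

theorem notMem_nxt {Bad : Finset (Finset (Fin 5))} {R : Finset (Fin 5)} {y : Fin 5}
    (h : y ∉ nxt Bad R) : ∀ x ∈ R, x ≠ y → ({x, y} : Finset (Fin 5)) ∈ Bad := by
  intro x hx hxy
  by_contra hc
  exact h (by simp only [nxt, mem_filter, mem_univ, true_and]; exact ⟨x, hx, hxy, hc⟩)

theorem pair_inj {x x' y : Fin 5} (h : ({x, y} : Finset (Fin 5)) = {x', y}) (hx : x ≠ y) :
    x = x' := by
  have : x ∈ ({x', y} : Finset (Fin 5)) := by rw [← h]; simp
  simp only [mem_insert, mem_singleton] at this
  tauto

/-- the pairs at `y` -/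
theorem card_star (R : Finset (Fin 5)) (y : Fin 5) :
    ((R.erase y).image (fun x => ({x, y} : Finset (Fin 5)))).card = (R.erase y).card := by
  apply card_image_of_injOn
  intro x hx x' hx' h
  have : x ≠ y := by
    have := mem_coe.1 hx
    simp only [mem_erase] at this
    exact this.1
  exact pair_inj h this

theorem star_sub {Bad : Finset (Finset (Fin 5))} {R : Finset (Fin 5)} {y : Fin 5}
    (h : y ∉ nxt Bad R) : (R.erase y).image (fun x => ({x, y} : Finset (Fin 5))) ⊆ Bad := by
  intro p hp
  simp only [mem_image, mem_erase] at hp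
  obtain ⟨x, ⟨hxy, hx⟩, rfl⟩ := hp
  exact notMem_nxt h x hx hxy

/-- two different colours cannot both be unreachable from large sets -/
theorem not_both {Bad : Finset (Finset (Fin 5))} (hB : Bad.card ≤ 3) {R R' : Finset (Fin 5)}
    (hR : 4 ≤ R.card) (hR' : 4 ≤ R'.card) {y y' : Fin 5} (hyy : y ≠ y')
    (h : y ∉ nxt Bad R) (h' : y' ∉ nxt Bad R') : False := by
  have h1 := star_sub h
  have h2 := star_sub h'
  have c1 := card_star R y
  have c2 := card_star R' y'
  have e1 : 3 ≤ (R.erase y).card := by
    have := pred_card_le_card_erase (s := R) (a := y)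
    omega
  have e2 : 3 ≤ (R'.erase y').card := by
    have := pred_card_le_card_erase (s := R') (a := y')
    omega
  set A := (R.erase y).image (fun x => ({x, y} : Finset (Fin 5)))
  set B := (R'.erase y').image (fun x => ({x, y'} : Finset (Fin 5)))
  have hint : (A ∩ B).card ≤ 1 := by
    rw [card_le_one]
    intro p hp q hq
    have key : ∀ p ∈ A ∩ B, p = {y, y'} := by
      intro p hp
      simp only [A, B, mem_inter, mem_image, mem_erase] at hp
      obtain ⟨⟨x, ⟨hxy, hx⟩, rfl⟩, ⟨x', ⟨hxy', hx'⟩, he⟩⟩ := hp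
      have : y ∈ ({x', y'} : Finset (Fin 5)) := by rw [he]; simp
      simp only [mem_insert, mem_singleton] at this
      rcases this with h | h
      · rw [← he, h]
      · exact absurd h hyy
    rw [key p hp, key q hq]
  have hun : (A ∪ B).card ≤ 3 := (card_le_card (union_subset h1 h2)).trans hB
  have := card_union_add_card_inter A B
  omega

theorem nxt_four {Bad : Finset (Finset (Fin 5))} (hB : Bad.card ≤ 3) {R : Finset (Fin 5)}
    (hR : 4 ≤ R.card) : 4 ≤ (nxt Bad R).card := by
  by_contra hlt
  have hc : 2 ≤ ((nxt Bad R)ᶜ).card := by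
    rw [card_compl, Fintype.card_fin]; omega
  obtain ⟨y, hy, y', hy', hne⟩ := one_lt_card.1 (by omega : 1 < ((nxt Bad R)ᶜ).card)
  exact not_both hB hR hR hne (mem_compl.1 hy) (mem_compl.1 hy')

/-- from a set with three colours one reaches four colours, unless the refused pairs are exactly
the pairs in this set -/
theorem nxt_three {Bad : Finset (Finset (Fin 5))} (hB : Bad.card ≤ 3) {R : Finset (Fin 5)}
    (hR : 3 ≤ R.card) : 4 ≤ (nxt Bad R).card ∨
      ∃ x y z : Fin 5, x ≠ y ∧ x ≠ z ∧ y ≠ z ∧ Bad = {{x, y}, {x, z}, {y, z}} := by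
  by_cases hlt : 4 ≤ (nxt Bad R).card
  · exact Or.inl hlt
  right
  have hc : 2 ≤ ((nxt Bad R)ᶜ).card := by
    rw [card_compl, Fintype.card_fin]; omega
  obtain ⟨y, hy, y', hy', hne⟩ := one_lt_card.1 (by omega : 1 < ((nxt Bad R)ᶜ).card)
  have hy := mem_compl.1 hy
  have hy' := mem_compl.1 hy'
  obtain ⟨z, hz⟩ : ∃ z, z ∈ (R.erase y).erase y' := by
    have h1 := pred_card_le_card_erase (s := R) (a := y)
    have h2 := pred_card_le_card_erase (s := R.erase y) (a := y')
    apply card_pos.1
    omega
  simp only [mem_erase] at hz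
  obtain ⟨hz1, hz2, hz3⟩ := hz
  have p1 := notMem_nxt hy z hz3 hz2
  have p2 := notMem_nxt hy' z hz3 hz1
  -- one more pair
  have hd12 : ({z, y} : Finset (Fin 5)) ≠ {z, y'} := by
    intro h
    have : y ∈ ({z, y'} : Finset (Fin 5)) := by rw [← h]; simp
    simp only [mem_insert, mem_singleton] at this
    rcases this with h | h
    · exact hz2 h.symm
    · exact hne h
  -- `y ∈ R` and `y' ∈ R`
  have key : ∀ y y' : Fin 5, y ≠ y' → y ∉ nxt Bad R → y' ∉ nxt Bad R → y ∈ R := by
    intro y y' hne hy hy'
    by_contra hyR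
    have h1 := star_sub hy
    have h2 := star_sub hy'
    have c1 := card_star R y
    have c2 := card_star R y'
    have e1 : 3 ≤ (R.erase y).card := by
      rw [erase_eq_of_notMem hyR]; exact hR
    have e2 : 2 ≤ (R.erase y').card := by
      have := pred_card_le_card_erase (s := R) (a := y')
      omega
    have hdis : Disjoint ((R.erase y).image (fun x => ({x, y} : Finset (Fin 5))))
        ((R.erase y').image (fun x => ({x, y'} : Finset (Fin 5)))) := by
      rw [disjoint_left]
      intro p hp hq
      simp only [mem_image, mem_erase] at hp hq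
      obtain ⟨x, ⟨hxy, hx⟩, rfl⟩ := hp
      obtain ⟨x', ⟨hxy', hx'⟩, he⟩ := hq
      have : y ∈ ({x', y'} : Finset (Fin 5)) := by rw [he]; simp
      simp only [mem_insert, mem_singleton] at this
      rcases this with h | h
      · exact hyR (h ▸ hx')
      · exact hne h
    have hun := (card_le_card (union_subset h1 h2)).trans hB
    rw [card_union_of_disjoint hdis] at hun
    omega
  have hyR := key y y' hne hy hy'
  have hyR' := key y' y hne.symm hy' hy
  have p3 := notMem_nxt hy' y hyR hne
  refine ⟨z, y, y', hz2, hz1, hne, ?_⟩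
  have hsub : ({{z, y}, {z, y'}, {y, y'}} : Finset (Finset (Fin 5))) ⊆ Bad := by
    intro p hp
    simp only [mem_insert, mem_singleton] at hp
    rcases hp with rfl | rfl | rfl <;> assumption
  have hd13 : ({z, y} : Finset (Fin 5)) ≠ {y, y'} := by
    intro h
    have : z ∈ ({y, y'} : Finset (Fin 5)) := by rw [← h]; simp
    simp only [mem_insert, mem_singleton] at this
    tauto
  have hd23 : ({z, y'} : Finset (Fin 5)) ≠ {y, y'} := by
    intro h
    have : z ∈ ({y, y'} : Finset (Fin 5)) := by rw [← h]; simp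
    simp only [mem_insert, mem_singleton] at this
    tauto
  have hcard : ({{z, y}, {z, y'}, {y, y'}} : Finset (Finset (Fin 5))).card = 3 := by
    rw [card_eq_three]
    exact ⟨_, _, _, hd12, hd13, hd23, rfl⟩
  exact (eq_of_subset_of_card_le hsub (by omega)).symm

/-- the number of refused pairs at a colour -/
def dg (Bad : Finset (Finset (Fin 5))) (a : Fin 5) : ℕ :=
  ((univ : Finset (Fin 5)).filter (fun y => a ≠ y ∧ ({a, y} : Finset (Fin 5)) ∈ Bad)).card

theorem sum_dg {Bad : Finset (Finset (Fin 5))} (hB : Bad.card ≤ 3) :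
    ∑ a, dg Bad a ≤ 6 := by
  have h1 : ∑ a, dg Bad a = ((univ : Finset (Fin 5 × Fin 5)).filter
      (fun q => q.1 ≠ q.2 ∧ ({q.1, q.2} : Finset (Fin 5)) ∈ Bad)).card := by
    rw [card_filter, ← univ_product_univ, sum_product]
    refine sum_congr rfl fun a _ => ?_
    rw [dg, card_filter]
  rw [h1]
  have h2 : ((univ : Finset (Fin 5 × Fin 5)).filter
      (fun q => q.1 ≠ q.2 ∧ ({q.1, q.2} : Finset (Fin 5)) ∈ Bad)).card ≤ 2 * Bad.card := by
    refine card_le_mul_card_image_of_maps_to
      (f := fun q : Fin 5 × Fin 5 => ({q.1, q.2} : Finset (Fin 5))) ?_ 2 ?_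
    · intro q hq
      exact (mem_filter.1 hq).2.2
    · intro p hp
      by_cases hne : ∃ q : Fin 5 × Fin 5, q.1 ≠ q.2 ∧ ({q.1, q.2} : Finset (Fin 5)) = p
      · obtain ⟨⟨u, w⟩, huw, rfl⟩ := hne
        calc _ ≤ ({(u, w), (w, u)} : Finset (Fin 5 × Fin 5)).card := by
              apply card_le_card
              rintro ⟨x, y⟩ hq
              simp only [mem_filter, mem_univ, true_and] at hq
              obtain ⟨⟨hxy, -⟩, he⟩ := hq
              have hx : x ∈ ({u, w} : Finset (Fin 5)) := by rw [← he]; simp
              have hy : y ∈ ({u, w} : Finset (Fin 5)) := by rw [← he]; simp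
              simp only [mem_insert, mem_singleton] at hx hy
              simp only [mem_insert, mem_singleton, Prod.mk.injEq]
              rcases hx with rfl | rfl <;> rcases hy with rfl | rfl <;> simp_all
          _ ≤ 2 := card_le_two
      · rw [filter_eq_empty_iff.2]
        · simp
        · intro q hq he
          simp only [mem_filter, mem_univ, true_and] at hq
          exact hne ⟨q, hq.1, he⟩
  omega

theorem card_nxt_single (Bad : Finset (Finset (Fin 5))) (a : Fin 5) :
    (nxt Bad {a}).card + dg Bad a = 4 := by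
  have h : nxt Bad {a} = (univ.erase a) \
      ((univ : Finset (Fin 5)).filter (fun y => a ≠ y ∧ ({a, y} : Finset (Fin 5)) ∈ Bad)) := by
    ext y
    simp only [nxt, mem_filter, mem_univ, true_and, mem_singleton, exists_eq_left, mem_sdiff,
      mem_erase, ne_eq, not_and, and_true]
    constructor
    · rintro ⟨h1, h2⟩
      exact ⟨fun h => h1 h.symm, fun _ => h2⟩
    · rintro ⟨h1, h2⟩
      exact ⟨fun h => h1 h.symm, h2 fun h => h1 h.symm⟩
  have hs : ((univ : Finset (Fin 5)).filter (fun y => a ≠ y ∧ ({a, y} : Finset (Fin 5)) ∈ Bad)) ⊆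
      univ.erase a := by
    intro y hy
    simp only [mem_filter, mem_univ, true_and] at hy
    simp only [mem_erase, mem_univ, and_true]
    exact fun h => hy.1 h.symm
  rw [h, dg, card_sdiff_add_card_eq_card hs, card_erase_of_mem (mem_univ a), card_fin]

/-- there are two starting colours from which one reaches four colours in two steps -/
theorem two_starts {B₁ B₂ : Finset (Finset (Fin 5))} (h₁ : B₁.card ≤ 3) (h₂ : B₂.card ≤ 3) :
    ∃ a b : Fin 5, a ≠ b ∧ 4 ≤ (nxt B₂ (nxt B₁ {a})).card ∧ 4 ≤ (nxt B₂ (nxt B₁ {b})).card := by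
  by_cases htri : ∃ x y z : Fin 5, x ≠ y ∧ x ≠ z ∧ y ≠ z ∧
      B₂ = ({{x, y}, {x, z}, {y, z}} : Finset (Finset (Fin 5)))
  · obtain ⟨x, y, z, hxy, hxz, hyz, rfl⟩ := htri
    -- the two other colours
    obtain ⟨d, e, hde, hcompl⟩ : ∃ d e : Fin 5, d ≠ e ∧
        ({x, y, z} : Finset (Fin 5))ᶜ = {d, e} := by
      apply card_eq_two.1
      rw [card_compl, Fintype.card_fin, card_eq_three.2 ⟨x, y, z, hxy, hxz, hyz, rfl⟩]
    have hd : d ∉ ({x, y, z} : Finset (Fin 5)) := by
      rw [← mem_compl, hcompl]; simp
    have he : e ∉ ({x, y, z} : Finset (Fin 5)) := by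
      rw [← mem_compl, hcompl]; simp
    -- a set which contains `d` or `e` is good
    have good : ∀ (R : Finset (Fin 5)) (w : Fin 5), w ∉ ({x, y, z} : Finset (Fin 5)) → w ∈ R →
        4 ≤ (nxt {{x, y}, {x, z}, {y, z}} R).card := by
      intro R w hw hwR
      have hsub : univ.erase w ⊆ nxt {{x, y}, {x, z}, {y, z}} R := by
        intro v hv
        simp only [mem_erase, mem_univ, and_true] at hv
        simp only [nxt, mem_filter, mem_univ, true_and]
        refine ⟨w, hwR, fun h => hv h.symm, ?_⟩
        intro hmem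
        apply hw
        have hw' : w ∈ ({w, v} : Finset (Fin 5)) := by simp
        simp only [mem_insert, mem_singleton] at hmem
        rcases hmem with h | h | h
        all_goals
          rw [h] at hw'
          simp only [mem_insert, mem_singleton] at hw' ⊢
          tauto
      calc 4 = (univ.erase w : Finset (Fin 5)).card := by
            rw [card_erase_of_mem (mem_univ w), card_fin]
        _ ≤ _ := card_le_card hsub
    by_cases hdeB : ({d, e} : Finset (Fin 5)) ∈ B₁
    · -- a colour of the triangle is bad only if two more pairs are refused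
      have hT : ∀ a ∈ ({x, y, z} : Finset (Fin 5)),
          ({a, d} : Finset (Fin 5)) ∉ B₁ ∨ ({a, e} : Finset (Fin 5)) ∉ B₁ →
          4 ≤ (nxt {{x, y}, {x, z}, {y, z}} (nxt B₁ {a})).card := by
        intro a ha h
        rcases h with h | h
        · apply good _ d hd
          simp only [nxt, mem_filter, mem_univ, true_and, mem_singleton, exists_eq_left]
          exact ⟨fun h' => hd (h' ▸ ha), h⟩
        · apply good _ e he
          simp only [nxt, mem_filter, mem_univ, true_and, mem_singleton, exists_eq_left]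
          exact ⟨fun h' => he (h' ▸ ha), h⟩
      -- at most one colour of the triangle is bad
      have hone : ∀ a a' : Fin 5, a ∈ ({x, y, z} : Finset (Fin 5)) →
          a' ∈ ({x, y, z} : Finset (Fin 5)) → a ≠ a' →
          ¬ (({a, d} : Finset (Fin 5)) ∉ B₁ ∨ ({a, e} : Finset (Fin 5)) ∉ B₁) →
          ({a', d} : Finset (Fin 5)) ∉ B₁ ∨ ({a', e} : Finset (Fin 5)) ∉ B₁ := by
        intro a a' ha ha' hne hbad
        by_contra hbad'
        push_neg at hbad hbad'
        have had : a ≠ d := fun h' => hd (h' ▸ ha)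
        have hae : a ≠ e := fun h' => he (h' ▸ ha)
        have had' : a' ≠ d := fun h' => hd (h' ▸ ha')
        have hae' : a' ≠ e := fun h' => he (h' ▸ ha')
        have hsub : ({{d, e}, {a, d}, {a, e}, {a', d}} : Finset (Finset (Fin 5))) ⊆ B₁ := by
          intro p hp
          simp only [mem_insert, mem_singleton] at hp
          rcases hp with rfl | rfl | rfl | rfl
          · exact hdeB
          · exact hbad.1
          · exact hbad.2
          · exact hbad'.1
        have hcard : ({{d, e}, {a, d}, {a, e}, {a', d}} : Finset (Finset (Fin 5))).card = 4 := by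
          have m : ∀ p q : Finset (Fin 5), (∃ v ∈ p, v ∉ q) → p ≠ q := by
            rintro p q ⟨v, hv, hv'⟩ rfl
            exact hv' hv
          have n1 : ({d, e} : Finset (Fin 5)) ≠ {a, d} := m _ _ ⟨e, by simp, by
            simp only [mem_insert, mem_singleton]; tauto⟩
          have n2 : ({d, e} : Finset (Fin 5)) ≠ {a, e} := m _ _ ⟨d, by simp, by
            simp only [mem_insert, mem_singleton]; tauto⟩
          have n3 : ({d, e} : Finset (Fin 5)) ≠ {a', d} := m _ _ ⟨e, by simp, by
            simp only [mem_insert, mem_singleton]; tauto⟩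
          have n4 : ({a, d} : Finset (Fin 5)) ≠ {a, e} := m _ _ ⟨d, by simp, by
            simp only [mem_insert, mem_singleton]; tauto⟩
          have n5 : ({a, d} : Finset (Fin 5)) ≠ {a', d} := m _ _ ⟨a, by simp, by
            simp only [mem_insert, mem_singleton]; tauto⟩
          have n6 : ({a, e} : Finset (Fin 5)) ≠ {a', d} := m _ _ ⟨a, by simp, by
            simp only [mem_insert, mem_singleton]; tauto⟩
          rw [card_insert_of_notMem, card_insert_of_notMem, card_insert_of_notMem,
            card_singleton]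
          all_goals simp only [mem_insert, mem_singleton]; tauto
        have := card_le_card hsub
        omega
      by_cases hx : ({x, d} : Finset (Fin 5)) ∉ B₁ ∨ ({x, e} : Finset (Fin 5)) ∉ B₁
      · by_cases hy : ({y, d} : Finset (Fin 5)) ∉ B₁ ∨ ({y, e} : Finset (Fin 5)) ∉ B₁
        · exact ⟨x, y, hxy, hT x (by simp) hx, hT y (by simp) hy⟩
        · exact ⟨x, z, hxz, hT x (by simp) hx, hT z (by simp)
            (hone y z (by simp) (by simp) hyz hy)⟩
      · exact ⟨y, z, hyz, hT y (by simp) (hone x y (by simp) (by simp) hxy hx),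
          hT z (by simp) (hone x z (by simp) (by simp) hxz hx)⟩
    · refine ⟨d, e, hde, good _ e he ?_, good _ d hd ?_⟩
      · simp only [nxt, mem_filter, mem_univ, true_and, mem_singleton, exists_eq_left]
        exact ⟨hde, hdeB⟩
      · simp only [nxt, mem_filter, mem_univ, true_and, mem_singleton, exists_eq_left]
        exact ⟨hde.symm, by rwa [pair_comm]⟩
  · -- colours of degree at most one are good
    have good : ∀ a, dg B₁ a ≤ 1 → 4 ≤ (nxt B₂ (nxt B₁ {a})).card := by
      intro a ha
      have := card_nxt_single B₁ a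
      rcases nxt_three h₂ (R := nxt B₁ {a}) (by omega) with h | h
      · exact h
      · exact absurd h htri
    by_contra hcon
    have hle : ((univ : Finset (Fin 5)).filter (fun a => dg B₁ a ≤ 1)).card ≤ 1 := by
      rw [card_le_one]
      intro a ha b hb
      by_contra hab
      exact hcon ⟨a, b, hab, good a (mem_filter.1 ha).2, good b (mem_filter.1 hb).2⟩
    have hs := sum_dg h₁
    have h3 : 4 ≤ ((univ : Finset (Fin 5)).filter (fun a => ¬ dg B₁ a ≤ 1)).card := by
      have := card_filter_add_card_filter_not (s := (univ : Finset (Fin 5)))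
        (fun a => dg B₁ a ≤ 1)
      rw [card_fin] at this
      omega
    have h4 : 2 * 4 ≤ ∑ a, dg B₁ a := by
      calc 2 * 4 ≤ ∑ a ∈ (univ : Finset (Fin 5)).filter (fun a => ¬ dg B₁ a ≤ 1), 2 := by
            rw [sum_const, smul_eq_mul]; omega
        _ ≤ ∑ a ∈ (univ : Finset (Fin 5)).filter (fun a => ¬ dg B₁ a ≤ 1), dg B₁ a := by
            apply sum_le_sum
            intro a ha
            have := (mem_filter.1 ha).2
            omega
        _ ≤ ∑ a, dg B₁ a := sum_le_sum_of_subset (filter_subset _ _)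
    omega

/-- the colours of the edge `i` which can be reached from the colour `a` of the edge `0` -/
def rch (Bad : ℕ → Finset (Finset (Fin 5))) (a : Fin 5) : ℕ → Finset (Fin 5)
  | 0 => {a}
  | i + 1 => nxt (Bad i) (rch Bad a i)

theorem rch_walk (Bad : ℕ → Finset (Finset (Fin 5))) (a : Fin 5) (i : ℕ) :
    ∀ y ∈ rch Bad a i, ∃ e : ℕ → Fin 5, e 0 = a ∧ e i = y ∧
      ∀ j < i, e j ≠ e (j + 1) ∧ ({e j, e (j + 1)} : Finset (Fin 5)) ∉ Bad j := by
  induction i with
  | zero =>
    intro y hy
    simp only [rch, mem_singleton] at hy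
    exact ⟨fun _ => a, rfl, hy.symm, fun j hj => absurd hj (Nat.not_lt_zero j)⟩
  | succ i ih =>
    intro y hy
    simp only [rch, nxt, mem_filter, mem_univ, true_and] at hy
    obtain ⟨x, hx, hxy, hb⟩ := hy
    obtain ⟨e, he0, hei, he⟩ := ih x hx
    refine ⟨fun j => if j = i + 1 then y else e j, by simp [he0], by simp, ?_⟩
    intro j hj
    rcases Nat.lt_succ_iff_lt_or_eq.1 hj with h | h
    · have h1 : j ≠ i + 1 := by omega
      have h2 : j + 1 ≠ i + 1 := by omega
      simp only [h1, h2, if_false]
      exact he j h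
    · subst h
      have h1 : j ≠ j + 1 := by omega
      simp only [h1, if_false, if_true, hei]
      exact ⟨hxy, hb⟩

/-- **Cell lemma.** -/
theorem cell (m : ℕ) (hm : 3 ≤ m) (Bad : ℕ → Finset (Finset (Fin 5)))
    (hB : ∀ i, (Bad i).card ≤ 3) :
    ∃ e : ℕ → Fin 5, (∀ i, e (i + m) = e i) ∧
      ∀ i < m, e i ≠ e (i + 1) ∧ ({e i, e (i + 1)} : Finset (Fin 5)) ∉ Bad i := by
  obtain ⟨a, b, hab, ha, hb⟩ := two_starts (hB 0) (hB 1)
  have hbig : ∀ a, 4 ≤ (nxt (Bad 1) (nxt (Bad 0) {a})).card → ∀ i, 4 ≤ (rch Bad a (i + 2)).card := by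
    intro a ha i
    induction i with
    | zero => exact ha
    | succ i ih => exact nxt_four (hB _) ih
  obtain ⟨k, rfl⟩ := Nat.exists_eq_add_of_le hm
  have hex : ∃ a, a ∈ rch Bad a (3 + k) := by
    by_contra hno
    push_neg at hno
    have h1 := hno a
    have h2 := hno b
    have e1 : 3 + k = (k + 2) + 1 := by omega
    rw [e1] at h1 h2
    exact not_both (hB _) (hbig a ha k) (hbig b hb k) hab h1 h2
  obtain ⟨a, ha⟩ := hex
  obtain ⟨e, he0, hem, he⟩ := rch_walk Bad a (3 + k) a ha
  refine ⟨fun i => e (i % (3 + k)), fun i => by simp, ?_⟩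
  intro i hi
  have h1 : i % (3 + k) = i := Nat.mod_eq_of_lt hi
  simp only [h1]
  rcases Nat.lt_or_ge (i + 1) (3 + k) with h | h
  · rw [Nat.mod_eq_of_lt h]
    exact he i hi
  · have h2 : i + 1 = 3 + k := by omega
    rw [h2, Nat.mod_self, he0]
    have := he i hi
    rw [h2, hem] at this
    exact this

end Pool.Agent.Lib.H84E
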