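import Mathlib
import Pool.Agent.Lib.H84E.Base
import Pool.Agent.Lib.H84E.T1
import Pool.Agent.Lib.H84E.T2
import Pool.Agent.Lib.H84E.S
import Pool.Agent.Lib.H84E.M1

/-!
# H84E, module M2: one round
-/

set_option autoImplicit false

namespace Pool.Agent.Lib.H84E

variable {Γ : Type*} [Group Γ] {X : Type*} [MulAction Γ X]

/-- the processed vertices of the line of `x` -/
def lR (t : Γ) (col : X → ℕ) (n : ℕ) (x : X) : ℤ → Prop := fun i => col (t ^ i • x) < n

/-- the pair of the colours of the `s`-edges -/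
def pr (s : Γ) (e : X → Fin 5) (x : X) : Finset (Fin 5) := {e (s⁻¹ • x), e x}

/-- the pairs of the line of `x` -/
def lP (s t : Γ) (e : X → Fin 5) (x : X) : ℤ → Finset (Fin 5) := fun i => pr s e (t ^ i • x)

/-- the colours of the `t`-edges of the line of `x` -/
def lc (t : Γ) (c : X → Fin 5) (x : X) : ℤ → Fin 5 := fun i => c (t ^ i • x)

/-- the invariant after the rounds `0, ..., n - 1` -/
structure Inv (s t : Γ) (col : X → ℕ) (n : ℕ) (e c : X → Fin 5) : Prop where
  ne : ∀ x, col x < n → e (s⁻¹ • x) ≠ e x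
  loc : ∀ x, Loc (lR t col n x) (lP s t e x) (lc t c x) 0

theorem m2_Inv_zero (s t : Γ) (col : X → ℕ) (e c : X → Fin 5) : Inv s t col 0 e c := by
  refine ⟨fun x h => absurd h (Nat.not_lt_zero _), fun x => ?_⟩
  constructor <;> simp [lR]

theorem m2_loc_all {s t : Γ} {col : X → ℕ} {n : ℕ} {e c : X → Fin 5} (h : Inv s t col n e c)
    (x : X) (k : ℤ) : Loc (lR t col n x) (lP s t e x) (lc t c x) k := by
  have h1 := h.loc (t ^ k • x)
  have h2 : Loc (lR t col n (t ^ k • x)) (lP s t e (t ^ k • x)) (lc t c (t ^ k • x)) (k + -k) := by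
    rw [add_neg_cancel]; exact h1
  have h3 := m1_Loc_shift h2
  have e0 : ∀ i : ℤ, t ^ (i + -k) • t ^ k • x = t ^ i • x := by
    intro i
    rw [smul_smul, ← zpow_add]
    congr 2
    ring
  refine m1_Loc_congr ?_ ?_ ?_ h3
  · intro i _ _
    simp only [lR, e0]
  · intro i _ _
    simp only [lP, e0]
  · intro i _ _
    simp only [lc, e0]

theorem m2_card {s t : Γ} {col : X → ℕ} {n : ℕ} {e c : X → Fin 5} (h : Inv s t col n e c)
    (x : X) (i : ℤ) (hi : lR t col n x i) : (lP s t e x i).card = 2 :=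
  Finset.card_pair (h.ne _ hi)

/-- the view of `x` -/
def view (s t : Γ) (col : X → ℕ) (n : ℕ) (e c : X → Fin 5) (x : X) :
    Fin 15 → (Prop × Fin 5 × Fin 5 × Fin 5) := fun j =>
  (col (t ^ ((j : ℤ) - 7) • x) < n, e (s⁻¹ • t ^ ((j : ℤ) - 7) • x),
    e (t ^ ((j : ℤ) - 7) • x), c (t ^ ((j : ℤ) - 7) • x))

theorem m2_view_meas [MeasurableSpace X] (hm : ∀ γ : Γ, Measurable (fun x : X => γ • x))
    (s t : Γ) {col : X → ℕ} (hcol : Measurable col) (n : ℕ) {e c : X → Fin 5}
    (he : Measurable e) (hc : Measurable c) : Measurable (view s t col n e c) := by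
  refine measurable_pi_lambda _ fun j => ?_
  refine Measurable.prodMk ?_ (Measurable.prodMk ?_ (Measurable.prodMk ?_ ?_))
  · refine measurable_to_prop ?_
    have : (fun x : X => col (t ^ ((j : ℤ) - 7) • x) < n) ⁻¹' {True} =
        {x | col (t ^ ((j : ℤ) - 7) • x) < n} := by
      ext x; simp
    rw [this]
    exact measurableSet_lt (hcol.comp (hm _)) measurable_const
  · exact he.comp ((hm s⁻¹).comp (hm (t ^ ((j : ℤ) - 7))))
  · exact he.comp (hm _)
  · exact hc.comp (hm _)

/-- equal views: the lines agree on the positions `-7, ..., 7` -/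
theorem m2_view_eq {s t : Γ} {col : X → ℕ} {n : ℕ} {e c : X → Fin 5} {x x' : X}
    (h : view s t col n e c x = view s t col n e c x') (i : ℤ) (h1 : -7 ≤ i) (h2 : i ≤ 7) :
    (lR t col n x i ↔ lR t col n x' i) ∧ lP s t e x i = lP s t e x' i ∧
      lc t c x i = lc t c x' i := by
  have h3 := congrFun h ⟨(i + 7).toNat, by omega⟩
  have h4 : (((⟨(i + 7).toNat, by omega⟩ : Fin 15) : ℕ) : ℤ) - 7 = i := by
    simp only
    omega
  simp only [view, h4, Prod.mk.injEq, eq_iff_iff] at h3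
  obtain ⟨g1, g2, g3, g4⟩ := h3
  refine ⟨g1, ?_, g4⟩
  simp only [lP, pr, g2, g3]

theorem m2_Move_view {s t : Γ} {col : X → ℕ} {n : ℕ} {e c : X → Fin 5} {x x' : X}
    {Q : Finset (Fin 5)} {a b : Fin 5}
    (h : view s t col n e c x = view s t col n e c x')
    (hM : Move (lR t col n x) (lP s t e x) (lc t c x) Q a b) :
    Move (lR t col n x') (lP s t e x') (lc t c x') Q a b :=
  m1_Move_congr (fun i h1 h2 => (m2_view_eq h i h1 h2).1)
    (fun i h1 h2 => (m2_view_eq h i h1 h2).2.1) (fun i h1 h2 => (m2_view_eq h i h1 h2).2.2) hM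

end Pool.Agent.Lib.H84E
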