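import Mathlib
import Pool.Agent.Lib.H84E.M2

/-!
# H84E, module M3: one round, construction
-/

set_option autoImplicit false

namespace Pool.Agent.Lib.H84E

variable {Γ : Type*} [Group Γ] {X : Type*} [MulAction Γ X]

/-- the refused pairs as a function of the view -/
theorem m3_bad {s t : Γ} {col : X → ℕ} {n : ℕ} {e c : X → Fin 5} (h : Inv s t col n e c) :
    ∃ B : (Fin 15 → (Prop × Fin 5 × Fin 5 × Fin 5)) → Finset (Finset (Fin 5)),
      (∀ v, (B v).card ≤ 3) ∧ ∀ x, col x = n → ∀ Q : Finset (Fin 5), Q.card = 2 →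
        Q ∉ B (view s t col n e c x) →
        ∃ a b, Move (lR t col n x) (lP s t e x) (lc t c x) Q a b := by
  classical
  obtain ⟨g, hg⟩ := m1_choose (view s t col n e c) (fun x => col x = n)
    (fun x (B : Finset (Finset (Fin 5))) => B.card ≤ 3 ∧ ∀ Q : Finset (Fin 5), Q.card = 2 →
      Q ∉ B → ∃ a b, Move (lR t col n x) (lP s t e x) (lc t c x) Q a b)
    (by
      rintro x x' B - - hv ⟨h1, h2⟩
      refine ⟨h1, fun Q hQ hQn => ?_⟩
      obtain ⟨a, b, hM⟩ := h2 Q hQ hQn
      exact ⟨a, b, m2_Move_view hv hM⟩)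
    (by
      intro x hx
      refine line_step (m2_loc_all h x) (m2_card h x) ?_
      simp only [lR, zpow_zero, one_smul]
      omega)
  refine ⟨fun v => if (g v).card ≤ 3 then g v else ∅, fun v => ?_, fun x hx Q hQ hQn => ?_⟩
  · show (if (g v).card ≤ 3 then g v else ∅).card ≤ 3
    split_ifs with h'
    · exact h'
    · simp
  · have := hg x hx
    simp only [this.1, if_true] at hQn
    exact this.2 Q hQ hQn

/-- the colours of the `t`-edges as a function of the view and the pair -/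
theorem m3_ab {s t : Γ} {col : X → ℕ} {n : ℕ} {e c : X → Fin 5}
    {B : (Fin 15 → (Prop × Fin 5 × Fin 5 × Fin 5)) → Finset (Finset (Fin 5))}
    (hB : ∀ x, col x = n → ∀ Q : Finset (Fin 5), Q.card = 2 → Q ∉ B (view s t col n e c x) →
        ∃ a b, Move (lR t col n x) (lP s t e x) (lc t c x) Q a b) :
    ∃ A : (Fin 15 → (Prop × Fin 5 × Fin 5 × Fin 5)) × Finset (Fin 5) → Fin 5 × Fin 5,
      ∀ x, col x = n → ∀ Q : Finset (Fin 5), Q.card = 2 → Q ∉ B (view s t col n e c x) →
        Move (lR t col n x) (lP s t e x) (lc t c x) Q (A (view s t col n e c x, Q)).1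
          (A (view s t col n e c x, Q)).2 := by
  classical
  obtain ⟨g, hg⟩ := m1_choose (X := X × Finset (Fin 5))
    (fun q : X × Finset (Fin 5) => (view s t col n e c q.1, q.2))
    (fun q => col q.1 = n ∧ q.2.card = 2 ∧ q.2 ∉ B (view s t col n e c q.1))
    (fun q (ab : Fin 5 × Fin 5) =>
      Move (lR t col n q.1) (lP s t e q.1) (lc t c q.1) q.2 ab.1 ab.2)
    (by
      rintro ⟨x, Q⟩ ⟨x', Q'⟩ ⟨a, b⟩ - - hv hM
      simp only [Prod.mk.injEq] at hv hM ⊢
      obtain ⟨hv, rfl⟩ := hv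
      exact m2_Move_view hv hM)
    (by
      rintro ⟨x, Q⟩ ⟨h1, h2, h3⟩
      obtain ⟨a, b, hM⟩ := hB x h1 Q h2 h3
      exact ⟨(a, b), hM⟩)
  exact ⟨g, fun x hx Q hQ hQn => hg (x, Q) ⟨hx, hQ, hQn⟩⟩

/-- the colouring of the `s`-cycles of the round -/
theorem m3_cells [MeasurableSpace X] (hm : ∀ γ : Γ, Measurable (fun x : X => γ • x))
    {s : Γ} {m : ℕ} (hm3 : 3 ≤ m) (hs : s ^ m = 1) {idx : X → ℕ} (hidx : Measurable idx)
    (hlt : ∀ x, idx x < m) (hsucc : ∀ x, idx (s • x) = (idx x + 1) % m)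
    {V : Type*} [Finite V] [MeasurableSpace V] [MeasurableSingletonClass V]
    {vw : X → V} (hvw : Measurable vw) {B : V → Finset (Finset (Fin 5))}
    (hB : ∀ v, (B v).card ≤ 3) :
    ∃ e : X → Fin 5, Measurable e ∧ ∀ x, e (s⁻¹ • x) ≠ e x ∧ pr s e x ∉ B (vw x) := by
  classical
  -- the choice for the base points
  obtain ⟨g, hg⟩ := m1_choose (β := ℕ → Fin 5) (fun y : X => (fun j : Fin m => vw (s ^ (j : ℕ) • y)))
    (fun _ => True)
    (fun y ec => (∀ i, ec (i + m) = ec i) ∧
      ∀ i < m, ec i ≠ ec (i + 1) ∧ ({ec i, ec (i + 1)} : Finset (Fin 5)) ∉ B (vw (s ^ (i + 1) • y)))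
    (by
      rintro y y' ec - - hv ⟨h1, h2⟩
      refine ⟨h1, fun i hi => ⟨(h2 i hi).1, ?_⟩⟩
      have h3 := congrFun hv ⟨(i + 1) % m, Nat.mod_lt _ (by omega)⟩
      simp only at h3
      have h4 : ∀ z : X, s ^ ((i + 1) % m) • z = s ^ (i + 1) • z := by
        intro z
        congr 1
        conv_rhs => rw [← Nat.div_add_mod (i + 1) m, pow_add, pow_mul, hs, one_pow, one_mul]
      rw [h4, h4] at h3
      rw [← h3]
      exact (h2 i hi).2)
    (by
      intro y _
      exact cell m hm3 (fun i => B (vw (s ^ (i + 1) • y))) (fun i => hB _))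
  set G : ℕ × X → Fin 5 := fun q =>
    g (fun j : Fin m => vw (s ^ (j : ℕ) • s⁻¹ ^ q.1 • q.2)) q.1 with hG
  have hGm : Measurable G := by
    refine measurable_from_prod_countable_right fun k => ?_
    have h1 : Measurable (fun y : X => (fun j : Fin m => vw (s ^ (j : ℕ) • s⁻¹ ^ k • y))) :=
      measurable_pi_lambda _ fun j => hvw.comp ((hm _).comp (hm _))
    have h2 : Measurable (fun v : Fin m → V => g v k) := Measurable.of_discrete
    exact h2.comp h1
  refine ⟨fun x => G (idx x, x), hGm.comp (hidx.prodMk measurable_id), fun x => ?_⟩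
  -- the base point
  have hidxpow : ∀ (k : ℕ) (y : X), idx (s ^ k • y) = (idx y + k) % m := by
    intro k
    induction k with
    | zero => intro y; simp [Nat.mod_eq_of_lt (hlt y)]
    | succ k ih =>
      intro y
      rw [pow_succ', ← smul_smul, hsucc, ih, Nat.mod_add_mod, add_assoc]
  set b : X := s⁻¹ ^ idx x • x with hb
  have hxb : x = s ^ idx x • b := by
    rw [hb, smul_smul, inv_pow, mul_inv_cancel, one_smul]
  have hb0 : idx b = 0 := by
    have h1 := hidxpow (idx x) b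
    rw [← hxb] at h1
    have h2 := hlt b
    have h3 := hlt x
    rcases Nat.lt_or_ge (idx b + idx x) m with h | h
    · rw [Nat.mod_eq_of_lt h] at h1
      omega
    · rw [Nat.mod_eq_sub_mod h, Nat.mod_eq_of_lt (by omega)] at h1
      omega
  obtain ⟨hper, hedge⟩ := hg b trivial
  have hGx : G (idx x, x) = g (fun j : Fin m => vw (s ^ (j : ℕ) • b)) (idx x) := rfl
  -- the other edge
  obtain ⟨k, hk, e1, e2, e3⟩ : ∃ k < m, G (idx (s⁻¹ • x), s⁻¹ • x) =
      g (fun j : Fin m => vw (s ^ (j : ℕ) • b)) k ∧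
      G (idx x, x) = g (fun j : Fin m => vw (s ^ (j : ℕ) • b)) (k + 1) ∧
      x = s ^ (k + 1) • b := by
    rcases Nat.eq_zero_or_pos (idx x) with h0 | hpos
    · have hxb' : x = b := by rw [hb, h0, pow_zero, one_smul]
      refine ⟨m - 1, by omega, ?_, ?_, ?_⟩
      · have e4 : s⁻¹ • x = s ^ (m - 1) • b := by
          rw [← hxb']
          have : s⁻¹ = s ^ (m - 1) := by
            rw [inv_eq_iff_mul_eq_one, ← pow_succ', Nat.sub_add_cancel (by omega), hs]
          rw [this]
        have e5 : idx (s⁻¹ • x) = m - 1 := by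
          rw [e4, hidxpow, hb0, zero_add, Nat.mod_eq_of_lt (by omega)]
        have e6 : s⁻¹ ^ (m - 1) • s⁻¹ • x = b := by
          rw [smul_smul, ← pow_succ, Nat.sub_add_cancel (by omega), inv_pow, hs, inv_one,
            one_smul, hxb']
        rw [hG]
        simp only [e5, e6]
      · rw [hGx, h0, Nat.sub_add_cancel (by omega), ← hper 0, zero_add]
      · rw [Nat.sub_add_cancel (by omega), hs, one_smul, hxb']
    · obtain ⟨k, hk⟩ : ∃ k, idx x = k + 1 := ⟨idx x - 1, by omega⟩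
      have hkm : k + 1 < m := by rw [← hk]; exact hlt x
      refine ⟨k, by omega, ?_, ?_, ?_⟩
      · have e4 : s⁻¹ • x = s ^ k • b := by
          conv_lhs => rw [hxb, hk, pow_succ', ← smul_smul, inv_smul_smul]
        have e5 : idx (s⁻¹ • x) = k := by
          rw [e4, hidxpow, hb0, zero_add, Nat.mod_eq_of_lt (by omega)]
        have e6 : s⁻¹ ^ k • s⁻¹ • x = b := by
          rw [smul_smul, ← pow_succ, hb, hk]
        rw [hG]
        simp only [e5, e6]
      · rw [hGx, hk]
      · rw [← hk]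
        exact hxb
  have h2 := hedge k hk
  refine ⟨?_, ?_⟩
  · show G (idx (s⁻¹ • x), s⁻¹ • x) ≠ G (idx x, x)
    rw [e1, e2]
    exact h2.1
  · show ({G (idx (s⁻¹ • x), s⁻¹ • x), G (idx x, x)} : Finset (Fin 5)) ∉ B (vw x)
    rw [e1, e2]
    rw [← e3] at h2
    exact h2.2

end Pool.Agent.Lib.H84E
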