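import Mathlib
import Pool.Agent.Lib.H84E.M3

/-!
# H84E, module M4: one round
-/

set_option autoImplicit false

namespace Pool.Agent.Lib.H84E

variable {Γ : Type*} [Group Γ] {X : Type*} [MulAction Γ X]

/-- one round -/
theorem m4_round [MeasurableSpace X] (hm : ∀ γ : Γ, Measurable (fun x : X => γ • x))
    {s t : Γ} {m : ℕ} (hm3 : 3 ≤ m) (hs : s ^ m = 1) {col idx : X → ℕ} (hcol : Measurable col)
    (hidx : Measurable idx) (hcs : ∀ x, col (s • x) = col x)
    (hct : ∀ j : ℤ, j ≠ 0 → |j| < 7 → ∀ x, col (t ^ j • x) ≠ col x)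
    (hlt : ∀ x, idx x < m) (hsucc : ∀ x, idx (s • x) = (idx x + 1) % m)
    {n : ℕ} {e c : X → Fin 5} (he : Measurable e) (hc : Measurable c) (h : Inv s t col n e c) :
    ∃ e' c' : X → Fin 5, Measurable e' ∧ Measurable c' ∧ Inv s t col (n + 1) e' c' ∧
      (∀ x, col x ≠ n → e' x = e x) ∧
      (∀ x, col x ≠ n → col (t • x) ≠ n → c' x = c x) := by
  classical
  obtain ⟨B, hB3, hB⟩ := m3_bad h
  obtain ⟨A, hA⟩ := m3_ab hB
  have hview := m2_view_meas hm s t hcol n he hc
  obtain ⟨ec, hec, hec2⟩ := m3_cells hm hm3 hs hidx hlt hsucc hview hB3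
  have hcsi : ∀ x, col (s⁻¹ • x) = col x := by
    intro x
    have := hcs (s⁻¹ • x)
    rw [smul_inv_smul] at this
    exact this.symm
  have hCn : MeasurableSet {x : X | col x = n} := hcol (measurableSet_singleton n)
  have hCt : MeasurableSet {x : X | col (t • x) = n} := (hcol.comp (hm t)) (measurableSet_singleton n)
  set e' : X → Fin 5 := fun x => if col x = n then ec x else e x with he'
  set w : X → Fin 5 × Fin 5 := fun x => A (view s t col n e c x, pr s e' x) with hw
  set c' : X → Fin 5 := fun x => if col x = n then (w x).2 else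
    if col (t • x) = n then (w (t • x)).1 else c x with hc'
  have he'm : Measurable e' := Measurable.ite hCn hec he
  have hwm : Measurable w := by
    have h1 : Measurable (fun x : X => (view s t col n e c x, e' (s⁻¹ • x), e' x)) :=
      hview.prodMk ((he'm.comp (hm _)).prodMk he'm)
    have h2 : Measurable (fun q : (Fin 15 → (Prop × Fin 5 × Fin 5 × Fin 5)) × Fin 5 × Fin 5 =>
        A (q.1, {q.2.1, q.2.2})) := Measurable.of_discrete
    exact h2.comp h1
  have hc'm : Measurable c' :=
    Measurable.ite hCn (measurable_snd.comp hwm)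
      (Measurable.ite hCt (measurable_fst.comp (hwm.comp (hm t))) hc)
  -- values
  have e'n : ∀ x, col x = n → e' x = ec x := fun x hx => if_pos hx
  have e'o : ∀ x, col x ≠ n → e' x = e x := fun x hx => if_neg hx
  have pr'n : ∀ x, col x = n → pr s e' x = pr s ec x := by
    intro x hx
    simp only [pr]
    rw [e'n x hx, e'n (s⁻¹ • x) (by rw [hcsi]; exact hx)]
  have pr'o : ∀ x, col x ≠ n → pr s e' x = pr s e x := by
    intro x hx
    simp only [pr]
    rw [e'o x hx, e'o (s⁻¹ • x) (by rw [hcsi]; exact hx)]
  have c'o : ∀ x, col x ≠ n → col (t • x) ≠ n → c' x = c x := by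
    intro x h1 h2
    simp only [hc', if_neg h1, if_neg h2]
  have hmove : ∀ x, col x = n → Move (lR t col n x) (lP s t e x) (lc t c x) (pr s e' x)
      (w x).1 (w x).2 := by
    intro x hx
    apply hA x hx
    · rw [pr'n x hx]
      exact Finset.card_pair (hec2 x).1
    · rw [pr'n x hx]
      exact (hec2 x).2
  -- the rules near a new vertex
  have hnear : ∀ y, col y = n → ∀ k : ℤ, -6 ≤ k → k ≤ 0 →
      Loc (lR t col (n + 1) y) (lP s t e' y) (lc t c' y) k := by
    intro y hy k hk1 hk2
    have h0 : ¬ lR t col n y 0 := by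
      simp only [lR, zpow_zero, one_smul]
      omega
    have h1 := move_loc (fun k _ _ => m2_loc_all h y k) h0 (hmove y hy) k hk1 hk2
    have hne : ∀ i : ℤ, i ≠ 0 → -7 < i → i < 7 → col (t ^ i • y) ≠ n := by
      intro i hi h1 h2
      rw [← hy]
      exact hct i hi (abs_lt.2 ⟨h1, h2⟩) y
    refine m1_Loc_congr ?_ ?_ ?_ h1
    · intro i h1 h2
      simp only [newR, lR]
      by_cases hi : i = 0
      · subst hi
        simp only [or_true, zpow_zero, one_smul, true_iff]
        omega
      · have := hne i hi (by omega) (by omega)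
        simp only [hi, or_false]
        omega
    · intro i h1 h2
      simp only [newP, lP]
      by_cases hi : i = 0
      · subst hi
        simp only [if_true, zpow_zero, one_smul]
      · simp only [hi, if_false]
        rw [pr'o _ (hne i hi (by omega) (by omega))]
    · intro i h1 h2
      simp only [newc, lc]
      by_cases hi : i = 0
      · subst hi
        simp only [if_true, zpow_zero, one_smul, hc', hy]
        norm_num
      · by_cases hi1 : i = -1
        · subst hi1
          have h3 : col (t ^ (-1 : ℤ) • y) ≠ n := hne _ (by norm_num) (by norm_num) (by norm_num)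
          have h4 : t • t ^ (-1 : ℤ) • y = y := by
            rw [zpow_neg_one, smul_inv_smul]
          simp only [if_true, hc', h3, if_false, h4, hy]
        · simp only [hi, hi1, if_false]
          rw [c'o _ (hne i hi (by omega) (by omega))]
          rw [smul_smul, ← zpow_one_add]
          exact hne _ (by omega) (by omega) (by omega)
  refine ⟨e', c', he'm, hc'm, ⟨?_, ?_⟩, e'o, c'o⟩
  · intro x hx
    by_cases hxn : col x = n
    · rw [e'n x hxn, e'n (s⁻¹ • x) (by rw [hcsi]; exact hxn)]
      exact (hec2 x).1
    · rw [e'o x hxn, e'o (s⁻¹ • x) (by rw [hcsi]; exact hxn)]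
      exact h.ne x (by omega)
  · intro x
    by_cases hj : ∃ j : ℤ, 0 ≤ j ∧ j ≤ 6 ∧ col (t ^ j • x) = n
    · obtain ⟨j, hj0, hj6, hjn⟩ := hj
      have h1 := hnear (t ^ j • x) hjn (-j) (by omega) (by omega)
      have h2 : Loc (lR t col (n + 1) (t ^ j • x)) (lP s t e' (t ^ j • x))
          (lc t c' (t ^ j • x)) (0 + -j) := by
        rw [zero_add]; exact h1
      have h3 := m1_Loc_shift h2
      have e0 : ∀ i : ℤ, t ^ (i + -j) • t ^ j • x = t ^ i • x := by
        intro i
        rw [smul_smul, ← zpow_add]
        congr 2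
        ring
      refine m1_Loc_congr ?_ ?_ ?_ h3
      · intro i _ _
        simp only [lR, e0]
      · intro i _ _
        simp only [lP, e0]
      · intro i _ _
        simp only [lc, e0]
    · push_neg at hj
      refine m1_Loc_congr ?_ ?_ ?_ (h.loc x)
      · intro i h1 h2
        have := hj i h1 (by omega)
        simp only [lR]
        omega
      · intro i h1 h2
        simp only [lP]
        rw [pr'o _ (hj i h1 (by omega))]
      · intro i h1 h2
        simp only [lc]
        rw [c'o _ (hj i h1 (by omega))]
        rw [smul_smul, ← zpow_one_add]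
        exact hj _ (by omega) (by omega)

end Pool.Agent.Lib.H84E
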