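import Mathlib
import Pool.Agent.Lib.H84E.M4
import Pool.Agent.Lib.H84E.B

/-!
# H84E, module M5: all rounds; one generator of finite order, one of large relative order
-/

set_option autoImplicit false

namespace Pool.Agent.Lib.H84E

variable {Γ : Type*} [Group Γ] {X : Type*} [MulAction Γ X]

/-- the states after `n` rounds -/
def StM [MeasurableSpace X] (s t : Γ) (col : X → ℕ) (n : ℕ) : Type _ :=
  {q : (X → Fin 5) × (X → Fin 5) // Measurable q.1 ∧ Measurable q.2 ∧ Inv s t col n q.1 q.2}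

theorem m5_seq [MeasurableSpace X] (hm : ∀ γ : Γ, Measurable (fun x : X => γ • x))
    {s t : Γ} {m : ℕ} (hm3 : 3 ≤ m) (hs : s ^ m = 1) {col idx : X → ℕ} (hcol : Measurable col)
    (hidx : Measurable idx) (hcs : ∀ x, col (s • x) = col x)
    (hct : ∀ j : ℤ, j ≠ 0 → |j| < 7 → ∀ x, col (t ^ j • x) ≠ col x)
    (hlt : ∀ x, idx x < m) (hsucc : ∀ x, idx (s • x) = (idx x + 1) % m) :
    ∃ e c : ℕ → X → Fin 5, (∀ n, Measurable (e n)) ∧ (∀ n, Measurable (c n)) ∧
      (∀ n, Inv s t col n (e n) (c n)) ∧ (∀ n x, col x ≠ n → e (n + 1) x = e n x) ∧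
      (∀ n x, col x ≠ n → col (t • x) ≠ n → c (n + 1) x = c n x) := by
  classical
  have hstep : ∀ n (q : StM (X := X) s t col n), ∃ q' : StM (X := X) s t col (n + 1),
      (∀ x, col x ≠ n → q'.1.1 x = q.1.1 x) ∧
      (∀ x, col x ≠ n → col (t • x) ≠ n → q'.1.2 x = q.1.2 x) := by
    rintro n ⟨⟨e, c⟩, he, hc, h⟩
    obtain ⟨e', c', he', hc', h', h1, h2⟩ :=
      m4_round hm hm3 hs hcol hidx hcs hct hlt hsucc he hc h
    exact ⟨⟨(e', c'), he', hc', h'⟩, h1, h2⟩
  choose stp hstp1 hstp2 using hstep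
  set F : ∀ n, StM (X := X) s t col n := fun n => Nat.rec
    (⟨(fun _ => 0, fun _ => 0), measurable_const, measurable_const, m2_Inv_zero s t col _ _⟩ :
      StM (X := X) s t col 0) (fun n q => stp n q) n with hF
  have hFs : ∀ n, F (n + 1) = stp n (F n) := fun n => rfl
  refine ⟨fun n => (F n).1.1, fun n => (F n).1.2, fun n => (F n).2.1, fun n => (F n).2.2.1,
    fun n => (F n).2.2.2, ?_, ?_⟩
  · intro n x hx
    show (F (n + 1)).1.1 x = (F n).1.1 x
    rw [hFs]
    exact hstp1 n (F n) x hx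
  · intro n x hx hx'
    show (F (n + 1)).1.2 x = (F n).1.2 x
    rw [hFs]
    exact hstp2 n (F n) x hx hx'

/-- **Five colours for a generator of finite order `m ≥ 3` and a generator of relative order
at least seven.** -/
theorem m5_main [MeasurableSpace X] [StandardBorelSpace X]
    (hm : ∀ γ : Γ, Measurable (fun x : X => γ • x))
    (hfree : ∀ (γ : Γ) (x : X), γ • x = x → γ = 1) (s t : Γ) (hs : 3 ≤ orderOf s)
    (ht : ∀ j : ℤ, j ≠ 0 → |j| < 7 → t ^ j ∉ Subgroup.zpowers s) :
    ∃ e c : X → Fin 5, Measurable e ∧ Measurable c ∧ (∀ x, e (s⁻¹ • x) ≠ e x) ∧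
      (∀ x, c x ≠ c (t • x)) ∧ (∀ x, c x ≠ e (s⁻¹ • x) ∧ c x ≠ e x) ∧
      (∀ x, c x ≠ e (s⁻¹ • t • x) ∧ c x ≠ e (t • x)) := by
  classical
  obtain ⟨col, idx, hcol, hidx, hcs, hct, hlt, hsucc⟩ :=
    b_rounds hm hfree s t (orderOf s) (by omega) rfl ht
  obtain ⟨e, c, he, hc, hinv, hse, hsc⟩ :=
    m5_seq hm hs (pow_orderOf_eq_one s) hcol hidx hcs hct hlt hsucc
  have hcsi : ∀ x, col (s⁻¹ • x) = col x := by
    intro x
    have := hcs (s⁻¹ • x)
    rw [smul_inv_smul] at this
    exact this.symm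
  -- stability
  have he_st : ∀ x N, col x < N → e N x = e (col x + 1) x := by
    intro x N hN
    obtain ⟨k, rfl⟩ := Nat.exists_eq_add_of_lt hN
    induction k with
    | zero => rfl
    | succ k ih =>
      rw [show col x + (k + 1) + 1 = (col x + k + 1) + 1 by omega, hse _ _ (by omega)]
      exact ih (by omega)
  have hc_st : ∀ x N, col x < N → col (t • x) < N →
      c N x = c (max (col x) (col (t • x)) + 1) x := by
    intro x N hN hN'
    have hN2 : max (col x) (col (t • x)) < N := max_lt hN hN'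
    obtain ⟨k, rfl⟩ := Nat.exists_eq_add_of_lt hN2
    clear hN hN' hN2
    induction k with
    | zero => rfl
    | succ k ih =>
      rw [show max (col x) (col (t • x)) + (k + 1) + 1 = (max (col x) (col (t • x)) + k + 1) + 1
        by omega, hsc _ _ (by omega) (by omega)]
      exact ih
  -- the rules for large `N`
  have hrules : ∀ x, ∃ N, col x < N ∧ col (t • x) < N ∧ col (t • t • x) < N := by
    intro x
    refine ⟨col x + col (t • x) + col (t • t • x) + 1, by omega, by omega, by omega⟩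
  refine ⟨fun x => e (col x + 1) x, fun x => c (max (col x) (col (t • x)) + 1) x,
    ?_, ?_, ?_, ?_, ?_, ?_⟩
  · have h1 : Measurable (fun q : ℕ × X => e (q.1 + 1) q.2) :=
      measurable_from_prod_countable_right fun n => he (n + 1)
    exact h1.comp (hcol.prodMk measurable_id)
  · have h1 : Measurable (fun q : ℕ × X => c (q.1 + 1) q.2) :=
      measurable_from_prod_countable_right fun n => hc (n + 1)
    exact h1.comp ((hcol.max (hcol.comp (hm t))).prodMk measurable_id)
  · intro x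
    show e (col (s⁻¹ • x) + 1) (s⁻¹ • x) ≠ e (col x + 1) x
    rw [hcsi]
    exact (hinv (col x + 1)).ne x (by omega)
  · intro x
    obtain ⟨N, h0, h1, h2⟩ := hrules x
    have hl := ((hinv N).loc x).E2
    simp only [lR, lc] at hl
    norm_num at hl
    have t2 : (t ^ (2 : ℤ) : Γ) • x = t • t • x := by
      rw [smul_smul, zpow_ofNat, pow_two]
    have hl := hl h0 h1 (by first | (rw [← t2] at h2; simpa using h2) | simpa [smul_smul, pow_two] using h2)
    show c (max (col x) (col (t • x)) + 1) x ≠ c (max (col (t • x)) (col (t • t • x)) + 1) (t • x)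
    rw [← hc_st x N h0 h1, ← hc_st (t • x) N h1 h2]
    exact hl
  · intro x
    obtain ⟨N, h0, h1, h2⟩ := hrules x
    have hl := ((hinv N).loc x).E1
    simp only [lR, lc, lP, pr] at hl
    norm_num at hl
    have hl := (hl h0 h1).1
    show c (max (col x) (col (t • x)) + 1) x ≠ e (col (s⁻¹ • x) + 1) (s⁻¹ • x) ∧
      c (max (col x) (col (t • x)) + 1) x ≠ e (col x + 1) x
    rw [← hc_st x N h0 h1, ← he_st x N h0, ← he_st (s⁻¹ • x) N (by rw [hcsi]; exact h0)]
    simpa using hl
  · intro x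
    obtain ⟨N, h0, h1, h2⟩ := hrules x
    have hl := ((hinv N).loc x).E1
    simp only [lR, lc, lP, pr] at hl
    norm_num at hl
    have hl := (hl h0 h1).2
    show c (max (col x) (col (t • x)) + 1) x ≠ e (col (s⁻¹ • t • x) + 1) (s⁻¹ • t • x) ∧
      c (max (col x) (col (t • x)) + 1) x ≠ e (col (t • x) + 1) (t • x)
    rw [← hc_st x N h0 h1, ← he_st (t • x) N h1,
      ← he_st (s⁻¹ • t • x) N (by rw [hcsi]; exact h1)]
    simpa using hl

end Pool.Agent.Lib.H84E
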