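import Mathlib
import Pool.Agent.Lib.H84E.M5
import Pool.Agent.Lib.H84E.C

/-!
# H84E, module G: assembly
-/

set_option autoImplicit false

namespace Pool.Agent.Lib.H84E

variable {Γ : Type*} [Group Γ] {X : Type*} [MulAction Γ X]

/-- five colours for one generator of finite order at least three and one of infinite order -/
theorem g_pair [MeasurableSpace X] [StandardBorelSpace X] [DecidableEq Γ]
    (hm : ∀ γ : Γ, Measurable (fun x : X => γ • x))
    (hfree : ∀ (γ : Γ) (x : X), γ • x = x → γ = 1) {s t : Γ} (hs : 3 ≤ orderOf s)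
    (ht : orderOf t = 0) : DirCol X ({s, s⁻¹, t, t⁻¹} : Finset Γ) 5 := by
  have htf : ∀ j : ℤ, j ≠ 0 → |j| < 7 → t ^ j ∉ Subgroup.zpowers s := by
    intro j hj _ hmem
    obtain ⟨k, hk⟩ := Subgroup.mem_zpowers_iff.1 hmem
    have h1 : IsOfFinOrder (s ^ k) := by
      refine IsOfFinOrder.zpow ?_
      rw [← orderOf_pos_iff]
      omega
    rw [hk] at h1
    have h2 : ¬ IsOfFinOrder t := by rw [← orderOf_eq_zero_iff]; exact ht
    apply h2
    rw [isOfFinOrder_iff_pow_eq_one] at h1 ⊢
    obtain ⟨n, hn, h3⟩ := h1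
    refine ⟨j.natAbs * n, Nat.mul_pos (Int.natAbs_pos.2 hj) hn, ?_⟩
    rcases Int.natAbs_eq j with h | h
    · rw [h, zpow_natCast, ← pow_mul] at h3
      exact h3
    · rw [h, zpow_neg, zpow_natCast, inv_pow, ← pow_mul, inv_eq_one] at h3
      exact h3
  obtain ⟨e, c, he, hc, h1, h2, h3, h4⟩ := m5_main hm hfree s t hs htf
  have hss : s⁻¹ ≠ s := by
    intro h
    have h5 : s ^ 2 = 1 := by
      rw [pow_two]
      nth_rewrite 1 [← h]
      exact inv_mul_cancel s
    have := Nat.le_of_dvd (by norm_num) (orderOf_dvd_of_pow_eq_one h5)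
    omega
  have htt : t⁻¹ ≠ t := by
    intro h
    have h5 : t ^ 2 = 1 := by
      rw [pow_two]
      nth_rewrite 1 [← h]
      exact inv_mul_cancel t
    have := orderOf_dvd_of_pow_eq_one h5
    rw [ht] at this
    omega
  have hst : ∀ g : Γ, orderOf g = orderOf s → g ≠ t ∧ g ≠ t⁻¹ := by
    intro g hg
    constructor
    · rintro rfl
      omega
    · rintro rfl
      rw [orderOf_inv] at hg
      omega
  obtain ⟨s1, s2⟩ := hst s rfl
  obtain ⟨s3, s4⟩ := hst s⁻¹ (orderOf_inv s)
  have hv : Measurable (fun i : Fin 5 => (i : ℕ)) := Measurable.of_discrete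
  refine ⟨fun g x => if g = s then (e x : ℕ) else if g = s⁻¹ then (e (s⁻¹ • x) : ℕ) else
    if g = t then (c x : ℕ) else (c (t⁻¹ • x) : ℕ), ?_, ?_, ?_, ?_⟩
  · intro g _
    by_cases g1 : g = s
    · simp only [g1, if_true]
      exact hv.comp he
    · by_cases g2 : g = s⁻¹
      · simp only [g1, g2, hss, if_false, if_true]
        exact hv.comp (he.comp (hm _))
      · by_cases g3 : g = t
        · simp only [g3, s1.symm, s3.symm, if_false, if_true]
          exact hv.comp hc
        · simp only [g1, g2, g3, if_false]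
          exact hv.comp (hc.comp (hm _))
  · intro g _ x
    simp only
    split_ifs
    · exact (e x).2
    · exact (e _).2
    · exact (c _).2
    · exact (c _).2
  · intro g hg x
    simp only [Finset.mem_insert, Finset.mem_singleton] at hg
    rcases hg with rfl | rfl | rfl | rfl
    · simp only [hss, if_false, if_true, inv_smul_smul]
    · simp only [hss, inv_inv, if_false, if_true]
    · simp only [s1.symm, s3.symm, htt, if_false, if_true, inv_smul_smul,
        s2.symm, s4.symm]
    · simp only [s1.symm, s3.symm, htt, if_false, if_true, inv_inv,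
        s2.symm, s4.symm]
  · intro g hg g' hg' hgg x
    have k1 : (e x : ℕ) ≠ (e (s⁻¹ • x) : ℕ) := fun h => h1 x (Fin.ext h.symm)
    have k2 : (c x : ℕ) ≠ (e x : ℕ) := fun h => (h3 x).2 (Fin.ext h)
    have k3 : (c x : ℕ) ≠ (e (s⁻¹ • x) : ℕ) := fun h => (h3 x).1 (Fin.ext h)
    have k4 : (c (t⁻¹ • x) : ℕ) ≠ (e x : ℕ) := fun h => by
      have := (h4 (t⁻¹ • x)).2
      rw [smul_inv_smul] at this
      exact this (Fin.ext h)
    have k5 : (c (t⁻¹ • x) : ℕ) ≠ (e (s⁻¹ • x) : ℕ) := fun h => by
      have := (h4 (t⁻¹ • x)).1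
      rw [smul_inv_smul] at this
      exact this (Fin.ext h)
    have k6 : (c (t⁻¹ • x) : ℕ) ≠ (c x : ℕ) := fun h => by
      have := h2 (t⁻¹ • x)
      rw [smul_inv_smul] at this
      exact this (Fin.ext h)
    simp only [Finset.mem_insert, Finset.mem_singleton] at hg hg'
    rcases hg with rfl | rfl | rfl | rfl <;> rcases hg' with h | h | h | h <;>
      first
      | exact absurd h.symm hgg
      | (subst h
         simp only [s1.symm, s3.symm, htt, if_false, if_true, s2.symm, s4.symm, hss]
         omega)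

end Pool.Agent.Lib.H84E
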