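import Mathlib
import Pool.Agent.Lib.H84E.B

/-!
# H84E, module K: two generators in one cyclic group of odd order
-/

set_option autoImplicit false

namespace Pool.Agent.Lib.H84E

/-- a number is not its double in `ZMod m`, `m` odd -/
theorem k_two_mul {m : ℕ} (hm : Odd m) {r : ZMod m} (h : r + r = 0) : r = 0 := by
  have h2 : (2 : ZMod m) * r = 0 := by rw [two_mul]; exact h
  have hu : IsUnit (2 : ZMod m) := by
    have := (ZMod.isUnit_iff_coprime 2 m).2 (Nat.coprime_two_left.2 hm)
    exact_mod_cast this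
  exact (hu.mul_right_eq_zero).1 h2

/-- every coset of the multiples of `r` has an element `x` with `x` and `x + r` outside `{0, 1}` -/
theorem k_allowed {m : ℕ} (hm : Odd m) (hm1 : m ≠ 1) {r : ZMod m} (hr0 : r ≠ 0) (hr1 : r ≠ 1)
    (hr2 : r ≠ -1) (i : ZMod m) :
    ∃ x : ZMod m, i - x ∈ AddSubgroup.zmultiples r ∧ x ≠ 0 ∧ x ≠ 1 ∧ x + r ≠ 0 ∧ x + r ≠ 1 := by
  have h10 : (1 : ZMod m) ≠ 0 := by
    intro h
    have : ((1 : ℕ) : ZMod m) = 0 := by exact_mod_cast h
    rw [ZMod.natCast_eq_zero_iff] at this
    exact hm1 (Nat.dvd_one.1 this)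
  have hrr : r + r ≠ 0 := fun h => hr0 (k_two_mul hm h)
  have hmem : r ∈ AddSubgroup.zmultiples r := AddSubgroup.mem_zmultiples r
  by_cases h0 : i ∈ AddSubgroup.zmultiples r
  · -- the class of `0`
    by_cases h2 : r + r = 1
    · refine ⟨1 + r, ?_, ?_, ?_, ?_, ?_⟩
      · rw [← h2]
        exact AddSubgroup.sub_mem _ h0 (AddSubgroup.add_mem _ (AddSubgroup.add_mem _ hmem hmem) hmem)
      · intro h
        exact hr2 (eq_neg_of_add_eq_zero_right h)
      · intro h
        exact hr0 (by simpa using h)
      · rw [add_assoc, h2]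
        intro h
        exact h10 (k_two_mul hm h)
      · rw [add_assoc, h2]
        intro h
        exact h10 (by simpa using h)
    · refine ⟨r, AddSubgroup.sub_mem _ h0 hmem, hr0, hr1, hrr, h2⟩
  · by_cases h1 : i - 1 ∈ AddSubgroup.zmultiples r
    · refine ⟨1 + r, ?_, ?_, ?_, ?_, ?_⟩
      · have := AddSubgroup.sub_mem _ h1 hmem
        rwa [sub_sub] at this
      · intro h
        exact hr2 (eq_neg_of_add_eq_zero_right h)
      · intro h
        exact hr0 (by simpa using h)
      · intro h
        apply h0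
        have h3 : i = (i - 1) - (r + r) := by
          have : (1 : ZMod m) = -(r + r) := by
            rw [add_assoc] at h
            exact eq_neg_of_add_eq_zero_left h
          rw [this]
          ring
        rw [h3]
        exact AddSubgroup.sub_mem _ h1 (AddSubgroup.add_mem _ hmem hmem)
      · intro h
        rw [add_assoc] at h
        exact hrr (by simpa using h)
    · refine ⟨i, by simp, ?_, ?_, ?_, ?_⟩
      · rintro rfl
        exact h0 (AddSubgroup.zero_mem _)
      · rintro rfl
        exact h1 (by simp)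
      · intro h
        apply h0
        have : i = -r := eq_neg_of_add_eq_zero_left h
        rw [this]
        exact AddSubgroup.neg_mem _ hmem
      · intro h
        apply h1
        have : i - 1 = -r := by rw [← h]; ring
        rw [this]
        exact AddSubgroup.neg_mem _ hmem

/-- the colouring of the cycle edges -/
theorem k_E {m : ℕ} [NeZero m] (hm1 : m ≠ 1) :
    ∃ E : ZMod m → Fin 5, (∀ i, E i ≠ E (i + 1)) ∧ E 0 = 4 ∧
      ∀ i, i ≠ 0 → (E i = 0 ∨ E i = 1) := by
  refine ⟨fun i => if i = 0 then 4 else if i.val % 2 = 1 then 0 else 1, ?_, by simp, ?_⟩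
  · intro i
    by_cases h0 : i = 0
    · subst h0
      have h10 : (0 : ZMod m) + 1 ≠ 0 := by
        intro h
        have : ((1 : ℕ) : ZMod m) = 0 := by simpa using h
        rw [ZMod.natCast_eq_zero_iff] at this
        exact hm1 (Nat.dvd_one.1 this)
      simp only [if_true, h10, if_false]
      split_ifs <;> decide
    · by_cases h1 : i + 1 = 0
      · simp only [h0, h1, if_true, if_false]
        split_ifs <;> decide
      · have hlt := ZMod.val_lt i
        have hv : (i + 1).val = i.val + 1 := by
          have h2 : i.val + 1 < m := by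
            rcases Nat.lt_or_ge (i.val + 1) m with h | h
            · exact h
            · exfalso
              apply h1
              have h3 : i.val + 1 = m := by omega
              have h4 : ((i.val + 1 : ℕ) : ZMod m) = 0 := by rw [h3]; exact ZMod.natCast_self m
              rw [Nat.cast_add, ZMod.natCast_zmod_val, Nat.cast_one] at h4
              exact h4
          have h3 : i + 1 = ((i.val + 1 : ℕ) : ZMod m) := by
            rw [Nat.cast_add, ZMod.natCast_zmod_val, Nat.cast_one]
          rw [h3, ZMod.val_natCast, Nat.mod_eq_of_lt h2]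
        simp only [h0, h1, if_false, hv]
        rcases Nat.mod_two_eq_zero_or_one i.val with h | h
        · have h' : (i.val + 1) % 2 = 1 := by omega
          simp [h, h']
        · have h' : ¬ (i.val + 1) % 2 = 1 := by omega
          simp [h, h']
  · intro i hi
    simp only [hi, if_false]
    split_ifs
    · exact Or.inl rfl
    · exact Or.inr rfl

/-- the colouring of a circulant graph of odd order -/
theorem k_circ {m : ℕ} [NeZero m] (hm : Odd m) (hm1 : m ≠ 1) {r : ZMod m} (hr0 : r ≠ 0)
    (hr1 : r ≠ 1) (hr2 : r ≠ -1) :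
    ∃ E C : ZMod m → Fin 5, (∀ i, E i ≠ E (i + 1)) ∧ (∀ i, C i ≠ C (i + r)) ∧
      (∀ i, C i ≠ E i) ∧ (∀ i, C (i + 1) ≠ E i) ∧ (∀ i, C i ≠ E (i + r)) ∧
      (∀ i j, j + 1 = i + r → C i ≠ E j) := by
  classical
  obtain ⟨E, hE1, hE0, hE2⟩ := k_E hm1
  choose x hx1 hx2 hx3 hx4 hx5 using k_allowed hm hm1 hr0 hr1 hr2
  -- a canonical choice in every coset
  set π : ZMod m → ZMod m ⧸ AddSubgroup.zmultiples r := fun i => (i : ZMod m ⧸ _) with hπ
  set y : ZMod m → ZMod m := fun i => x (Quotient.out (π i)) with hy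
  have hy1 : ∀ i, i - y i ∈ AddSubgroup.zmultiples r := by
    intro i
    have h1 := hx1 (Quotient.out (π i))
    have h2 : (Quotient.out (π i) : ZMod m) - i ∈ AddSubgroup.zmultiples r := by
      have h3 : ((Quotient.out (π i) : ZMod m) : ZMod m ⧸ AddSubgroup.zmultiples r) = π i :=
        Quotient.out_eq' _
      have h4 := (QuotientAddGroup.eq (s := AddSubgroup.zmultiples r)).1 h3.symm
      rw [neg_add_eq_sub] at h4
      exact h4
    have h5 := AddSubgroup.sub_mem _ h1 h2
    have h6 : i - y i = (Quotient.out (π i) - x (Quotient.out (π i))) -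
        (Quotient.out (π i) - i) := by
      rw [hy]; ring
    rw [h6]
    exact h5
  have hyr : ∀ i, y (i + r) = y i := by
    intro i
    have : π (i + r) = π i := by
      rw [hπ]
      symm
      apply (QuotientAddGroup.eq (s := AddSubgroup.zmultiples r)).2
      rw [neg_add_cancel_left]
      exact AddSubgroup.mem_zmultiples r
    simp only [hy, this]
  -- the number of steps from the exceptional point
  have hex : ∀ i, ∃ k : ℕ, i = y i + k • r := by
    intro i
    obtain ⟨k, hk⟩ := AddSubgroup.mem_zmultiples_iff.1 (hy1 i)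
    refine ⟨(k % m).toNat, ?_⟩
    have hm0 : (m : ℤ) ≠ 0 := by exact_mod_cast NeZero.ne m
    have h1 : ((k % m).toNat : ℤ) = k % m := Int.toNat_of_nonneg (Int.emod_nonneg k hm0)
    have h2 : ((k % m).toNat : ZMod m) = (k : ZMod m) := by
      have h3 : (((k % m).toNat : ℤ) : ZMod m) = ((k % m : ℤ) : ZMod m) := by rw [h1]
      rw [Int.cast_natCast] at h3
      rw [h3, ZMod.intCast_mod]
    rw [nsmul_eq_mul, h2, ← zsmul_eq_mul, hk]
    ring
  set k : ZMod m → ℕ := fun i => Nat.find (hex i) with hk
  have hk0 : ∀ i, k i = 0 → i = y i := by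
    intro i hi
    have := Nat.find_spec (hex i)
    have h2 : Nat.find (hex i) = 0 := hi
    rw [h2, zero_nsmul, add_zero] at this
    exact this
  have hk0' : ∀ i, i = y i → k i = 0 := by
    intro i hi
    have h2 : Nat.find (hex i) ≤ 0 := Nat.find_min' (hex i) (by rw [zero_nsmul, add_zero]; exact hi)
    exact Nat.le_zero.1 h2
  have hksucc : ∀ i, i + r ≠ y (i + r) → k (i + r) = k i + 1 := by
    intro i hi
    have h1 : k (i + r) ≠ 0 := fun h => hi (hk0 _ h)
    have h2 : k (i + r) ≤ k i + 1 := by
      apply Nat.find_min' (hex (i + r))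
      rw [hyr]
      have := Nat.find_spec (hex i)
      rw [succ_nsmul, ← add_assoc, ← this]
    have h3 : k i + 1 ≤ k (i + r) := by
      obtain ⟨j, hj⟩ : ∃ j, k (i + r) = j + 1 := ⟨k (i + r) - 1, by omega⟩
      have h4 := Nat.find_spec (hex (i + r))
      have h5 : Nat.find (hex (i + r)) = j + 1 := hj
      rw [h5, hyr, succ_nsmul, ← add_assoc] at h4
      have h6 := add_right_cancel h4
      have h7 : k i ≤ j := Nat.find_min' (hex i) h6
      omega
    omega
  set C : ZMod m → Fin 5 := fun i => if k i = 0 then 4 else if k i % 2 = 1 then 2 else 3 with hC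
  have hC4 : ∀ i, C i = 4 → i = y i := by
    intro i hi
    by_cases h : k i = 0
    · exact hk0 i h
    · exfalso
      simp only [hC, h, if_false] at hi
      split_ifs at hi
      · exact absurd hi (by decide)
      · exact absurd hi (by decide)
  have hC23 : ∀ i, C i ≠ 0 ∧ C i ≠ 1 := by
    intro i
    simp only [hC]
    split_ifs <;> decide
  have hCE : ∀ i j, (i = y i → j ≠ 0) → C i ≠ E j := by
    intro i j hij h
    by_cases hj : j = 0
    · subst hj
      rw [hE0] at h
      exact hij (hC4 i h) rfl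
    · rcases hE2 j hj with h' | h'
      · exact (hC23 i).1 (h.trans h')
      · exact (hC23 i).2 (h.trans h')
  refine ⟨E, C, hE1, ?_, ?_, ?_, ?_, ?_⟩
  · intro i h
    by_cases h1 : i + r = y (i + r)
    · have h2 : C (i + r) = 4 := by simp only [hC, hk0' _ h1, if_true]
      have h3 := hC4 i (h.trans h2)
      rw [hyr, ← h3] at h1
      exact hr0 (by simpa using h1)
    · have h2 := hksucc i h1
      simp only [hC, h2] at h
      by_cases h3 : k i = 0
      · simp only [h3] at h
        exact absurd h (by decide)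
      · rcases Nat.mod_two_eq_zero_or_one (k i) with h4 | h4
        · have h5 : (k i + 1) % 2 = 1 := by omega
          simp only [h3, h4, h5, if_false, if_true, Nat.add_eq_zero_iff, false_and,
            zero_ne_one] at h
          exact absurd h (by decide)
        · have h5 : ¬ (k i + 1) % 2 = 1 := by omega
          simp only [h3, h4, h5, if_false, if_true, Nat.add_eq_zero_iff, false_and] at h
          exact absurd h (by decide)
  · intro i
    apply hCE
    intro h
    rw [h]
    exact hx2 _
  · intro i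
    apply hCE
    rintro h rfl
    rw [zero_add] at h
    exact hx3 _ h.symm
  · intro i
    apply hCE
    intro h
    rw [h]
    exact hx4 _
  · intro i j hij
    apply hCE
    rintro h rfl
    rw [zero_add, h] at hij
    exact hx5 _ hij.symm

variable {Γ : Type*} [Group Γ] {X : Type*} [MulAction Γ X]

/-- a Borel colouring with five colours for the generators `s` and `t` -/
def PairCol (X : Type*) [MulAction Γ X] [MeasurableSpace X] (s t : Γ) : Prop :=
  ∃ e c : X → Fin 5, Measurable e ∧ Measurable c ∧ (∀ x, e (s⁻¹ • x) ≠ e x) ∧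
      (∀ x, c x ≠ c (t • x)) ∧ (∀ x, c x ≠ e (s⁻¹ • x) ∧ c x ≠ e x) ∧
      (∀ x, c x ≠ e (s⁻¹ • t • x) ∧ c x ≠ e (t • x))

theorem k_pair [MeasurableSpace X] [StandardBorelSpace X]
    (hm : ∀ γ : Γ, Measurable (fun x : X => γ • x))
    (hfree : ∀ (γ : Γ) (x : X), γ • x = x → γ = 1) {s t : Γ} (hs : Odd (orderOf s))
    (hs1 : orderOf s ≠ 1) (ht : t ∈ Subgroup.zpowers s) (ht1 : t ≠ 1) (hts : t ≠ s)
    (hts' : t ≠ s⁻¹) : PairCol X s t := by
  classical
  set m := orderOf s with hmdef
  have hm0 : 0 < m := hs.pos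
  haveI : NeZero m := ⟨by omega⟩
  have hsm : s ^ m = 1 := pow_orderOf_eq_one s
  obtain ⟨z, hz⟩ := Subgroup.mem_zpowers_iff.1 ht
  obtain ⟨r, hr⟩ : ∃ r : ℕ, t = s ^ r := by
    refine ⟨(z % m).toNat, ?_⟩
    have h1 : ((z % m).toNat : ℤ) = z % m :=
      Int.toNat_of_nonneg (Int.emod_nonneg z (by exact_mod_cast hm0.ne'))
    rw [← hz, ← zpow_natCast, h1, zpow_mod_orderOf]
  -- separation
  set F : Finset Γ := ((Finset.range m).image fun a => s ^ a).erase 1 with hF
  obtain ⟨f, hf, hfF⟩ := b_col hm F (fun γ hγ x hx => by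
    rw [hF, Finset.mem_erase] at hγ
    exact hγ.1 (hfree γ x hx))
  obtain ⟨idx, hidx, hlt, hsucc⟩ := b_idx hm s m hm0 hsm f hf (by
    intro a ha ham x
    apply hfF
    refine Finset.mem_erase.2 ⟨?_, Finset.mem_image.2 ⟨a, Finset.mem_range.2 ham, rfl⟩⟩
    intro h1
    have := orderOf_dvd_of_pow_eq_one h1
    rw [← hmdef] at this
    exact absurd (Nat.le_of_dvd ha this) (by omega))
  set zz : X → ZMod m := fun x => (idx x : ZMod m) with hzz
  have hzs : ∀ x, zz (s • x) = zz x + 1 := by
    intro x
    simp only [hzz, hsucc]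
    rw [ZMod.natCast_mod, Nat.cast_add, Nat.cast_one]
  have hzpow : ∀ (k : ℕ) (x : X), zz (s ^ k • x) = zz x + k := by
    intro k
    induction k with
    | zero => intro x; simp
    | succ k ih =>
      intro x
      rw [pow_succ', ← smul_smul, hzs, ih, Nat.cast_add, Nat.cast_one]
      ring
  have hzsi : ∀ x, zz (s⁻¹ • x) + 1 = zz x := by
    intro x
    rw [← hzs, smul_inv_smul]
  have hzt : ∀ x, zz (t • x) = zz x + r := by
    intro x
    rw [hr]
    exact hzpow r x
  have hpr : ∀ a b : ℕ, ((a : ℕ) : ZMod m) = (b : ZMod m) → s ^ a = s ^ b := by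
    intro a b h
    rw [pow_eq_pow_iff_modEq]
    exact (ZMod.natCast_eq_natCast_iff _ _ _).1 h
  have r0 : (r : ZMod m) ≠ 0 := by
    intro h
    apply ht1
    rw [hr]
    have := hpr r 0 (by simpa using h)
    rw [this, pow_zero]
  have r1 : (r : ZMod m) ≠ 1 := by
    intro h
    apply hts
    rw [hr]
    have := hpr r 1 (by simpa using h)
    rw [this, pow_one]
  have r2 : (r : ZMod m) ≠ -1 := by
    intro h
    apply hts'
    rw [eq_inv_iff_mul_eq_one, hr, ← pow_succ]
    have h1 : ((r + 1 : ℕ) : ZMod m) = ((0 : ℕ) : ZMod m) := by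
      rw [Nat.cast_add, h, Nat.cast_one, Nat.cast_zero]
      ring
    rw [hpr _ _ h1, pow_zero]
  obtain ⟨E, C, h1, h2, h3, h4, h5, h6⟩ := k_circ hs hs1 r0 r1 r2
  have hzm : ∀ (g : ZMod m → Fin 5), Measurable (fun x => g (zz x)) := by
    intro g
    have h7 : Measurable (fun k : ℕ => g (k : ZMod m)) := Measurable.of_discrete
    exact h7.comp hidx
  refine ⟨fun x => E (zz x), fun x => C (zz x), hzm E, hzm C, ?_, ?_, ?_, ?_⟩
  · intro x
    show E (zz (s⁻¹ • x)) ≠ E (zz x)
    rw [← hzsi x]
    exact h1 _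
  · intro x
    show C (zz x) ≠ C (zz (t • x))
    rw [hzt]
    exact h2 _
  · intro x
    show C (zz x) ≠ E (zz (s⁻¹ • x)) ∧ C (zz x) ≠ E (zz x)
    refine ⟨?_, h3 _⟩
    rw [← hzsi x]
    exact h4 _
  · intro x
    show C (zz x) ≠ E (zz (s⁻¹ • t • x)) ∧ C (zz x) ≠ E (zz (t • x))
    refine ⟨h6 _ _ (by rw [hzsi, hzt]), ?_⟩
    rw [hzt]
    exact h5 _

end Pool.Agent.Lib.H84E
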