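import Mathlib
import Pool.Agent.Lib.H84E.Base
import Pool.Agent.Lib.H84E.T1
import Pool.Agent.Lib.H84E.T2
import Pool.Agent.Lib.H84E.M1

/-!
# H84E, module N1: abstract rules for the lines
-/

set_option autoImplicit false

namespace Pool.Agent.Lib.H84E

/-- `L R P c k` is a system of rules for the window of `w` positions starting at `k`, for lines
with the property `Per`, such that a new vertex refuses at most three pairs. -/
structure RuleOK (w : ℤ) (Per : (ℤ → Prop) → (ℤ → Finset (Fin 5)) → (ℤ → Fin 5) → Prop)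
    (L : (ℤ → Prop) → (ℤ → Finset (Fin 5)) → (ℤ → Fin 5) → ℤ → Prop) : Prop where
  w3 : 3 ≤ w
  w7 : w ≤ 7
  congr : ∀ (R R' : ℤ → Prop) (P P' : ℤ → Finset (Fin 5)) (c c' : ℤ → Fin 5) (k : ℤ),
    (∀ i, k ≤ i → i < k + w → (R i ↔ R' i)) → (∀ i, k ≤ i → i < k + w → P i = P' i) →
    (∀ i, k ≤ i → i < k + w - 1 → c i = c' i) → L R P c k → L R' P' c' k
  shift : ∀ (R : ℤ → Prop) (P : ℤ → Finset (Fin 5)) (c : ℤ → Fin 5) (k j : ℤ), L R P c (k + j) →
    L (fun i => R (i + j)) (fun i => P (i + j)) (fun i => c (i + j)) k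
  zero : ∀ (R : ℤ → Prop) (P : ℤ → Finset (Fin 5)) (c : ℤ → Fin 5) (k : ℤ), (∀ i, ¬ R i) →
    L R P c k
  step : ∀ (R : ℤ → Prop) (P : ℤ → Finset (Fin 5)) (c : ℤ → Fin 5), (∀ k, L R P c k) →
    Per R P c → (∀ i, R i → (P i).card = 2) → ¬ R 0 →
    ∃ Bad : Finset (Finset (Fin 5)), Bad.card ≤ 3 ∧
      ∀ Q : Finset (Fin 5), Q.card = 2 → Q ∉ Bad → ∃ a b, ∀ k, -w < k → k ≤ 0 →
        L (newR R) (newP P Q) (newc c a b) k
  E1 : ∀ (R : ℤ → Prop) (P : ℤ → Finset (Fin 5)) (c : ℤ → Fin 5) (k : ℤ), L R P c k →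
    R k → R (k + 1) → c k ∉ P k ∧ c k ∉ P (k + 1)
  E2 : ∀ (R : ℤ → Prop) (P : ℤ → Finset (Fin 5)) (c : ℤ → Fin 5) (k : ℤ), L R P c k →
    R k → R (k + 1) → R (k + 2) → c k ≠ c (k + 1)

theorem n1_rule7 : RuleOK 7 (fun _ _ _ => True) Loc where
  w3 := by norm_num
  w7 := le_rfl
  congr := fun R R' P P' c c' k h1 h2 h3 h =>
    m1_Loc_congr (fun i a b => h1 i a (by omega)) (fun i a b => h2 i a (by omega))
      (fun i a b => h3 i a (by omega)) h
  shift := fun R P c k j h => m1_Loc_shift h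
  zero := by
    intro R P c k h
    constructor <;> intro h1 <;> first | exact absurd h1 (h _) | (intro h2; exact absurd h2 (h _))
  step := by
    intro R P c hL _ hP h0
    obtain ⟨Bad, hB, hall⟩ := line_step hL hP h0
    refine ⟨Bad, hB, fun Q hQ hQn => ?_⟩
    obtain ⟨a, b, hM⟩ := hall Q hQ hQn
    exact ⟨a, b, fun k h1 h2 => move_loc (fun k _ _ => hL k) h0 hM k (by omega) h2⟩
  E1 := fun R P c k h => h.E1
  E2 := fun R P c k h => h.E2

end Pool.Agent.Lib.H84E
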