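import Mathlib
import Pool.Agent.Lib.H84E.N1
import Pool.Agent.Lib.H84E.S
import Pool.Agent.Lib.H84E.M2

/-!
# H84E, module N2: one round with abstract rules
-/

set_option autoImplicit false

namespace Pool.Agent.Lib.H84E

variable {Γ : Type*} [Group Γ] {X : Type*} [MulAction Γ X]

/-- the invariant after the rounds `0, ..., n - 1` -/
structure InvR (s t : Γ) (q : ℕ) (L : (ℤ → Prop) → (ℤ → Finset (Fin 5)) → (ℤ → Fin 5) → ℤ → Prop)
    (col : X → ℕ) (n : ℕ) (e c : X → Fin 5) : Prop where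
  ne : ∀ x, col x < n → e (s⁻¹ • x) ≠ e x
  loc : ∀ x, L (lR t col n x) (lP s t e x) (lc t c x) 0
  eq : ∀ x, e (s ^ q • x) = e x
  cq : ∀ x, c (s ^ q • x) = c x

variable {s t : Γ} {q : ℕ} {w : ℤ}
  {Per : (ℤ → Prop) → (ℤ → Finset (Fin 5)) → (ℤ → Fin 5) → Prop}
  {L : (ℤ → Prop) → (ℤ → Finset (Fin 5)) → (ℤ → Fin 5) → ℤ → Prop} {col : X → ℕ} {n : ℕ}
  {e c : X → Fin 5}

theorem n2_zero (hL : RuleOK w Per L) : InvR (X := X) s t q L col 0 (fun _ => 0) (fun _ => 0) := by
  refine ⟨fun x h => absurd h (Nat.not_lt_zero _), fun x => ?_, fun _ => rfl, fun _ => rfl⟩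
  exact hL.zero _ _ _ _ fun i => Nat.not_lt_zero _

theorem n2_transfer (hL : RuleOK w Per L) {x : X} {j k : ℤ}
    (h1 : L (lR t col n (t ^ j • x)) (lP s t e (t ^ j • x)) (lc t c (t ^ j • x)) (k + -j)) :
    L (lR t col n x) (lP s t e x) (lc t c x) k := by
  have h3 := hL.shift _ _ _ k (-j) h1
  have e0 : ∀ i : ℤ, t ^ (i + -j) • t ^ j • x = t ^ i • x := by
    intro i
    rw [smul_smul, ← zpow_add]
    congr 2
    ring
  refine hL.congr _ _ _ _ _ _ _ ?_ ?_ ?_ h3
  · intro i _ _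
    simp only [lR, e0]
  · intro i _ _
    simp only [lP, e0]
  · intro i _ _
    simp only [lc, e0]

theorem n2_loc_all (hL : RuleOK w Per L) (h : InvR s t q L col n e c)
    (x : X) (k : ℤ) : L (lR t col n x) (lP s t e x) (lc t c x) k := by
  apply n2_transfer hL (j := k)
  rw [add_neg_cancel]
  exact h.loc _

/-- the property of a new vertex -/
def mv (w : ℤ) (L : (ℤ → Prop) → (ℤ → Finset (Fin 5)) → (ℤ → Fin 5) → ℤ → Prop)
    (s t : Γ) (col : X → ℕ) (n : ℕ) (e c : X → Fin 5) (x : X) (Q : Finset (Fin 5))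
    (a b : Fin 5) : Prop :=
  ∀ k, -w < k → k ≤ 0 → L (newR (lR t col n x)) (newP (lP s t e x) Q) (newc (lc t c x) a b) k

theorem n2_mv_view (hL : RuleOK w Per L) {x x' : X} {Q : Finset (Fin 5)} {a b : Fin 5}
    (h : view s t col n e c x = view s t col n e c x')
    (hM : mv w L s t col n e c x Q a b) : mv w L s t col n e c x' Q a b := by
  intro k h1 h2
  have h7 := hL.w7
  refine hL.congr _ _ _ _ _ _ _ ?_ ?_ ?_ (hM k h1 h2)
  · intro i h3 h4
    simp only [newR]
    rw [(m2_view_eq h i (by omega) (by omega)).1]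
  · intro i h3 h4
    simp only [newP]
    rw [(m2_view_eq h i (by omega) (by omega)).2.1]
  · intro i h3 h4
    simp only [newc]
    rw [(m2_view_eq h i (by omega) (by omega)).2.2]

/-- the refused pairs as a function of the view -/
theorem n2_bad (hL : RuleOK w Per L) (h : InvR s t q L col n e c)
    (hPer : ∀ x, Per (lR t col n x) (lP s t e x) (lc t c x)) :
    ∃ B : (Fin 15 → (Prop × Fin 5 × Fin 5 × Fin 5)) → Finset (Finset (Fin 5)),
      (∀ v, (B v).card ≤ 3) ∧ ∀ x, col x = n → ∀ Q : Finset (Fin 5), Q.card = 2 →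
        Q ∉ B (view s t col n e c x) → ∃ a b, mv w L s t col n e c x Q a b := by
  classical
  obtain ⟨g, hg⟩ := m1_choose (view s t col n e c) (fun x => col x = n)
    (fun x (B : Finset (Finset (Fin 5))) => B.card ≤ 3 ∧ ∀ Q : Finset (Fin 5), Q.card = 2 →
      Q ∉ B → ∃ a b, mv w L s t col n e c x Q a b)
    (by
      rintro x x' B - - hv ⟨h1, h2⟩
      refine ⟨h1, fun Q hQ hQn => ?_⟩
      obtain ⟨a, b, hM⟩ := h2 Q hQ hQn
      exact ⟨a, b, n2_mv_view hL hv hM⟩)
    (by
      intro x hx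
      refine hL.step _ _ _ (n2_loc_all hL h x) (hPer x)
        (fun i hi => Finset.card_pair (h.ne _ hi)) ?_
      simp only [lR, zpow_zero, one_smul]
      omega)
  refine ⟨fun v => if (g v).card ≤ 3 then g v else ∅, fun v => ?_, fun x hx Q hQ hQn => ?_⟩
  · show (if (g v).card ≤ 3 then g v else ∅).card ≤ 3
    split_ifs with h'
    · exact h'
    · simp
  · have := hg x hx
    simp only [this.1, if_true] at hQn
    exact this.2 Q hQ hQn

/-- the colours of the `t`-edges as a function of the view and the pair -/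
theorem n2_ab (hL : RuleOK w Per L)
    {B : (Fin 15 → (Prop × Fin 5 × Fin 5 × Fin 5)) → Finset (Finset (Fin 5))}
    (hB : ∀ x, col x = n → ∀ Q : Finset (Fin 5), Q.card = 2 → Q ∉ B (view s t col n e c x) →
        ∃ a b, mv w L s t col n e c x Q a b) :
    ∃ A : (Fin 15 → (Prop × Fin 5 × Fin 5 × Fin 5)) × Finset (Fin 5) → Fin 5 × Fin 5,
      ∀ x, col x = n → ∀ Q : Finset (Fin 5), Q.card = 2 → Q ∉ B (view s t col n e c x) →
        mv w L s t col n e c x Q (A (view s t col n e c x, Q)).1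
          (A (view s t col n e c x, Q)).2 := by
  classical
  obtain ⟨g, hg⟩ := m1_choose (X := X × Finset (Fin 5))
    (fun q : X × Finset (Fin 5) => (view s t col n e c q.1, q.2))
    (fun q => col q.1 = n ∧ q.2.card = 2 ∧ q.2 ∉ B (view s t col n e c q.1))
    (fun q (ab : Fin 5 × Fin 5) => mv w L s t col n e c q.1 q.2 ab.1 ab.2)
    (by
      rintro ⟨x, Q⟩ ⟨x', Q'⟩ ⟨a, b⟩ - - hv hM
      simp only [Prod.mk.injEq] at hv hM ⊢
      obtain ⟨hv, rfl⟩ := hv
      exact n2_mv_view hL hv hM)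
    (by
      rintro ⟨x, Q⟩ ⟨h1, h2, h3⟩
      obtain ⟨a, b, hM⟩ := hB x h1 Q h2 h3
      exact ⟨(a, b), hM⟩)
  exact ⟨g, fun x hx Q hQ hQn => hg (x, Q) ⟨hx, hQ, hQn⟩⟩

/-- the colouring of the `s`-cycles of the round -/
theorem n2_cells [MeasurableSpace X] (hm : ∀ γ : Γ, Measurable (fun x : X => γ • x))
    {s : Γ} {q : ℕ} (hq3 : 3 ≤ q) {idx : X → ℕ} (hidx : Measurable idx)
    (hlt : ∀ x, idx x < q) (hsucc : ∀ x, idx (s • x) = (idx x + 1) % q)
    {V : Type*} [Finite V] [MeasurableSpace V] [MeasurableSingletonClass V]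
    {vw : X → V} (hvw : Measurable vw) (hvq : ∀ x, vw (s ^ q • x) = vw x)
    {B : V → Finset (Finset (Fin 5))} (hB : ∀ v, (B v).card ≤ 3) :
    ∃ e : X → Fin 5, Measurable e ∧ (∀ x, e (s ^ q • x) = e x) ∧
      ∀ x, e (s⁻¹ • x) ≠ e x ∧ pr s e x ∉ B (vw x) := by
  classical
  have hvqk : ∀ (k : ℕ) (y : X), vw (s ^ (q * k) • y) = vw y := by
    intro k
    induction k with
    | zero => intro y; simp
    | succ k ih =>
      intro y
      rw [mul_add, mul_one, pow_add, ← smul_smul, ih, hvq]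
  have hvmod : ∀ (a : ℕ) (y : X), vw (s ^ (a % q) • y) = vw (s ^ a • y) := by
    intro a y
    conv_rhs => rw [← Nat.div_add_mod a q, pow_add, ← smul_smul, hvqk]
  have hvinv : ∀ (a : ℕ) (y : X), vw (s ^ a • (s ^ q)⁻¹ • y) = vw (s ^ a • y) := by
    intro a y
    have h1 : s ^ a • y = s ^ q • s ^ a • (s ^ q)⁻¹ • y := by
      rw [smul_smul, smul_smul]
      congr 1
      rw [← pow_add, add_comm q a, pow_add, mul_assoc, mul_inv_cancel, mul_one]
    conv_rhs => rw [h1, hvq]
  -- the choice for the base points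
  obtain ⟨g, hg⟩ := m1_choose (β := ℕ → Fin 5) (fun y : X => (fun j : Fin q => vw (s ^ (j : ℕ) • y)))
    (fun _ => True)
    (fun y ec => (∀ i, ec (i + q) = ec i) ∧
      ∀ i < q, ec i ≠ ec (i + 1) ∧ ({ec i, ec (i + 1)} : Finset (Fin 5)) ∉ B (vw (s ^ (i + 1) • y)))
    (by
      rintro y y' ec - - hv ⟨h1, h2⟩
      refine ⟨h1, fun i hi => ⟨(h2 i hi).1, ?_⟩⟩
      have h3 := congrFun hv ⟨(i + 1) % q, Nat.mod_lt _ (by omega)⟩
      simp only at h3
      rw [hvmod, hvmod] at h3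
      rw [← h3]
      exact (h2 i hi).2)
    (by
      intro y _
      exact cell q hq3 (fun i => B (vw (s ^ (i + 1) • y))) (fun i => hB _))
  set G : ℕ × X → Fin 5 := fun p =>
    g (fun j : Fin q => vw (s ^ (j : ℕ) • s⁻¹ ^ p.1 • p.2)) p.1 with hG
  have hGm : Measurable G := by
    refine measurable_from_prod_countable_right fun k => ?_
    have h1 : Measurable (fun y : X => (fun j : Fin q => vw (s ^ (j : ℕ) • s⁻¹ ^ k • y))) :=
      measurable_pi_lambda _ fun j => hvw.comp ((hm _).comp (hm _))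
    have h2 : Measurable (fun v : Fin q → V => g v k) := Measurable.of_discrete
    exact h2.comp h1
  have hidxpow : ∀ (k : ℕ) (y : X), idx (s ^ k • y) = (idx y + k) % q := by
    intro k
    induction k with
    | zero => intro y; simp [Nat.mod_eq_of_lt (hlt y)]
    | succ k ih =>
      intro y
      rw [pow_succ', ← smul_smul, hsucc, ih, Nat.mod_add_mod, add_assoc]
  refine ⟨fun x => G (idx x, x), hGm.comp (hidx.prodMk measurable_id), fun x => ?_, fun x => ?_⟩
  · -- invariance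
    have h1 : idx (s ^ q • x) = idx x := by
      rw [hidxpow, Nat.add_mod_right, Nat.mod_eq_of_lt (hlt x)]
    show G (idx (s ^ q • x), s ^ q • x) = G (idx x, x)
    rw [hG]
    simp only [h1]
    congr 1
    congr 1
    funext j
    have h2 : s ^ (j : ℕ) • s⁻¹ ^ idx x • s ^ q • x = s ^ q • s ^ (j : ℕ) • s⁻¹ ^ idx x • x := by
      simp only [smul_smul]
      congr 1
      have c1 : Commute (s ^ (j : ℕ) * s⁻¹ ^ idx x) (s ^ q) :=
        ((Commute.refl s).pow_pow _ _).mul_left (((Commute.refl s).inv_left).pow_pow _ _)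
      rw [← mul_assoc, c1.eq]
    rw [h2, hvq]
  -- the base point
  set b : X := s⁻¹ ^ idx x • x with hb
  have hxb : x = s ^ idx x • b := by
    rw [hb, smul_smul, inv_pow, mul_inv_cancel, one_smul]
  have hb0 : idx b = 0 := by
    have h1 := hidxpow (idx x) b
    rw [← hxb] at h1
    have h2 := hlt b
    have h3 := hlt x
    rcases Nat.lt_or_ge (idx b + idx x) q with h | h
    · rw [Nat.mod_eq_of_lt h] at h1
      omega
    · rw [Nat.mod_eq_sub_mod h, Nat.mod_eq_of_lt (by omega)] at h1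
      omega
  obtain ⟨hper, hedge⟩ := hg b trivial
  have hGx : G (idx x, x) = g (fun j : Fin q => vw (s ^ (j : ℕ) • b)) (idx x) := rfl
  -- the other edge
  obtain ⟨k, hk, e1, e2, e3⟩ : ∃ k < q, G (idx (s⁻¹ • x), s⁻¹ • x) =
      g (fun j : Fin q => vw (s ^ (j : ℕ) • b)) k ∧
      G (idx x, x) = g (fun j : Fin q => vw (s ^ (j : ℕ) • b)) (k + 1) ∧
      vw x = vw (s ^ (k + 1) • b) := by
    rcases Nat.eq_zero_or_pos (idx x) with h0 | hpos
    · have hxb' : x = b := by rw [hb, h0, pow_zero, one_smul]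
      refine ⟨q - 1, by omega, ?_, ?_, ?_⟩
      · have e5 : idx (s⁻¹ • x) = q - 1 := by
          have h1 := hsucc (s⁻¹ • x)
          rw [smul_inv_smul, h0] at h1
          have h2 := hlt (s⁻¹ • x)
          rcases Nat.lt_or_ge (idx (s⁻¹ • x) + 1) q with h | h
          · rw [Nat.mod_eq_of_lt h] at h1
            omega
          · omega
        have e6 : s⁻¹ ^ (q - 1) • s⁻¹ • x = (s ^ q)⁻¹ • b := by
          rw [smul_smul, ← pow_succ, Nat.sub_add_cancel (by omega), inv_pow, hxb']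
        rw [hG]
        simp only [e5, e6, hvinv]
      · rw [hGx, h0, Nat.sub_add_cancel (by omega), ← hper 0, zero_add]
      · rw [Nat.sub_add_cancel (by omega), hvq, hxb']
    · obtain ⟨k, hk⟩ : ∃ k, idx x = k + 1 := ⟨idx x - 1, by omega⟩
      have hkm : k + 1 < q := by rw [← hk]; exact hlt x
      refine ⟨k, by omega, ?_, ?_, ?_⟩
      · have e4 : s⁻¹ • x = s ^ k • b := by
          conv_lhs => rw [hxb, hk, pow_succ', ← smul_smul, inv_smul_smul]
        have e5 : idx (s⁻¹ • x) = k := by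
          rw [e4, hidxpow, hb0, zero_add, Nat.mod_eq_of_lt (by omega)]
        have e6 : s⁻¹ ^ k • s⁻¹ • x = b := by
          rw [smul_smul, ← pow_succ, hb, hk]
        rw [hG]
        simp only [e5, e6]
      · rw [hGx, hk]
      · rw [← hk, ← hxb]
  have h2 := hedge k hk
  refine ⟨?_, ?_⟩
  · show G (idx (s⁻¹ • x), s⁻¹ • x) ≠ G (idx x, x)
    rw [e1, e2]
    exact h2.1
  · show ({G (idx (s⁻¹ • x), s⁻¹ • x), G (idx x, x)} : Finset (Fin 5)) ∉ B (vw x)
    rw [e1, e2]
    rw [← e3] at h2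
    exact h2.2

end Pool.Agent.Lib.H84E
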