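import Mathlib
import Pool.Agent.Lib.H84E.N2
import Pool.Agent.Lib.H84E.B

/-!
# H84E, module N3: one round and all rounds with abstract rules
-/

set_option autoImplicit false

namespace Pool.Agent.Lib.H84E

variable {Γ : Type*} [Group Γ] {X : Type*} [MulAction Γ X]

/-- one round -/
theorem n3_round [MeasurableSpace X] (hm : ∀ γ : Γ, Measurable (fun x : X => γ • x))
    {s t : Γ} {q : ℕ} {w : ℤ}
    {Per : (ℤ → Prop) → (ℤ → Finset (Fin 5)) → (ℤ → Fin 5) → Prop}
    {L : (ℤ → Prop) → (ℤ → Finset (Fin 5)) → (ℤ → Fin 5) → ℤ → Prop}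
    (hL : RuleOK w Per L) (hq3 : 3 ≤ q) (hst : Commute (s ^ q) t)
    {col idx : X → ℕ} (hcol : Measurable col)
    (hidx : Measurable idx) (hcs : ∀ x, col (s • x) = col x)
    (hct : ∀ j : ℤ, j ≠ 0 → |j| < w → ∀ x, col (t ^ j • x) ≠ col x)
    (hlt : ∀ x, idx x < q) (hsucc : ∀ x, idx (s • x) = (idx x + 1) % q)
    {n : ℕ} {e c : X → Fin 5} (he : Measurable e) (hc : Measurable c)
    (h : InvR s t q L col n e c)
    (hPer : ∀ x, Per (lR t col n x) (lP s t e x) (lc t c x)) :
    ∃ e' c' : X → Fin 5, Measurable e' ∧ Measurable c' ∧ InvR s t q L col (n + 1) e' c' ∧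
      (∀ x, col x ≠ n → e' x = e x) ∧
      (∀ x, col x ≠ n → col (t • x) ≠ n → c' x = c x) := by
  classical
  have hcsk : ∀ (k : ℕ) (x : X), col (s ^ k • x) = col x := by
    intro k
    induction k with
    | zero => intro x; simp
    | succ k ih =>
      intro x
      rw [pow_succ', ← smul_smul, hcs, ih]
  have hcsi : ∀ x, col (s⁻¹ • x) = col x := by
    intro x
    have := hcs (s⁻¹ • x)
    rw [smul_inv_smul] at this
    exact this.symm
  have hcomm : ∀ (j : ℤ) (x : X), t ^ j • s ^ q • x = s ^ q • t ^ j • x := by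
    intro j x
    rw [smul_smul, smul_smul, (hst.zpow_right j).eq]
  have hsi : ∀ y : X, s⁻¹ • s ^ q • y = s ^ q • s⁻¹ • y := by
    intro y
    rw [smul_smul, smul_smul]
    congr 1
    exact (((Commute.refl s).inv_left).pow_right q).eq
  -- the view is invariant
  have hvq : ∀ x, view s t col n e c (s ^ q • x) = view s t col n e c x := by
    intro x
    funext j
    simp only [view, hcomm, hcsk, h.eq, h.cq, hsi]
  obtain ⟨B, hB3, hB⟩ := n2_bad hL h hPer
  obtain ⟨A, hA⟩ := n2_ab hL hB
  have hview := m2_view_meas hm s t hcol n he hc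
  obtain ⟨ec, hec, hecq, hec2⟩ := n2_cells hm hq3 hidx hlt hsucc hview hvq hB3
  have hCn : MeasurableSet {x : X | col x = n} := hcol (measurableSet_singleton n)
  have hCt : MeasurableSet {x : X | col (t • x) = n} := (hcol.comp (hm t)) (measurableSet_singleton n)
  set e' : X → Fin 5 := fun x => if col x = n then ec x else e x with he'
  set v : X → Fin 5 × Fin 5 := fun x => A (view s t col n e c x, pr s e' x) with hv
  set c' : X → Fin 5 := fun x => if col x = n then (v x).2 else
    if col (t • x) = n then (v (t • x)).1 else c x with hc'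
  have he'm : Measurable e' := Measurable.ite hCn hec he
  have hvm : Measurable v := by
    have h1 : Measurable (fun x : X => (view s t col n e c x, e' (s⁻¹ • x), e' x)) :=
      hview.prodMk ((he'm.comp (hm _)).prodMk he'm)
    have h2 : Measurable (fun q : (Fin 15 → (Prop × Fin 5 × Fin 5 × Fin 5)) × Fin 5 × Fin 5 =>
        A (q.1, {q.2.1, q.2.2})) := Measurable.of_discrete
    exact h2.comp h1
  have hc'm : Measurable c' :=
    Measurable.ite hCn (measurable_snd.comp hvm)
      (Measurable.ite hCt (measurable_fst.comp (hvm.comp (hm t))) hc)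
  -- values
  have e'n : ∀ x, col x = n → e' x = ec x := fun x hx => if_pos hx
  have e'o : ∀ x, col x ≠ n → e' x = e x := fun x hx => if_neg hx
  have pr'n : ∀ x, col x = n → pr s e' x = pr s ec x := by
    intro x hx
    simp only [pr]
    rw [e'n x hx, e'n (s⁻¹ • x) (by rw [hcsi]; exact hx)]
  have pr'o : ∀ x, col x ≠ n → pr s e' x = pr s e x := by
    intro x hx
    simp only [pr]
    rw [e'o x hx, e'o (s⁻¹ • x) (by rw [hcsi]; exact hx)]
  have c'o : ∀ x, col x ≠ n → col (t • x) ≠ n → c' x = c x := by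
    intro x h1 h2
    simp only [hc', if_neg h1, if_neg h2]
  have hmove : ∀ x, col x = n → mv w L s t col n e c x (pr s e' x) (v x).1 (v x).2 := by
    intro x hx
    apply hA x hx
    · rw [pr'n x hx]
      exact Finset.card_pair (hec2 x).1
    · rw [pr'n x hx]
      exact (hec2 x).2
  -- invariance
  have e'q : ∀ x, e' (s ^ q • x) = e' x := by
    intro x
    simp only [he', hcsk, hecq, h.eq]
  have vq : ∀ x, v (s ^ q • x) = v x := by
    intro x
    simp only [hv, pr, hvq, hsi, e'q]
  have c'q : ∀ x, c' (s ^ q • x) = c' x := by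
    intro x
    have h1 : t • s ^ q • x = s ^ q • t • x := by
      rw [smul_smul, smul_smul, hst.eq]
    simp only [hc', h1, hcsk, vq, h.cq]
  -- the rules near a new vertex
  have hnear : ∀ y, col y = n → ∀ k : ℤ, -w < k → k ≤ 0 →
      L (lR t col (n + 1) y) (lP s t e' y) (lc t c' y) k := by
    intro y hy k hk1 hk2
    have h1 := hmove y hy k hk1 hk2
    have hne : ∀ i : ℤ, i ≠ 0 → -w < i → i < w → col (t ^ i • y) ≠ n := by
      intro i hi h1 h2
      rw [← hy]
      exact hct i hi (abs_lt.2 ⟨h1, h2⟩) y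
    have hw3 := hL.w3
    refine hL.congr _ _ _ _ _ _ _ ?_ ?_ ?_ h1
    · intro i h1 h2
      simp only [newR, lR]
      by_cases hi : i = 0
      · subst hi
        simp only [or_true, zpow_zero, one_smul, true_iff]
        omega
      · have := hne i hi (by omega) (by omega)
        simp only [hi, or_false]
        omega
    · intro i h1 h2
      simp only [newP, lP]
      by_cases hi : i = 0
      · subst hi
        simp only [if_true, zpow_zero, one_smul]
      · simp only [hi, if_false]
        rw [pr'o _ (hne i hi (by omega) (by omega))]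
    · intro i h1 h2
      simp only [newc, lc]
      by_cases hi : i = 0
      · subst hi
        simp only [if_true, zpow_zero, one_smul, hc', hy]
        norm_num
      · by_cases hi1 : i = -1
        · subst hi1
          have h3 : col (t ^ (-1 : ℤ) • y) ≠ n := hne _ (by norm_num) (by omega) (by omega)
          have h4 : t • t ^ (-1 : ℤ) • y = y := by
            rw [zpow_neg_one, smul_inv_smul]
          simp only [if_true, hc', h3, if_false, h4, hy]
        · simp only [hi, hi1, if_false]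
          rw [c'o _ (hne i hi (by omega) (by omega))]
          rw [smul_smul, ← zpow_one_add]
          exact hne _ (by omega) (by omega) (by omega)
  refine ⟨e', c', he'm, hc'm, ⟨?_, ?_, e'q, c'q⟩, e'o, c'o⟩
  · intro x hx
    by_cases hxn : col x = n
    · rw [e'n x hxn, e'n (s⁻¹ • x) (by rw [hcsi]; exact hxn)]
      exact (hec2 x).1
    · rw [e'o x hxn, e'o (s⁻¹ • x) (by rw [hcsi]; exact hxn)]
      exact h.ne x (by omega)
  · intro x
    by_cases hj : ∃ j : ℤ, 0 ≤ j ∧ j < w ∧ col (t ^ j • x) = n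
    · obtain ⟨j, hj0, hjw, hjn⟩ := hj
      have h1 := hnear (t ^ j • x) hjn (-j) (by omega) (by omega)
      apply n2_transfer hL (j := j)
      rw [zero_add]
      exact h1
    · push_neg at hj
      have hw3 := hL.w3
      refine hL.congr _ _ _ _ _ _ _ ?_ ?_ ?_ (h.loc x)
      · intro i h1 h2
        have := hj i h1 (by omega)
        simp only [lR]
        omega
      · intro i h1 h2
        simp only [lP]
        rw [pr'o _ (hj i h1 (by omega))]
      · intro i h1 h2
        simp only [lc]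
        rw [c'o _ (hj i h1 (by omega))]
        rw [smul_smul, ← zpow_one_add]
        exact hj _ (by omega) (by omega)

/-- the states after `n` rounds -/
def StR [MeasurableSpace X] (s t : Γ) (q : ℕ)
    (L : (ℤ → Prop) → (ℤ → Finset (Fin 5)) → (ℤ → Fin 5) → ℤ → Prop) (col : X → ℕ) (n : ℕ) :
    Type _ :=
  {p : (X → Fin 5) × (X → Fin 5) // Measurable p.1 ∧ Measurable p.2 ∧ InvR s t q L col n p.1 p.2}

theorem n3_seq [MeasurableSpace X] (hm : ∀ γ : Γ, Measurable (fun x : X => γ • x))
    {s t : Γ} {q : ℕ} {w : ℤ}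
    {Per : (ℤ → Prop) → (ℤ → Finset (Fin 5)) → (ℤ → Fin 5) → Prop}
    {L : (ℤ → Prop) → (ℤ → Finset (Fin 5)) → (ℤ → Fin 5) → ℤ → Prop}
    (hL : RuleOK w Per L) (hq3 : 3 ≤ q) (hst : Commute (s ^ q) t)
    {col idx : X → ℕ} (hcol : Measurable col)
    (hidx : Measurable idx) (hcs : ∀ x, col (s • x) = col x)
    (hct : ∀ j : ℤ, j ≠ 0 → |j| < w → ∀ x, col (t ^ j • x) ≠ col x)
    (hlt : ∀ x, idx x < q) (hsucc : ∀ x, idx (s • x) = (idx x + 1) % q)
    (hPer : ∀ (n : ℕ) (e c : X → Fin 5), InvR s t q L col n e c →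
      ∀ x, Per (lR t col n x) (lP s t e x) (lc t c x)) :
    ∃ e c : ℕ → X → Fin 5, (∀ n, Measurable (e n)) ∧ (∀ n, Measurable (c n)) ∧
      (∀ n, InvR s t q L col n (e n) (c n)) ∧ (∀ n x, col x ≠ n → e (n + 1) x = e n x) ∧
      (∀ n x, col x ≠ n → col (t • x) ≠ n → c (n + 1) x = c n x) := by
  classical
  have hstep : ∀ n (p : StR (X := X) s t q L col n), ∃ p' : StR (X := X) s t q L col (n + 1),
      (∀ x, col x ≠ n → p'.1.1 x = p.1.1 x) ∧
      (∀ x, col x ≠ n → col (t • x) ≠ n → p'.1.2 x = p.1.2 x) := by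
    rintro n ⟨⟨e, c⟩, he, hc, h⟩
    obtain ⟨e', c', he', hc', h', h1, h2⟩ :=
      n3_round hm hL hq3 hst hcol hidx hcs hct hlt hsucc he hc h (hPer n e c h)
    exact ⟨⟨(e', c'), he', hc', h'⟩, h1, h2⟩
  choose stp hstp1 hstp2 using hstep
  set F : ∀ n, StR (X := X) s t q L col n := fun n => Nat.rec
    (⟨(fun _ => 0, fun _ => 0), measurable_const, measurable_const, n2_zero hL⟩ :
      StR (X := X) s t q L col 0) (fun n p => stp n p) n with hF
  have hFs : ∀ n, F (n + 1) = stp n (F n) := fun n => rfl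
  refine ⟨fun n => (F n).1.1, fun n => (F n).1.2, fun n => (F n).2.1, fun n => (F n).2.2.1,
    fun n => (F n).2.2.2, ?_, ?_⟩
  · intro n x hx
    show (F (n + 1)).1.1 x = (F n).1.1 x
    rw [hFs]
    exact hstp1 n (F n) x hx
  · intro n x hx hx'
    show (F (n + 1)).1.2 x = (F n).1.2 x
    rw [hFs]
    exact hstp2 n (F n) x hx hx'

/-- the rounds and the base points, where the base points are invariant under `s ^ q` -/
theorem n3_rounds [MeasurableSpace X] [StandardBorelSpace X]
    (hm : ∀ γ : Γ, Measurable (fun x : X => γ • x))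
    (hfree : ∀ (γ : Γ) (x : X), γ • x = x → γ = 1) (s t : Γ) (q : ℕ) (hq : 0 < q)
    (hs : 0 < orderOf s) (hqs : q ∣ orderOf s) (w : ℤ)
    (ht : ∀ j : ℤ, j ≠ 0 → |j| < w → t ^ j ∉ Subgroup.zpowers s) :
    ∃ col idx : X → ℕ, Measurable col ∧ Measurable idx ∧ (∀ x, col (s • x) = col x) ∧
      (∀ j : ℤ, j ≠ 0 → |j| < w → ∀ x, col (t ^ j • x) ≠ col x) ∧
      (∀ x, idx x < q) ∧ ∀ x, idx (s • x) = (idx x + 1) % q := by
  classical
  set m := orderOf s with hmdef
  have hsm : s ^ m = 1 := pow_orderOf_eq_one s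
  have hm0 : 0 < m := hs
  set F : Finset Γ := ((Finset.range m).image fun a => s ^ a).erase 1 ∪
    ((Finset.range m) ×ˢ (Finset.Ioo (-w) w).erase 0).image (fun q => s ^ q.1 * t ^ q.2) with hF
  have hF1 : ∀ γ ∈ F, γ ≠ 1 := by
    intro γ hγ
    rw [hF, Finset.mem_union] at hγ
    rcases hγ with h | h
    · exact (Finset.mem_erase.1 h).1
    · obtain ⟨⟨a, j⟩, hq, rfl⟩ := Finset.mem_image.1 h
      rw [Finset.mem_product] at hq
      have hj := Finset.mem_erase.1 hq.2
      have hj2 := Finset.mem_Ioo.1 hj.2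
      intro h1
      apply ht j hj.1 (by rw [abs_lt]; exact hj2)
      have : t ^ j = (s ^ a)⁻¹ := by
        rw [eq_inv_iff_mul_eq_one]
        have h2 : (s ^ a)⁻¹ = t ^ j := inv_eq_of_mul_eq_one_right h1
        rw [← h2, inv_mul_cancel]
      rw [this]
      exact Subgroup.inv_mem _ (Subgroup.pow_mem _ (Subgroup.mem_zpowers s) a)
  obtain ⟨f, hf, hfF⟩ := b_col hm F (fun γ hγ x hx => hF1 γ hγ (hfree γ x hx))
  have hfs : ∀ a : ℕ, ¬ m ∣ a → ∀ x, f (s ^ a • x) ≠ f x := by
    intro a ha x
    have hpm : s ^ a = s ^ (a % m) := by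
      conv_lhs => rw [← Nat.div_add_mod a m, pow_add, pow_mul, hsm, one_pow, one_mul]
    rw [hpm]
    apply hfF
    rw [hF, Finset.mem_union]
    left
    refine Finset.mem_erase.2 ⟨?_, Finset.mem_image.2 ⟨a % m,
      Finset.mem_range.2 (Nat.mod_lt _ hm0), rfl⟩⟩
    intro h1
    have h2 := orderOf_dvd_of_pow_eq_one h1
    rw [← hmdef] at h2
    have h3 := Nat.mod_lt a hm0
    rcases Nat.eq_zero_or_pos (a % m) with h4 | h4
    · exact ha (Nat.dvd_of_mod_eq_zero h4)
    · exact absurd (Nat.le_of_dvd h4 h2) (by omega)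
  have hpowmod : ∀ n, s ^ n = s ^ (n % m) := by
    intro n
    conv_lhs => rw [← Nat.div_add_mod n m, pow_add, pow_mul, hsm, one_pow, one_mul]
  -- the multi-sets of the values of `f` on the cosets of the powers of `s ^ r`
  have hCgen : ∀ r : ℕ, 0 < r → r ∣ m → ∃ C : X → ℕ, Measurable C ∧
      (∀ x, C (s ^ r • x) = C x) ∧
      (∀ x y, C x = C y → ∃ a : ℕ, f (s ^ (r * a) • y) = f x) := by
    intro r hr hrm
    set C : X → Finset ℕ := fun x => (Finset.range m).image (fun a => f (s ^ (r * a) • x)) with hC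
    have hCmem : ∀ x k, k ∈ C x ↔ ∃ a : ℕ, f (s ^ (r * a) • x) = k := by
      intro x k
      simp only [hC, Finset.mem_image, Finset.mem_range]
      constructor
      · rintro ⟨a, -, h⟩; exact ⟨a, h⟩
      · rintro ⟨a, h⟩
        refine ⟨a % m, Nat.mod_lt _ hm0, ?_⟩
        have : s ^ (r * (a % m)) = s ^ (r * a) := by
          rw [hpowmod (r * (a % m)), hpowmod (r * a)]
          congr 1
          exact Nat.mul_mod_mod r a m
        rw [this]
        exact h
    refine ⟨fun x => Encodable.encode (C x), ?_, ?_, ?_⟩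
    · have h1 : Measurable (fun x : X => (fun a : Fin m => f (s ^ (r * (a : ℕ)) • x))) :=
        measurable_pi_lambda _ fun a => hf.comp (hm _)
      have h2 : Measurable (fun g : Fin m → ℕ =>
          Encodable.encode ((Finset.univ : Finset (Fin m)).image g)) := Measurable.of_discrete
      have h3 : (fun x => Encodable.encode (C x)) = (fun g : Fin m → ℕ =>
          Encodable.encode ((Finset.univ : Finset (Fin m)).image g)) ∘
            (fun x : X => (fun a : Fin m => f (s ^ (r * (a : ℕ)) • x))) := by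
        funext x
        simp only [Function.comp_apply]
        congr 1
        ext k
        simp only [hC, Finset.mem_image, Finset.mem_range, Finset.mem_univ, true_and]
        constructor
        · rintro ⟨a, ha, h⟩; exact ⟨⟨a, ha⟩, h⟩
        · rintro ⟨a, h⟩; exact ⟨a, a.2, h⟩
      rw [h3]
      exact h2.comp h1
    · intro x
      show Encodable.encode (C (s ^ r • x)) = Encodable.encode (C x)
      congr 1
      ext k
      rw [hCmem, hCmem]
      constructor
      · rintro ⟨a, h⟩
        exact ⟨a + 1, by rw [mul_add, mul_one, pow_add, ← smul_smul]; exact h⟩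
      · rintro ⟨a, h⟩
        obtain ⟨u, hu⟩ := hrm
        have hu0 : 0 < u := by
          rcases Nat.eq_zero_or_pos u with h' | h'
          · subst h'; omega
          · exact h'
        refine ⟨a + (u - 1), ?_⟩
        rw [smul_smul, ← pow_add]
        have : r * (a + (u - 1)) + r = r * a + m := by
          rw [hu]
          obtain ⟨u', rfl⟩ : ∃ u', u = u' + 1 := ⟨u - 1, by omega⟩
          simp only [Nat.add_sub_cancel]
          ring
        rw [this, pow_add, hsm, mul_one]
        exact h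
    · intro x y hxy
      have hCe : C x = C y := Encodable.encode_injective hxy
      have : f x ∈ C y := by
        rw [← hCe, hCmem]
        exact ⟨0, by simp⟩
      exact (hCmem _ _).1 this
  obtain ⟨col, hcol, hcol1, hcol2⟩ := hCgen 1 Nat.one_pos (one_dvd m)
  obtain ⟨g, hg, hg1, hg2⟩ := hCgen q hq hqs
  have hgk : ∀ (k : ℕ) (x : X), g (s ^ (q * k) • x) = g x := by
    intro k
    induction k with
    | zero => intro x; simp
    | succ k ih =>
      intro x
      rw [mul_add, mul_one, pow_add, ← smul_smul, ih, hg1]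
  have hgmod : ∀ (n : ℕ) (x : X), g (s ^ n • x) = g (s ^ (n % q) • x) := by
    intro n x
    conv_lhs => rw [← Nat.div_add_mod n q, pow_add, ← smul_smul, hgk]
  have hgs : ∀ a : ℕ, ¬ q ∣ a → ∀ x, g (s ^ a • x) ≠ g x := by
    intro a ha x hx
    obtain ⟨b, hb⟩ := hg2 _ _ hx.symm
    rw [smul_smul, ← pow_add] at hb
    refine hfs (q * b + a) ?_ x hb
    intro h1
    have h2 : q ∣ q * b + a := hqs.trans h1
    exact ha ((Nat.dvd_add_right (dvd_mul_right q b)).1 h2)
  have hsinv : s⁻¹ = s ^ (m - 1) := by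
    rw [inv_eq_iff_mul_eq_one, ← pow_succ', Nat.sub_add_cancel hm0, hsm]
  -- base points
  set p : X → ℕ → Prop := fun x n => ∀ a : ℕ, g (s⁻¹ ^ n • x) ≤ g (s ^ a • x) with hp
  have hinv : ∀ n, s⁻¹ ^ n = s ^ ((m - 1) * n) := by
    intro n
    rw [hsinv, pow_mul]
  have hginvmod : ∀ n (x : X), g (s⁻¹ ^ n • x) = g (s⁻¹ ^ (n % q) • x) := by
    intro n x
    rw [hinv, hinv, hgmod, hgmod ((m - 1) * (n % q)), Nat.mul_mod_mod]
  have hex : ∀ x, ∃ n, p x n := by
    intro x
    obtain ⟨a, -, ha⟩ := Finset.exists_min_image (Finset.range q) (fun a => g (s ^ a • x))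
      ⟨0, Finset.mem_range.2 hq⟩
    refine ⟨(m - 1) * a, fun b => ?_⟩
    have h1 : s⁻¹ ^ ((m - 1) * a) = s ^ a := by
      rw [pow_mul, inv_pow, ← hsinv, inv_inv]
    rw [h1, hgmod b]
    exact ha _ (Finset.mem_range.2 (Nat.mod_lt _ hq))
  have hmeas : ∀ k, MeasurableSet {x | p x k} := by
    intro k
    have : {x | p x k} = ⋂ a : ℕ, {x | g (s⁻¹ ^ k • x) ≤ g (s ^ a • x)} := by
      ext x; simp [hp]
    rw [this]
    exact MeasurableSet.iInter fun a => measurableSet_le (hg.comp (hm _)) (hg.comp (hm _))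
  have hlt : ∀ x, Nat.find (hex x) < q := by
    intro x
    have h1 : p x (Nat.find (hex x) % q) := by
      intro a
      rw [← hginvmod]
      exact Nat.find_spec (hex x) a
    exact (Nat.find_min' (hex x) h1).trans_lt (Nat.mod_lt _ hq)
  have huniq : ∀ x n n', n < q → n' < q → p x n → p x n' → n = n' := by
    have key : ∀ x n n', n < n' → n' < q → p x n → p x n' → False := by
      intro x n n' hnn hn' h h'
      have l1 := h ((m - 1) * n')
      have l2 := h' ((m - 1) * n)
      rw [← hinv] at l1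
      rw [← hinv] at l2
      have e3 : s⁻¹ ^ n • x = s ^ (n' - n) • s⁻¹ ^ n' • x := by
        rw [smul_smul]
        congr 1
        have : s⁻¹ ^ n' = s⁻¹ ^ (n' - n) * s⁻¹ ^ n := by rw [← pow_add]; congr 1; omega
        rw [this, inv_pow s (n' - n), ← mul_assoc, mul_inv_cancel, one_mul]
      apply hgs (n' - n) (fun hd => by
        have := Nat.le_of_dvd (by omega) hd
        omega) (s⁻¹ ^ n' • x)
      rw [← e3]
      omega
    intro x n n' hn hn' h h'
    rcases lt_trichotomy n n' with hlt | heq | hgt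
    · exact (key x n n' hlt hn' h h').elim
    · exact heq
    · exact (key x n' n hgt hn h' h).elim
  refine ⟨col, fun x => Nat.find (hex x), hcol, measurable_find hex hmeas, ?_, ?_, hlt,
    fun x => ?_⟩
  · intro x
    have := hcol1 x
    rwa [pow_one] at this
  · intro j hj hjw x hx
    obtain ⟨a, ha⟩ := hcol2 _ _ hx.symm
    rw [one_mul, smul_smul, hpowmod] at ha
    refine hfF _ ?_ x ha
    rw [hF, Finset.mem_union]
    right
    rw [abs_lt] at hjw
    exact Finset.mem_image.2 ⟨(a % m, j), Finset.mem_product.2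
      ⟨Finset.mem_range.2 (Nat.mod_lt _ hm0),
      Finset.mem_erase.2 ⟨hj, Finset.mem_Ioo.2 hjw⟩⟩, rfl⟩
  · apply huniq (s • x) _ _ (hlt _) (Nat.mod_lt _ hq) (Nat.find_spec (hex (s • x)))
    intro a
    rw [← hginvmod, pow_succ, smul_smul, mul_assoc, inv_mul_cancel, mul_one]
    have := Nat.find_spec (hex x) (a + 1)
    rw [smul_smul, ← pow_succ]
    exact this

/-- **Five colours, abstract rules.** -/
theorem n3_main [MeasurableSpace X] [StandardBorelSpace X]
    (hm : ∀ γ : Γ, Measurable (fun x : X => γ • x))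
    (hfree : ∀ (γ : Γ) (x : X), γ • x = x → γ = 1) {s t : Γ} {q : ℕ} {w : ℤ}
    {Per : (ℤ → Prop) → (ℤ → Finset (Fin 5)) → (ℤ → Fin 5) → Prop}
    {L : (ℤ → Prop) → (ℤ → Finset (Fin 5)) → (ℤ → Fin 5) → ℤ → Prop}
    (hL : RuleOK w Per L) (hq3 : 3 ≤ q) (hst : Commute (s ^ q) t) (hs : 0 < orderOf s)
    (hqs : q ∣ orderOf s)
    (ht : ∀ j : ℤ, j ≠ 0 → |j| < w → t ^ j ∉ Subgroup.zpowers s)
    (hPer : ∀ (col : X → ℕ) (n : ℕ) (e c : X → Fin 5), (∀ x, col (s • x) = col x) →
      InvR s t q L col n e c → ∀ x, Per (lR t col n x) (lP s t e x) (lc t c x)) :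
    ∃ e c : X → Fin 5, Measurable e ∧ Measurable c ∧ (∀ x, e (s⁻¹ • x) ≠ e x) ∧
      (∀ x, c x ≠ c (t • x)) ∧ (∀ x, c x ≠ e (s⁻¹ • x) ∧ c x ≠ e x) ∧
      (∀ x, c x ≠ e (s⁻¹ • t • x) ∧ c x ≠ e (t • x)) := by
  classical
  obtain ⟨col, idx, hcol, hidx, hcs, hct, hlt, hsucc⟩ :=
    n3_rounds hm hfree s t q (by omega) hs hqs w ht
  obtain ⟨e, c, he, hc, hinv, hse, hsc⟩ :=
    n3_seq hm hL hq3 hst hcol hidx hcs hct hlt hsucc (fun n e c h => hPer col n e c hcs h)
  have hcsi : ∀ x, col (s⁻¹ • x) = col x := by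
    intro x
    have := hcs (s⁻¹ • x)
    rw [smul_inv_smul] at this
    exact this.symm
  -- stability
  have he_st : ∀ x N, col x < N → e N x = e (col x + 1) x := by
    intro x N hN
    obtain ⟨k, rfl⟩ := Nat.exists_eq_add_of_lt hN
    induction k with
    | zero => rfl
    | succ k ih =>
      rw [show col x + (k + 1) + 1 = (col x + k + 1) + 1 by omega, hse _ _ (by omega)]
      exact ih (by omega)
  have hc_st : ∀ x N, col x < N → col (t • x) < N →
      c N x = c (max (col x) (col (t • x)) + 1) x := by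
    intro x N hN hN'
    have hN2 : max (col x) (col (t • x)) < N := max_lt hN hN'
    obtain ⟨k, rfl⟩ := Nat.exists_eq_add_of_lt hN2
    clear hN hN' hN2
    induction k with
    | zero => rfl
    | succ k ih =>
      rw [show max (col x) (col (t • x)) + (k + 1) + 1 = (max (col x) (col (t • x)) + k + 1) + 1
        by omega, hsc _ _ (by omega) (by omega)]
      exact ih
  -- the rules for large `N`
  have hrules : ∀ x, ∃ N, col x < N ∧ col (t • x) < N ∧ col (t • t • x) < N := by
    intro x
    refine ⟨col x + col (t • x) + col (t • t • x) + 1, by omega, by omega, by omega⟩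
  refine ⟨fun x => e (col x + 1) x, fun x => c (max (col x) (col (t • x)) + 1) x,
    ?_, ?_, ?_, ?_, ?_, ?_⟩
  · have h1 : Measurable (fun q : ℕ × X => e (q.1 + 1) q.2) :=
      measurable_from_prod_countable_right fun n => he (n + 1)
    exact h1.comp (hcol.prodMk measurable_id)
  · have h1 : Measurable (fun q : ℕ × X => c (q.1 + 1) q.2) :=
      measurable_from_prod_countable_right fun n => hc (n + 1)
    exact h1.comp ((hcol.max (hcol.comp (hm t))).prodMk measurable_id)
  · intro x
    show e (col (s⁻¹ • x) + 1) (s⁻¹ • x) ≠ e (col x + 1) x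
    rw [hcsi]
    exact (hinv (col x + 1)).ne x (by omega)
  · intro x
    obtain ⟨N, h0, h1, h2⟩ := hrules x
    have hl := hL.E2 _ _ _ _ ((hinv N).loc x)
    simp only [lR, lc] at hl
    norm_num at hl
    have t2 : (t ^ (2 : ℤ) : Γ) • x = t • t • x := by
      rw [smul_smul, zpow_ofNat, pow_two]
    have hl := hl h0 h1 (by first | (rw [← t2] at h2; simpa using h2) | simpa [smul_smul, pow_two] using h2)
    show c (max (col x) (col (t • x)) + 1) x ≠ c (max (col (t • x)) (col (t • t • x)) + 1) (t • x)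
    rw [← hc_st x N h0 h1, ← hc_st (t • x) N h1 h2]
    exact hl
  · intro x
    obtain ⟨N, h0, h1, h2⟩ := hrules x
    have hl := hL.E1 _ _ _ _ ((hinv N).loc x)
    simp only [lR, lc, lP, pr] at hl
    norm_num at hl
    have hl := (hl h0 h1).1
    show c (max (col x) (col (t • x)) + 1) x ≠ e (col (s⁻¹ • x) + 1) (s⁻¹ • x) ∧
      c (max (col x) (col (t • x)) + 1) x ≠ e (col x + 1) x
    rw [← hc_st x N h0 h1, ← he_st x N h0, ← he_st (s⁻¹ • x) N (by rw [hcsi]; exact h0)]
    simpa using hl
  · intro x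
    obtain ⟨N, h0, h1, h2⟩ := hrules x
    have hl := hL.E1 _ _ _ _ ((hinv N).loc x)
    simp only [lR, lc, lP, pr] at hl
    norm_num at hl
    have hl := (hl h0 h1).2
    show c (max (col x) (col (t • x)) + 1) x ≠ e (col (s⁻¹ • t • x) + 1) (s⁻¹ • t • x) ∧
      c (max (col x) (col (t • x)) + 1) x ≠ e (col (t • x) + 1) (t • x)
    rw [← hc_st x N h0 h1, ← he_st (t • x) N h1,
      ← he_st (s⁻¹ • t • x) N (by rw [hcsi]; exact h1)]
    simpa using hl

end Pool.Agent.Lib.H84E
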