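import Mathlib
import Pool.Agent.Lib.H84E.N1

/-!
# H84E, module R3: the rules for cycles of length three
-/

set_option autoImplicit false

namespace Pool.Agent.Lib.H84E

open Finset

/-- lines with period `w` -/
def PerW (w : ℤ) (R : ℤ → Prop) (P : ℤ → Finset (Fin 5)) (c : ℤ → Fin 5) : Prop :=
  ∀ i, (R (i + w) ↔ R i) ∧ P (i + w) = P i ∧ c (i + w) = c i

/-- the rules for cycles of length three -/
structure Loc3 (R : ℤ → Prop) (P : ℤ → Finset (Fin 5)) (c : ℤ → Fin 5) (k : ℤ) : Prop where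
  E1 : R k → R (k + 1) → c k ∉ P k ∧ c k ∉ P (k + 1)
  E2 : R k → R (k + 1) → R (k + 2) → c k ≠ c (k + 1)
  N : R k → R (k + 1) → ¬ R (k + 2) → P k ≠ P (k + 1)

/-- a new vertex on a cycle of length three -/
structure Move3 (R : ℤ → Prop) (P : ℤ → Finset (Fin 5)) (c : ℤ → Fin 5)
    (Q : Finset (Fin 5)) (a b : Fin 5) : Prop where
  a1 : R (-1) → a ∉ P (-1) ∧ a ∉ Q
  b1 : R 1 → b ∉ P 1 ∧ b ∉ Q
  ab : R (-1) → R 1 → a ≠ b ∧ a ≠ c 1 ∧ b ≠ c 1
  n1 : R (-1) → ¬ R 1 → P (-1) ≠ Q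
  n2 : ¬ R (-1) → R 1 → Q ≠ P 1

theorem r3_insert_ne {x : Fin 5} {A B : Finset (Fin 5)} (hA : x ∉ A) (hB : x ∉ B) (h : A ≠ B) :
    insert x A ≠ insert x B := by
  intro he
  apply h
  rw [← erase_insert hA, he, erase_insert hB]

theorem move3_loc {R : ℤ → Prop} {P : ℤ → Finset (Fin 5)} {c : ℤ → Fin 5}
    {Q : Finset (Fin 5)} {a b : Fin 5} (hL : ∀ k, Loc3 R P c k) (hp : PerW 3 R P c)
    (h0 : ¬ R 0) (hM : Move3 R P c Q a b) (k : ℤ) (h1 : -3 < k) (h2 : k ≤ 0) :
    Loc3 (newR R) (newP P Q) (newc c a b) k := by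
  have q1 := hp (-2)
  have q2 := hp (-1)
  norm_num at q1 q2
  obtain ⟨r1, p1, c1⟩ := q1
  obtain ⟨r2, p2, c2⟩ := q2
  obtain ⟨a1, b1, ab, n1, n2⟩ := hM
  obtain ⟨e1, e2, n3⟩ := hL k
  have hk : k = -2 ∨ k = -1 ∨ k = 0 := by omega
  rcases hk with rfl | rfl | rfl <;> constructor <;> simp [newR, newP, newc] at * <;>
    norm_num at * <;> grind

theorem r3_step (R : ℤ → Prop) (P : ℤ → Finset (Fin 5)) (c : ℤ → Fin 5)
    (hL : ∀ k, Loc3 R P c k) (hp : PerW 3 R P c) (hP : ∀ i, R i → (P i).card = 2)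
    (h0 : ¬ R 0) :
    ∃ Bad : Finset (Finset (Fin 5)), Bad.card ≤ 3 ∧
      ∀ Q : Finset (Fin 5), Q.card = 2 → Q ∉ Bad → ∃ a b, Move3 R P c Q a b := by
  classical
  have hout : ∀ A Q : Finset (Fin 5), A.card = 2 → Q.card = 2 → ∃ a, a ∉ A ∧ a ∉ Q := by
    intro A Q hA hQ
    have h1 : (A ∪ Q).card ≤ 4 := (card_union_le _ _).trans (by omega)
    obtain ⟨a, ha⟩ : ∃ a, a ∉ A ∪ Q := by
      by_contra hno
      push_neg at hno
      have : A ∪ Q = univ := eq_univ_iff_forall.2 hno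
      rw [this, card_fin] at h1
      omega
    rw [mem_union, not_or] at ha
    exact ⟨a, ha.1, ha.2⟩
  by_cases hm1 : R (-1)
  · by_cases h1 : R 1
    · -- both neighbours
      have q1 := hp (-2)
      have q2 := hp (-1)
      have q3 := hp 0
      norm_num at q1 q2 q3
      have hE := (hL 1).E1
      have hN := (hL 1).N
      norm_num at hE hN
      rw [q2.1, q2.2.1] at hE
      rw [q2.1, q2.2.1, q3.1] at hN
      have hE := hE h1 hm1
      have hN := hN h1 hm1 h0
      obtain ⟨Bad, hB, hall⟩ := p_two (insert (c 1) (P (-1))) (insert (c 1) (P 1))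
        ((card_insert_le _ _).trans (by rw [hP _ hm1]))
        ((card_insert_le _ _).trans (by rw [hP _ h1]))
        (Or.inl (r3_insert_ne hE.2 hE.1 (fun h => hN h.symm)))
      refine ⟨Bad, hB, fun Q hQ hQn => ?_⟩
      obtain ⟨a, b, ha, hb, haQ, hbQ, hab⟩ := hall Q hQ hQn
      rw [mem_insert, not_or] at ha hb
      exact ⟨a, b, {
        a1 := fun _ => ⟨ha.2, haQ⟩
        b1 := fun _ => ⟨hb.2, hbQ⟩
        ab := fun _ _ => ⟨hab, ha.1, hb.1⟩
        n1 := fun _ h => absurd h1 h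
        n2 := fun h => absurd hm1 h }⟩
    · refine ⟨{P (-1)}, by simp, fun Q hQ hQn => ?_⟩
      rw [mem_singleton] at hQn
      obtain ⟨a, ha, haQ⟩ := hout _ Q (hP _ hm1) hQ
      exact ⟨a, a, {
        a1 := fun _ => ⟨ha, haQ⟩
        b1 := fun h => absurd h h1
        ab := fun _ h => absurd h h1
        n1 := fun _ _ h => hQn h.symm
        n2 := fun h => absurd hm1 h }⟩
  · by_cases h1 : R 1
    · refine ⟨{P 1}, by simp, fun Q hQ hQn => ?_⟩
      rw [mem_singleton] at hQn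
      obtain ⟨b, hb, hbQ⟩ := hout _ Q (hP _ h1) hQ
      exact ⟨b, b, {
        a1 := fun h => absurd h hm1
        b1 := fun _ => ⟨hb, hbQ⟩
        ab := fun h => absurd h hm1
        n1 := fun h => absurd h hm1
        n2 := fun _ _ => hQn }⟩
    · refine ⟨∅, by simp, fun Q hQ hQn => ?_⟩
      exact ⟨0, 0, {
        a1 := fun h => absurd h hm1
        b1 := fun h => absurd h h1
        ab := fun h => absurd h hm1
        n1 := fun h => absurd h hm1
        n2 := fun _ h => absurd h h1 }⟩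

theorem r3_rule : RuleOK 3 (PerW 3) Loc3 where
  w3 := le_rfl
  w7 := by norm_num
  congr := by
    intro R R' P P' c c' k h1 h2 h3 h
    have r0 := h1 k (by omega) (by omega)
    have r1 := h1 (k + 1) (by omega) (by omega)
    have r2 := h1 (k + 2) (by omega) (by omega)
    have p0 := h2 k (by omega) (by omega)
    have p1 := h2 (k + 1) (by omega) (by omega)
    have c0 := h3 k (by omega) (by omega)
    have c1 := h3 (k + 1) (by omega) (by omega)
    obtain ⟨E1, E2, N⟩ := h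
    rw [r0, r1, p0, p1, c0] at E1
    rw [r0, r1, r2, c0, c1] at E2
    rw [r0, r1, r2, p0, p1] at N
    exact ⟨E1, E2, N⟩
  shift := by
    intro R P c k j h
    obtain ⟨E1, E2, N⟩ := h
    constructor
    · simpa only [add_right_comm] using E1
    · simpa only [add_right_comm] using E2
    · simpa only [add_right_comm] using N
  zero := by
    intro R P c k h
    constructor <;> intro h1 <;> exact absurd h1 (h _)
  step := by
    intro R P c hL hp hP h0
    obtain ⟨Bad, hB, hall⟩ := r3_step R P c hL hp hP h0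
    refine ⟨Bad, hB, fun Q hQ hQn => ?_⟩
    obtain ⟨a, b, hM⟩ := hall Q hQ hQn
    exact ⟨a, b, fun k h1 h2 => move3_loc hL hp h0 hM k h1 h2⟩
  E1 := fun R P c k h => h.E1
  E2 := fun R P c k h => h.E2

end Pool.Agent.Lib.H84E
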