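import Mathlib
import Pool.Agent.Lib.H84E.N1
import Pool.Agent.Lib.H84E.R3

/-!
# H84E, module R5: the rules for cycles of length five
-/

set_option autoImplicit false

namespace Pool.Agent.Lib.H84E

open Finset

/-- the rules for cycles of length five -/
structure Loc5 (R : ℤ → Prop) (P : ℤ → Finset (Fin 5)) (c : ℤ → Fin 5) (k : ℤ) : Prop where
  E1 : R k → R (k + 1) → c k ∉ P k ∧ c k ∉ P (k + 1)
  E2 : R k → R (k + 1) → R (k + 2) → c k ≠ c (k + 1)
  J0 : R k → R (k + 1) → ¬ R (k + 2) → R (k + 3) → R (k + 4) →
    insert (c k) (P (k + 1)) ≠ insert (c (k + 3)) (P (k + 3))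
  K : R k → R (k + 1) → ¬ R (k + 2) → R (k + 3) → ¬ R (k + 4) → P k = P (k + 1) →
    ¬ P (k + 3) ⊆ insert (c k) (P k)

/-- a new vertex on a cycle of length five -/
structure Move5 (R : ℤ → Prop) (P : ℤ → Finset (Fin 5)) (c : ℤ → Fin 5)
    (Q : Finset (Fin 5)) (a b : Fin 5) : Prop where
  a1 : R (-1) → a ∉ P (-1) ∧ a ∉ Q
  b1 : R 1 → b ∉ P 1 ∧ b ∉ Q
  ab : R (-1) → R 1 → a ≠ b
  a2 : R (-1) → R (-2) → a ≠ c (-2)
  b2 : R 1 → R 2 → b ≠ c 1
  j1 : R (-1) → ¬ R 1 → R 2 → R (-2) → insert a Q ≠ insert (c 2) (P 2)
  j2 : R 2 → R (-2) → ¬ R (-1) → R 1 → insert (c 2) (P (-2)) ≠ insert b Q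
  j3 : R 1 → ¬ R 2 → R (-2) → R (-1) → insert b (P 1) ≠ insert (c (-2)) (P (-2))
  j4 : R 1 → R 2 → ¬ R (-2) → R (-1) → insert (c 1) (P 2) ≠ insert a (P (-1))
  k1 : R 1 → ¬ R 2 → R (-2) → ¬ R (-1) → Q ≠ P 1
  k2 : R (-1) → ¬ R 1 → R 2 → ¬ R (-2) → P (-1) ≠ Q
  k3 : R 2 → R (-2) → ¬ R (-1) → ¬ R 1 → P 2 = P (-2) → ¬ Q ⊆ insert (c 2) (P 2)

theorem move5_loc {R : ℤ → Prop} {P : ℤ → Finset (Fin 5)} {c : ℤ → Fin 5}
    {Q : Finset (Fin 5)} {a b : Fin 5} (hL : ∀ k, Loc5 R P c k) (hp : PerW 5 R P c)
    (h0 : ¬ R 0) (hM : Move5 R P c Q a b) (k : ℤ) (h1 : -5 < k) (h2 : k ≤ 0) :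
    Loc5 (newR R) (newP P Q) (newc c a b) k := by
  have q1 := hp (-4)
  have q2 := hp (-3)
  have q3 := hp (-2)
  have q4 := hp (-1)
  norm_num at q1 q2 q3 q4
  obtain ⟨r1, p1, c1⟩ := q1
  obtain ⟨r2, p2, c2⟩ := q2
  obtain ⟨r3, p3, c3⟩ := q3
  obtain ⟨r4, p4, c4⟩ := q4
  obtain ⟨a1, b1, ab, a2, b2, j1, j2, j3, j4, k1, k2, k3⟩ := hM
  obtain ⟨e1, e2, j0, kk⟩ := hL k
  have hk : k = -4 ∨ k = -3 ∨ k = -2 ∨ k = -1 ∨ k = 0 := by omega
  rcases hk with rfl | rfl | rfl | rfl | rfl <;> constructor <;> simp [newR, newP, newc] at * <;>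
    norm_num at * <;> grind

theorem r5_step (R : ℤ → Prop) (P : ℤ → Finset (Fin 5)) (c : ℤ → Fin 5)
    (hL : ∀ k, Loc5 R P c k) (hp : PerW 5 R P c) (hP : ∀ i, R i → (P i).card = 2)
    (h0 : ¬ R 0) :
    ∃ Bad : Finset (Finset (Fin 5)), Bad.card ≤ 3 ∧
      ∀ Q : Finset (Fin 5), Q.card = 2 → Q ∉ Bad → ∃ a b, Move5 R P c Q a b := by
  classical
  have q1 := hp (-4)
  have q2 := hp (-3)
  have q3 := hp (-2)
  have q4 := hp (-1)
  have q5 := hp 0
  norm_num at q1 q2 q3 q4 q5
  obtain ⟨r1, p1, c1⟩ := q1
  obtain ⟨r2, p2, c2⟩ := q2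
  obtain ⟨r3, p3, c3⟩ := q3
  obtain ⟨r4, p4, c4⟩ := q4
  obtain ⟨r5, p5, c5⟩ := q5
  have hout : ∀ A Q : Finset (Fin 5), A.card = 2 → Q.card = 2 → ∃ a, a ∉ A ∧ a ∉ Q := by
    intro A Q hA hQ
    have h1 : (A ∪ Q).card ≤ 4 := (card_union_le _ _).trans (by omega)
    obtain ⟨a, ha⟩ : ∃ a, a ∉ A ∪ Q := by
      by_contra hno
      push_neg at hno
      have : A ∪ Q = univ := eq_univ_iff_forall.2 hno
      rw [this, card_fin] at h1
      omega
    rw [mem_union, not_or] at ha
    exact ⟨a, ha.1, ha.2⟩
  have hins : ∀ (x : Fin 5) (A : Finset (Fin 5)), A.card = 2 → (insert x A).card ≤ 3 :=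
    fun x A hA => (card_insert_le _ _).trans (by rw [hA])
  -- a colour outside a triple for the forbidden extension
  by_cases hm1 : R (-1)
  · by_cases h1 : R 1
    · -- both neighbours
      by_cases hm2 : R (-2)
      · by_cases h2 : R 2
        · -- the last vertex
          have hJ := (hL (-2)).J0
          norm_num at hJ
          obtain ⟨Bad, hB, hall⟩ := p_two (insert (c (-2)) (P (-1))) (insert (c 1) (P 1))
            (hins _ _ (hP _ hm1)) (hins _ _ (hP _ h1)) (Or.inl (hJ hm2 hm1 h0 h1 h2))
          refine ⟨Bad, hB, fun Q hQ hQn => ?_⟩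
          obtain ⟨a, b, ha, hb, haQ, hbQ, hab⟩ := hall Q hQ hQn
          rw [mem_insert, not_or] at ha hb
          refine ⟨a, b, ?_⟩
          constructor <;> simp only [hm1, h1, hm2, h2, not_true, false_imp_iff, forall_true_left,
            implies_true]
          · exact ⟨ha.2, haQ⟩
          · exact ⟨hb.2, hbQ⟩
          · exact hab
          · exact ha.1
          · exact hb.1
        · -- missing: 0 and 2
          have hK := (hL (-2)).K
          norm_num at hK
          have hK := hK hm2 hm1 h0 h1 h2
          have hE := (hL (-2)).E1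
          norm_num at hE
          have hE := hE hm2 hm1
          obtain ⟨T, hT3, hTout, hTne⟩ : ∃ T : Finset (Fin 5), T.card ≤ 3 ∧
              (∀ b, b ∉ T → b ∉ P 1 ∧ insert b (P 1) ≠ insert (c (-2)) (P (-2))) ∧
              (insert (c (-2)) (P (-1)) ≠ T) := by
            by_cases hs : P 1 ⊆ insert (c (-2)) (P (-2))
            · refine ⟨insert (c (-2)) (P (-2)), hins _ _ (hP _ hm2), ?_, ?_⟩
              · intro b hb
                refine ⟨fun h => hb (hs h), fun h => hb ?_⟩
                rw [← h]
                exact mem_insert_self _ _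
              · apply r3_insert_ne hE.2 hE.1
                intro h
                exact hK h.symm hs
            · refine ⟨P 1, by rw [hP _ h1]; norm_num, ?_, ?_⟩
              · intro b hb
                refine ⟨hb, fun h => hs ?_⟩
                rw [← h]
                exact subset_insert _ _
              · intro h
                have h2 := congrArg card h
                rw [card_insert_of_notMem hE.2, hP _ hm1, hP _ h1] at h2
                omega
          obtain ⟨Bad, hB, hall⟩ := p_two (insert (c (-2)) (P (-1))) T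
            (hins _ _ (hP _ hm1)) hT3 (Or.inl hTne)
          refine ⟨Bad, hB, fun Q hQ hQn => ?_⟩
          obtain ⟨a, b, ha, hb, haQ, hbQ, hab⟩ := hall Q hQ hQn
          rw [mem_insert, not_or] at ha
          have hb' := hTout b hb
          refine ⟨a, b, ?_⟩
          constructor <;> simp only [hm1, h1, hm2, h2, not_true, false_imp_iff, forall_true_left,
            implies_true, not_false_iff]
          · exact ⟨ha.2, haQ⟩
          · exact ⟨hb'.1, hbQ⟩
          · exact hab
          · exact ha.1
          · exact hb'.2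
      · by_cases h2 : R 2
        · -- missing: 0 and -2
          have hK := (hL 1).K
          norm_num at hK
          rw [r3, r4, r5, p4] at hK
          have hK := hK h1 h2 hm2 hm1 h0
          have hE := (hL 1).E1
          norm_num at hE
          have hE := hE h1 h2
          obtain ⟨T, hT3, hTout, hTne⟩ : ∃ T : Finset (Fin 5), T.card ≤ 3 ∧
              (∀ a, a ∉ T → a ∉ P (-1) ∧ insert (c 1) (P 2) ≠ insert a (P (-1))) ∧
              (T ≠ insert (c 1) (P 1)) := by
            by_cases hs : P (-1) ⊆ insert (c 1) (P 2)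
            · refine ⟨insert (c 1) (P 2), hins _ _ (hP _ h2), ?_, ?_⟩
              · intro b hb
                refine ⟨fun h => hb (hs h), fun h => hb ?_⟩
                rw [h]
                exact mem_insert_self _ _
              · apply r3_insert_ne hE.2 hE.1
                intro h
                rw [h] at hs
                exact hK h.symm hs
            · refine ⟨P (-1), by rw [hP _ hm1]; norm_num, ?_, ?_⟩
              · intro b hb
                refine ⟨hb, fun h => hs ?_⟩
                rw [h]
                exact subset_insert _ _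
              · intro h
                have h2 := congrArg card h
                rw [card_insert_of_notMem hE.1, hP _ hm1, hP _ h1] at h2
                omega
          obtain ⟨Bad, hB, hall⟩ := p_two T (insert (c 1) (P 1)) hT3
            (hins _ _ (hP _ h1)) (Or.inl hTne)
          refine ⟨Bad, hB, fun Q hQ hQn => ?_⟩
          obtain ⟨a, b, ha, hb, haQ, hbQ, hab⟩ := hall Q hQ hQn
          rw [mem_insert, not_or] at hb
          have ha' := hTout a ha
          refine ⟨a, b, ?_⟩
          constructor <;> simp only [hm1, h1, hm2, h2, not_true, false_imp_iff, forall_true_left,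
            implies_true, not_false_iff]
          · exact ⟨ha'.1, haQ⟩
          · exact ⟨hb.2, hbQ⟩
          · exact hab
          · exact hb.1
          · exact ha'.2
        · -- missing: 0, 2, -2
          obtain ⟨Bad, hB, hall⟩ := p_two (P (-1)) (P 1) (by rw [hP _ hm1]; norm_num)
            (by rw [hP _ h1]; norm_num) (Or.inr (by rw [hP _ hm1]))
          refine ⟨Bad, hB, fun Q hQ hQn => ?_⟩
          obtain ⟨a, b, ha, hb, haQ, hbQ, hab⟩ := hall Q hQ hQn
          refine ⟨a, b, ?_⟩
          constructor <;> simp only [hm1, h1, hm2, h2, not_true, false_imp_iff, forall_true_left,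
            implies_true, not_false_iff]
          · exact ⟨ha, haQ⟩
          · exact ⟨hb, hbQ⟩
          · exact hab
    · -- only the left neighbour
      by_cases hm2 : R (-2)
      · by_cases h2 : R 2
        · obtain ⟨Bad, hB, hall⟩ := p_one (insert (c (-2)) (P (-1))) (hins _ _ (hP _ hm1))
            (fun T => T = insert (c 2) (P 2)) (fun T T' _ _ h h' => h.trans h'.symm)
          refine ⟨Bad, hB, fun Q hQ hQn => ?_⟩
          obtain ⟨a, ha, haQ, hZ⟩ := hall Q hQ hQn
          rw [mem_insert, not_or] at ha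
          refine ⟨a, a, ?_⟩
          constructor <;> simp only [hm1, h1, hm2, h2, not_true, false_imp_iff, forall_true_left,
            implies_true, not_false_iff]
          · exact ⟨ha.2, haQ⟩
          · exact ha.1
          · exact hZ
        · obtain ⟨Bad, hB, hall⟩ := p_one (insert (c (-2)) (P (-1))) (hins _ _ (hP _ hm1))
            (fun T => False) (fun T T' _ _ h h' => h.elim)
          refine ⟨Bad, hB, fun Q hQ hQn => ?_⟩
          obtain ⟨a, ha, haQ, -⟩ := hall Q hQ hQn
          rw [mem_insert, not_or] at ha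
          refine ⟨a, a, ?_⟩
          constructor <;> simp only [hm1, h1, hm2, h2, not_true, false_imp_iff, forall_true_left,
            implies_true, not_false_iff]
          · exact ⟨ha.2, haQ⟩
          · exact ha.1
      · refine ⟨{P (-1)}, by simp, fun Q hQ hQn => ?_⟩
        rw [mem_singleton] at hQn
        obtain ⟨a, ha, haQ⟩ := hout _ Q (hP _ hm1) hQ
        refine ⟨a, a, ?_⟩
        constructor <;> simp only [hm1, h1, hm2, not_true, false_imp_iff, forall_true_left,
          implies_true, not_false_iff]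
        · exact ⟨ha, haQ⟩
        · exact fun _ h => hQn h.symm
  · by_cases h1 : R 1
    · -- only the right neighbour
      by_cases h2 : R 2
      · by_cases hm2 : R (-2)
        · obtain ⟨Bad, hB, hall⟩ := p_one (insert (c 1) (P 1)) (hins _ _ (hP _ h1))
            (fun T => T = insert (c 2) (P (-2))) (fun T T' _ _ h h' => h.trans h'.symm)
          refine ⟨Bad, hB, fun Q hQ hQn => ?_⟩
          obtain ⟨b, hb, hbQ, hZ⟩ := hall Q hQ hQn
          rw [mem_insert, not_or] at hb
          refine ⟨b, b, ?_⟩
          constructor <;> simp only [hm1, h1, hm2, h2, not_true, false_imp_iff, forall_true_left,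
            implies_true, not_false_iff]
          · exact ⟨hb.2, hbQ⟩
          · exact hb.1
          · exact fun h => hZ h.symm
        · obtain ⟨Bad, hB, hall⟩ := p_one (insert (c 1) (P 1)) (hins _ _ (hP _ h1))
            (fun T => False) (fun T T' _ _ h h' => h.elim)
          refine ⟨Bad, hB, fun Q hQ hQn => ?_⟩
          obtain ⟨b, hb, hbQ, -⟩ := hall Q hQ hQn
          rw [mem_insert, not_or] at hb
          refine ⟨b, b, ?_⟩
          constructor <;> simp only [hm1, h1, hm2, h2, not_true, false_imp_iff, forall_true_left,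
            implies_true, not_false_iff]
          · exact ⟨hb.2, hbQ⟩
          · exact hb.1
      · refine ⟨{P 1}, by simp, fun Q hQ hQn => ?_⟩
        rw [mem_singleton] at hQn
        obtain ⟨b, hb, hbQ⟩ := hout _ Q (hP _ h1) hQ
        refine ⟨b, b, ?_⟩
        constructor <;> simp only [hm1, h1, h2, not_true, false_imp_iff, forall_true_left,
          implies_true, not_false_iff]
        · exact ⟨hb, hbQ⟩
        · exact fun _ => hQn
    · -- no neighbour
      by_cases hk : R 2 ∧ R (-2)
      · refine ⟨powersetCard 2 (insert (c 2) (P 2)), ?_, fun Q hQ hQn => ?_⟩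
        · rw [card_powersetCard]
          calc (insert (c 2) (P 2)).card.choose 2 ≤ Nat.choose 3 2 :=
                Nat.choose_le_choose 2 (hins _ _ (hP _ hk.1))
            _ = 3 := by decide
        · refine ⟨0, 0, ?_⟩
          constructor <;> simp only [hm1, h1, not_true, false_imp_iff, forall_true_left,
            implies_true, not_false_iff]
          exact fun _ _ _ h => hQn (mem_powersetCard.2 ⟨h, hQ⟩)
      · refine ⟨∅, by simp, fun Q hQ hQn => ?_⟩
        refine ⟨0, 0, ?_⟩
        constructor <;> simp only [hm1, h1, not_true, false_imp_iff, forall_true_left,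
          implies_true, not_false_iff]
        exact fun h h' => absurd ⟨h, h'⟩ hk

theorem r5_rule : RuleOK 5 (PerW 5) Loc5 where
  w3 := by norm_num
  w7 := by norm_num
  congr := by
    intro R R' P P' c c' k h1 h2 h3 h
    have r0 := h1 k (by omega) (by omega)
    have r1 := h1 (k + 1) (by omega) (by omega)
    have r2 := h1 (k + 2) (by omega) (by omega)
    have r3 := h1 (k + 3) (by omega) (by omega)
    have r4 := h1 (k + 4) (by omega) (by omega)
    have p0 := h2 k (by omega) (by omega)
    have p1 := h2 (k + 1) (by omega) (by omega)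
    have p3 := h2 (k + 3) (by omega) (by omega)
    have c0 := h3 k (by omega) (by omega)
    have c1 := h3 (k + 1) (by omega) (by omega)
    have c3 := h3 (k + 3) (by omega) (by omega)
    obtain ⟨E1, E2, J0, K⟩ := h
    rw [r0, r1, p0, p1, c0] at E1
    rw [r0, r1, r2, c0, c1] at E2
    rw [r0, r1, r2, r3, r4, p1, p3, c0, c3] at J0
    rw [r0, r1, r2, r3, r4, p0, p1, p3, c0] at K
    exact ⟨E1, E2, J0, K⟩
  shift := by
    intro R P c k j h
    obtain ⟨E1, E2, J0, K⟩ := h
    constructor
    · simpa only [add_right_comm] using E1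
    · simpa only [add_right_comm] using E2
    · simpa only [add_right_comm] using J0
    · simpa only [add_right_comm] using K
  zero := by
    intro R P c k h
    constructor <;> intro h1 <;> exact absurd h1 (h _)
  step := by
    intro R P c hL hp hP h0
    obtain ⟨Bad, hB, hall⟩ := r5_step R P c hL hp hP h0
    refine ⟨Bad, hB, fun Q hQ hQn => ?_⟩
    obtain ⟨a, b, hM⟩ := hall Q hQ hQn
    exact ⟨a, b, fun k h1 h2 => move5_loc hL hp h0 hM k h1 h2⟩
  E1 := fun R P c k h => h.E1
  E2 := fun R P c k h => h.E2

end Pool.Agent.Lib.H84E
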