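import Mathlib
import Pool.Agent.Lib.H84E.M5
import Pool.Agent.Lib.H84E.C
import Pool.Agent.Lib.H84E.K
import Pool.Agent.Lib.H84E.N3
import Pool.Agent.Lib.H84E.R5

/-!
# H84E, module G2: pairs of generators
-/

set_option autoImplicit false

namespace Pool.Agent.Lib.H84E

variable {Γ : Type*} [Group Γ] {X : Type*} [MulAction Γ X]

/-- from a pair colouring to colours of directions -/
theorem g2_dir [MeasurableSpace X] [DecidableEq Γ]
    (hm : ∀ γ : Γ, Measurable (fun x : X => γ • x)) {s t : Γ} (hss : s⁻¹ ≠ s) (htt : t⁻¹ ≠ t)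
    (h1 : t ≠ s) (h2 : t ≠ s⁻¹) (h : PairCol X s t) :
    DirCol X ({s, s⁻¹, t, t⁻¹} : Finset Γ) 5 := by
  obtain ⟨e, c, he, hc, p1, p2, p3, p4⟩ := h
  have s1 : s ≠ t := h1.symm
  have s2 : s ≠ t⁻¹ := by
    rintro rfl
    exact h2 (inv_inv t).symm
  have s3 : s⁻¹ ≠ t := h2.symm
  have s4 : s⁻¹ ≠ t⁻¹ := fun h => s1 (inv_injective h)
  have hv : Measurable (fun i : Fin 5 => (i : ℕ)) := Measurable.of_discrete
  refine ⟨fun g x => if g = s then (e x : ℕ) else if g = s⁻¹ then (e (s⁻¹ • x) : ℕ) else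
    if g = t then (c x : ℕ) else (c (t⁻¹ • x) : ℕ), ?_, ?_, ?_, ?_⟩
  · intro g _
    by_cases g1 : g = s
    · simp only [g1, if_true]
      exact hv.comp he
    · by_cases g2 : g = s⁻¹
      · simp only [g2, hss, if_false, if_true]
        exact hv.comp (he.comp (hm _))
      · by_cases g3 : g = t
        · simp only [g3, s1.symm, s3.symm, if_false, if_true]
          exact hv.comp hc
        · simp only [g1, g2, g3, if_false]
          exact hv.comp (hc.comp (hm _))
  · intro g _ x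
    simp only
    split_ifs
    · exact (e x).2
    · exact (e _).2
    · exact (c _).2
    · exact (c _).2
  · intro g hg x
    simp only [Finset.mem_insert, Finset.mem_singleton] at hg
    rcases hg with rfl | rfl | rfl | rfl
    · simp only [hss, if_false, if_true, inv_smul_smul]
    · simp only [hss, inv_inv, if_false, if_true]
    · simp only [s1.symm, s3.symm, htt, if_false, if_true, inv_smul_smul,
        s2.symm, s4.symm]
    · simp only [s1.symm, s3.symm, htt, if_false, if_true, inv_inv,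
        s2.symm, s4.symm]
  · intro g hg g' hg' hgg x
    have k1 : (e x : ℕ) ≠ (e (s⁻¹ • x) : ℕ) := fun h => p1 x (Fin.ext h.symm)
    have k2 : (c x : ℕ) ≠ (e x : ℕ) := fun h => (p3 x).2 (Fin.ext h)
    have k3 : (c x : ℕ) ≠ (e (s⁻¹ • x) : ℕ) := fun h => (p3 x).1 (Fin.ext h)
    have k4 : (c (t⁻¹ • x) : ℕ) ≠ (e x : ℕ) := fun h => by
      have := (p4 (t⁻¹ • x)).2
      rw [smul_inv_smul] at this
      exact this (Fin.ext h)
    have k5 : (c (t⁻¹ • x) : ℕ) ≠ (e (s⁻¹ • x) : ℕ) := fun h => by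
      have := (p4 (t⁻¹ • x)).1
      rw [smul_inv_smul] at this
      exact this (Fin.ext h)
    have k6 : (c (t⁻¹ • x) : ℕ) ≠ (c x : ℕ) := fun h => by
      have := p2 (t⁻¹ • x)
      rw [smul_inv_smul] at this
      exact this (Fin.ext h)
    simp only [Finset.mem_insert, Finset.mem_singleton] at hg hg'
    rcases hg with rfl | rfl | rfl | rfl <;> rcases hg' with h | h | h | h <;>
      first
      | exact absurd h.symm hgg
      | (subst h
         simp only [s1.symm, s3.symm, htt, if_false, if_true, s2.symm, s4.symm, hss]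
         omega)

theorem g2_ne_inv {s : Γ} (h : 3 ≤ orderOf s ∨ orderOf s = 0) : s⁻¹ ≠ s := by
  intro h1
  have h5 : s ^ 2 = 1 := by
    rw [pow_two]
    nth_rewrite 1 [← h1]
    exact inv_mul_cancel s
  have h6 := orderOf_dvd_of_pow_eq_one h5
  rcases h with h | h
  · have := Nat.le_of_dvd (by norm_num) h6
    omega
  · rw [h] at h6
    omega

/-- one generator of finite order at least three and one of infinite order -/
theorem g2_inf [MeasurableSpace X] [StandardBorelSpace X]
    (hm : ∀ γ : Γ, Measurable (fun x : X => γ • x))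
    (hfree : ∀ (γ : Γ) (x : X), γ • x = x → γ = 1) {s t : Γ} (hs : 3 ≤ orderOf s)
    (ht : orderOf t = 0) : PairCol X s t := by
  refine m5_main hm hfree s t hs ?_
  intro j hj _ hmem
  obtain ⟨k, hk⟩ := Subgroup.mem_zpowers_iff.1 hmem
  have h1 : IsOfFinOrder (s ^ k) := by
    refine IsOfFinOrder.zpow ?_
    rw [← orderOf_pos_iff]
    omega
  rw [hk] at h1
  have h2 : ¬ IsOfFinOrder t := by rw [← orderOf_eq_zero_iff]; exact ht
  apply h2
  rw [isOfFinOrder_iff_pow_eq_one] at h1 ⊢
  obtain ⟨n, hn, h3⟩ := h1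
  refine ⟨j.natAbs * n, Nat.mul_pos (Int.natAbs_pos.2 hj) hn, ?_⟩
  rcases Int.natAbs_eq j with h | h
  · rw [h, zpow_natCast, ← pow_mul] at h3
    exact h3
  · rw [h, zpow_neg, zpow_natCast, inv_pow, ← pow_mul, inv_eq_one] at h3
    exact h3

/-- the relative order: least positive exponent with `t ^ j ∈ ⟨s⟩` -/
theorem g2_rel (s t : Γ) (ht : 0 < orderOf t) : ∃ q : ℕ, 0 < q ∧ q ∣ orderOf t ∧
    (∀ j : ℤ, t ^ j ∈ Subgroup.zpowers s ↔ (q : ℤ) ∣ j) := by
  classical
  have hex : ∃ q : ℕ, 0 < q ∧ t ^ q ∈ Subgroup.zpowers s :=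
    ⟨orderOf t, ht, by rw [pow_orderOf_eq_one]; exact Subgroup.one_mem _⟩
  obtain ⟨hq0, hq⟩ := Nat.find_spec hex
  set q := Nat.find hex with hqdef
  have hiff : ∀ j : ℤ, t ^ j ∈ Subgroup.zpowers s ↔ (q : ℤ) ∣ j := by
    intro j
    constructor
    · intro hj
      have hq' : (0 : ℤ) < q := by exact_mod_cast hq0
      have h1 : t ^ (j % q) ∈ Subgroup.zpowers s := by
        have h2 : t ^ (j % q) = t ^ j * (t ^ q)⁻¹ ^ (j / q) := by
          have h3 : j = q * (j / q) + j % q := (Int.mul_ediv_add_emod j q).symm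
          have h4 : t ^ j = t ^ (j % q) * (t ^ q) ^ (j / q) := by
            conv_lhs => rw [h3]
            rw [add_comm, zpow_add, zpow_mul, zpow_natCast]
          rw [h4, inv_zpow, mul_assoc, mul_inv_cancel, mul_one]
        rw [h2]
        exact Subgroup.mul_mem _ hj (Subgroup.zpow_mem _ (Subgroup.inv_mem _ hq) _)
      have h5 : (j % q).toNat = 0 := by
        by_contra hne
        have h6 : ((j % q).toNat : ℤ) = j % q := Int.toNat_of_nonneg (Int.emod_nonneg _ hq'.ne')
        have h7 : q ≤ (j % q).toNat := by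
          apply Nat.find_min' hex
          refine ⟨Nat.pos_of_ne_zero hne, ?_⟩
          rw [← zpow_natCast, h6]
          exact h1
        have h8 := Int.emod_lt_of_pos j hq'
        omega
      have h6 := Int.emod_nonneg j hq'.ne'
      exact Int.dvd_of_emod_eq_zero (by omega)
    · rintro ⟨k, rfl⟩
      rw [zpow_mul, zpow_natCast]
      exact Subgroup.zpow_mem _ hq _
  refine ⟨q, hq0, ?_, hiff⟩
  have h1 : t ^ ((orderOf t : ℕ) : ℤ) ∈ Subgroup.zpowers s := by
    rw [zpow_natCast, pow_orderOf_eq_one]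
    exact Subgroup.one_mem _
  exact Int.natCast_dvd_natCast.1 ((hiff _).1 h1)

/-- small relative order: periodic lines -/
theorem g2_small [MeasurableSpace X] [StandardBorelSpace X]
    (hm : ∀ γ : Γ, Measurable (fun x : X => γ • x))
    (hfree : ∀ (γ : Γ) (x : X), γ • x = x → γ = 1) {s t : Γ} (hs : 0 < orderOf s)
    {q w : ℕ} (hq : q ∣ orderOf s) (hq3 : 3 ≤ q)
    (hqs : ∀ j : ℤ, s ^ j ∈ Subgroup.zpowers t ↔ (q : ℤ) ∣ j)
    (hwt : ∀ j : ℤ, t ^ j ∈ Subgroup.zpowers s ↔ (w : ℤ) ∣ j)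
    {L : (ℤ → Prop) → (ℤ → Finset (Fin 5)) → (ℤ → Fin 5) → ℤ → Prop}
    (hL : RuleOK (w : ℤ) (PerW w) L) : PairCol X s t := by
  have hsq : s ^ q ∈ Subgroup.zpowers t := by
    have := (hqs (q : ℤ)).2 dvd_rfl
    rwa [zpow_natCast] at this
  have hcomm : Commute (s ^ q) t := by
    obtain ⟨k, hk⟩ := Subgroup.mem_zpowers_iff.1 hsq
    rw [← hk]
    exact (Commute.refl t).zpow_left k
  -- `t ^ w` is a power of `s ^ q`
  obtain ⟨u, hu⟩ : ∃ u : ℤ, t ^ (w : ℤ) = (s ^ q) ^ u := by
    obtain ⟨k, hk⟩ := Subgroup.mem_zpowers_iff.1 ((hwt (w : ℤ)).2 dvd_rfl)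
    have h1 : s ^ k ∈ Subgroup.zpowers t := by
      rw [hk]
      exact Subgroup.zpow_mem _ (Subgroup.mem_zpowers t) _
    obtain ⟨u, hu⟩ := (hqs k).1 h1
    refine ⟨u, ?_⟩
    rw [← hk, hu, zpow_mul, zpow_natCast]
  refine n3_main hm hfree hL hq3 hcomm hs hq ?_ ?_
  · intro j hj hjw hmem
    have h1 := (hwt j).1 hmem
    exact hj (Int.eq_zero_of_abs_lt_dvd h1 hjw)
  · intro col n e c hcs hinv x i
    have hcq : ∀ x, col (s ^ q • x) = col x := by
      have : ∀ (k : ℕ) (x : X), col (s ^ k • x) = col x := by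
        intro k
        induction k with
        | zero => intro x; simp
        | succ k ih =>
          intro x
          rw [pow_succ', ← smul_smul, hcs, ih]
      exact this q
    -- functions invariant under `s ^ q` are invariant under its powers
    have hinvz : ∀ {β : Type} (f : X → β), (∀ x, f (s ^ q • x) = f x) →
        ∀ (u : ℤ) (x : X), f ((s ^ q) ^ u • x) = f x := by
      intro β f hf u
      have hpos : ∀ (k : ℕ) (x : X), f ((s ^ q) ^ k • x) = f x := by
        intro k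
        induction k with
        | zero => intro x; simp
        | succ k ih =>
          intro x
          rw [pow_succ', ← smul_smul, hf, ih]
      intro x
      rcases Int.eq_nat_or_neg u with ⟨k, h | h⟩
      · rw [h, zpow_natCast, hpos]
      · rw [h, zpow_neg, zpow_natCast]
        have := hpos k (((s ^ q) ^ k)⁻¹ • x)
        rw [smul_inv_smul] at this
        exact this.symm
    have e1 : t ^ (i + (w : ℤ)) • x = (s ^ q) ^ u • t ^ i • x := by
      rw [add_comm, zpow_add, hu, smul_smul]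
    have e2 : ∀ y : X, s⁻¹ • (s ^ q) ^ u • y = (s ^ q) ^ u • s⁻¹ • y := by
      intro y
      rw [smul_smul, smul_smul]
      congr 1
      exact ((((Commute.refl s).inv_left).pow_right q).zpow_right u).eq
    refine ⟨?_, ?_, ?_⟩
    · simp only [lR, e1]
      rw [hinvz col hcq]
    · simp only [lP, pr, e1]
      rw [e2, hinvz e hinv.eq, hinvz e hinv.eq]
    · simp only [lc, e1]
      rw [hinvz c hinv.cq]

/-- two generators of odd order -/
theorem g2_odd [MeasurableSpace X] [StandardBorelSpace X]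
    (hm : ∀ γ : Γ, Measurable (fun x : X => γ • x))
    (hfree : ∀ (γ : Γ) (x : X), γ • x = x → γ = 1) {s t : Γ} (hs : Odd (orderOf s))
    (hs1 : orderOf s ≠ 1) (ht : Odd (orderOf t)) (ht1 : orderOf t ≠ 1)
    (h1 : t ≠ s) (h2 : t ≠ s⁻¹) : PairCol X s t ∨ PairCol X t s := by
  have hs0 := hs.pos
  have ht0 := ht.pos
  have s1 : s ≠ 1 := fun h => hs1 (orderOf_eq_one_iff.2 h)
  have t1 : t ≠ 1 := fun h => ht1 (orderOf_eq_one_iff.2 h)
  obtain ⟨w, hw0, hwd, hw⟩ := g2_rel s t ht0
  obtain ⟨q, hq0, hqd, hq⟩ := g2_rel t s hs0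
  have hwo : Odd w := ht.of_dvd_nat hwd
  have hqo : Odd q := hs.of_dvd_nat hqd
  by_cases hw1 : w = 1
  · left
    refine k_pair hm hfree hs hs1 ?_ t1 h1 h2
    have := (hw 1).2 (by rw [hw1]; exact dvd_rfl)
    rwa [zpow_one] at this
  by_cases hq1 : q = 1
  · right
    refine k_pair hm hfree ht ht1 ?_ s1 h1.symm ?_
    · have := (hq 1).2 (by rw [hq1]; exact dvd_rfl)
      rwa [zpow_one] at this
    · rintro rfl
      exact h2 (inv_inv t).symm
  left
  have hq3 : 3 ≤ q := by
    rcases hqo with ⟨k, hk⟩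
    omega
  by_cases hw7 : 7 ≤ w
  · refine m5_main hm hfree s t ?_ ?_
    · exact hq3.trans (Nat.le_of_dvd hs0 hqd)
    · intro j hj hj7 hmem
      have h3 := (hw j).1 hmem
      have h4 : |j| < (w : ℤ) := hj7.trans_le (by exact_mod_cast hw7)
      exact hj (Int.eq_zero_of_abs_lt_dvd h3 h4)
  · have hw35 : w = 3 ∨ w = 5 := by
      rcases hwo with ⟨k, hk⟩
      omega
    rcases hw35 with rfl | rfl
    · exact g2_small hm hfree hs0 hqd hq3 hq hw r3_rule
    · exact g2_small hm hfree hs0 hqd hq3 hq hw r5_rule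

end Pool.Agent.Lib.H84E
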