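import Mathlib
import Pool.Agent.Lib.H84E.G

/-!
# H84E, module Main: all symmetric sets
-/

set_option autoImplicit false

namespace Pool.Agent.Lib.H84E

variable {Γ : Type*} [Group Γ] {X : Type*} [MulAction Γ X]

/-- the number of pairs of elements of infinite order -/
noncomputable def pI (S : Finset Γ) : ℕ := (S.filter (fun s => orderOf s = 0)).card / 2

/-- the number of pairs of elements of odd order -/
noncomputable def pO (S : Finset Γ) : ℕ := (S.filter (fun s => Odd (orderOf s) ∧ orderOf s ≠ 1)).card / 2

theorem g_ne_inv {s : Γ} (h : orderOf s ≠ 2) (h1 : s ≠ 1) : s ≠ s⁻¹ := by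
  intro h2
  have h5 : s ^ 2 = 1 := by
    rw [pow_two]
    nth_rewrite 2 [h2]
    exact mul_inv_cancel s
  have h6 := orderOf_dvd_of_pow_eq_one h5
  rcases (Nat.dvd_prime Nat.prime_two).1 h6 with h | h
  · exact h1 (orderOf_eq_one_iff.1 h)
  · contradiction

/-- the pair `{s, s⁻¹}` in a filter -/
theorem g_filter_pair [DecidableEq Γ] {s : Γ} (hne : s ≠ s⁻¹) (p : Γ → Prop) [DecidablePred p]
    (hp : p s ↔ p s⁻¹) :
    (({s, s⁻¹} : Finset Γ).filter p).card = if p s then 2 else 0 := by
  split_ifs with h
  · rw [Finset.filter_true_of_mem]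
    · exact Finset.card_pair hne
    · intro x hx
      rcases Finset.mem_insert.1 hx with rfl | hx
      · exact h
      · rw [Finset.mem_singleton] at hx
        subst hx
        exact hp.1 h
  · rw [Finset.card_eq_zero, Finset.filter_eq_empty_iff]
    intro x hx
    rcases Finset.mem_insert.1 hx with rfl | hx
    · exact h
    · rw [Finset.mem_singleton] at hx
      subst hx
      exact fun h' => h (hp.2 h')

theorem g_card_sdiff [DecidableEq Γ] {S T : Finset Γ} (hT : T ⊆ S) (p : Γ → Prop)
    [DecidablePred p] :
    ((S \ T).filter p).card + (T.filter p).card = (S.filter p).card := by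
  rw [← Finset.card_union_of_disjoint]
  · congr 1
    rw [← Finset.filter_union, Finset.sdiff_union_of_subset hT]
  · exact Finset.disjoint_filter_filter Finset.sdiff_disjoint

/-- removal of a symmetric part -/
theorem g_peel [MeasurableSpace X] [DecidableEq Γ] {S T : Finset Γ} {k n : ℕ} (hT : T ⊆ S)
    (hS : ∀ s ∈ S, s⁻¹ ∈ S) (hTs : ∀ s ∈ T, s⁻¹ ∈ T)
    (hc : DirCol X T k) (h : DirCol X (S \ T) n) : DirCol X S (n + k) := by
  have hsd : ∀ s ∈ S \ T, s⁻¹ ∈ S \ T := by
    intro s hs
    rw [Finset.mem_sdiff] at hs ⊢
    refine ⟨hS s hs.1, fun h => hs.2 ?_⟩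
    have := hTs _ h
    rwa [inv_inv] at this
  have := c_union hsd hTs Finset.sdiff_disjoint h hc
  rwa [Finset.sdiff_union_of_subset hT] at this

theorem g_main [MeasurableSpace X] [StandardBorelSpace X]
    (hm : ∀ γ : Γ, Measurable (fun x : X => γ • x))
    (hfree : ∀ (γ : Γ) (x : X), γ • x = x → γ = 1) (N : ℕ) :
    ∀ S : Finset Γ, S.card ≤ N → (∀ s ∈ S, s⁻¹ ∈ S) → (1 : Γ) ∉ S →
      DirCol X S (S.card + max (pI S) (pO S)) := by
  classical
  induction N with
  | zero =>
    intro S hS _ _
    have : S = ∅ := Finset.card_eq_zero.1 (Nat.le_zero.1 hS)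
    subst this
    exact ⟨fun _ _ => 0, by simp, by simp, by simp, by simp⟩
  | succ N ih =>
    intro S hN hS h1
    have hone : ∀ s ∈ S, s ≠ 1 := fun s hs h => h1 (h ▸ hs)
    -- the induction hypothesis for `S \ T`
    have hrec : ∀ T : Finset Γ, T ⊆ S → (∀ s ∈ T, s⁻¹ ∈ T) → 0 < T.card →
        DirCol X (S \ T) ((S \ T).card + max (pI (S \ T)) (pO (S \ T))) := by
      intro T hT hTs hTc
      apply ih
      · have := Finset.card_sdiff_add_card_eq_card hT
        omega
      · intro s hs
        rw [Finset.mem_sdiff] at hs ⊢
        refine ⟨hS s hs.1, fun h => hs.2 ?_⟩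
        have := hTs _ h
        rwa [inv_inv] at this
      · intro h
        exact h1 (Finset.mem_sdiff.1 h).1
    -- general removal
    have hgen : ∀ (T : Finset Γ) (k : ℕ), T ⊆ S → (∀ s ∈ T, s⁻¹ ∈ T) → 0 < T.card →
        DirCol X T k →
        (S \ T).card + max (pI (S \ T)) (pO (S \ T)) + k = S.card + max (pI S) (pO S) →
        DirCol X S (S.card + max (pI S) (pO S)) := by
      intro T k hT hTs hTc hk he
      rw [← he]
      exact g_peel hT hS hTs hk (hrec T hT hTs hTc)
    have hcard : ∀ T : Finset Γ, T ⊆ S → (S \ T).card + T.card = S.card := fun T hT =>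
      Finset.card_sdiff_add_card_eq_card hT
    have hpI : ∀ T : Finset Γ, T ⊆ S → ((S \ T).filter (fun s => orderOf s = 0)).card +
        (T.filter (fun s => orderOf s = 0)).card = (S.filter (fun s => orderOf s = 0)).card :=
      fun T hT => g_card_sdiff hT _
    have hpO : ∀ T : Finset Γ, T ⊆ S →
        ((S \ T).filter (fun s => Odd (orderOf s) ∧ orderOf s ≠ 1)).card +
        (T.filter (fun s => Odd (orderOf s) ∧ orderOf s ≠ 1)).card =
          (S.filter (fun s => Odd (orderOf s) ∧ orderOf s ≠ 1)).card :=
      fun T hT => g_card_sdiff hT _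
    have hsym2 : ∀ s : Γ, ∀ g ∈ ({s, s⁻¹} : Finset Γ), g⁻¹ ∈ ({s, s⁻¹} : Finset Γ) := by
      intro s g hg
      rcases Finset.mem_insert.1 hg with rfl | hg
      · simp
      · rw [Finset.mem_singleton] at hg
        subst hg
        simp
    have hsub2 : ∀ s ∈ S, ({s, s⁻¹} : Finset Γ) ⊆ S := by
      intro s hs g hg
      rcases Finset.mem_insert.1 hg with rfl | hg
      · exact hs
      · rw [Finset.mem_singleton] at hg
        subst hg
        exact hS s hs
    have hI2 : ∀ s : Γ, s ≠ s⁻¹ → (({s, s⁻¹} : Finset Γ).filter (fun s => orderOf s = 0)).card =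
        if orderOf s = 0 then 2 else 0 := fun s hs =>
      g_filter_pair hs _ (by rw [orderOf_inv])
    have hO2 : ∀ s : Γ, s ≠ s⁻¹ → (({s, s⁻¹} : Finset Γ).filter
        (fun s => Odd (orderOf s) ∧ orderOf s ≠ 1)).card =
        if Odd (orderOf s) ∧ orderOf s ≠ 1 then 2 else 0 := fun s hs =>
      g_filter_pair hs _ (by rw [orderOf_inv])
    by_cases hinv : ∃ s ∈ S, orderOf s = 2
    · -- an involution
      obtain ⟨s, hs, hs2⟩ := hinv
      have hss : s⁻¹ = s := by
        have : s * s = 1 := by rw [← pow_two, ← hs2]; exact pow_orderOf_eq_one s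
        exact inv_eq_of_mul_eq_one_left this
      have hT : ({s} : Finset Γ) ⊆ S := Finset.singleton_subset_iff.2 hs
      refine hgen {s} 1 hT ?_ (by simp) (c_invol hss) ?_
      · intro g hg
        rw [Finset.mem_singleton] at hg ⊢
        rw [hg, hss]
      · have e1 := hcard _ hT
        have e2 := hpI _ hT
        have e3 := hpO _ hT
        have e4 : (({s} : Finset Γ).filter (fun s => orderOf s = 0)).card = 0 := by
          rw [Finset.card_eq_zero, Finset.filter_eq_empty_iff]
          intro x hx
          rw [Finset.mem_singleton] at hx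
          subst hx
          omega
        have e5 : (({s} : Finset Γ).filter
            (fun s => Odd (orderOf s) ∧ orderOf s ≠ 1)).card = 0 := by
          rw [Finset.card_eq_zero, Finset.filter_eq_empty_iff]
          intro x hx
          rw [Finset.mem_singleton] at hx
          subst hx
          rw [hs2]
          decide
        rw [Finset.card_singleton] at e1
        unfold pI pO
        omega
    · have hinv : ∀ s ∈ S, orderOf s ≠ 2 := by
        intro s hs h
        exact hinv ⟨s, hs, h⟩
      have hne : ∀ s ∈ S, s ≠ s⁻¹ := fun s hs => g_ne_inv (hinv s hs) (hone s hs)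
      by_cases hev : ∃ s ∈ S, orderOf s ≠ 0 ∧ Even (orderOf s)
      · -- an element of even order
        obtain ⟨s, hs, hs0, hse⟩ := hev
        obtain ⟨d, hd, hds⟩ := c_two hm hfree s (Nat.pos_of_ne_zero hs0) hse
        refine hgen {s, s⁻¹} 2 (hsub2 s hs) (hsym2 s) (by simp) (c_single (hne s hs) hm hd hds) ?_
        have e1 := hcard _ (hsub2 s hs)
        have e2 := hpI _ (hsub2 s hs)
        have e3 := hpO _ (hsub2 s hs)
        rw [hI2 s (hne s hs), if_neg hs0] at e2
        rw [hO2 s (hne s hs), if_neg (fun h => by
          have := h.1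
          rw [← Nat.not_even_iff_odd] at this
          exact this hse)] at e3
        rw [Finset.card_pair (hne s hs)] at e1
        unfold pI pO
        omega
      · have hodd : ∀ s ∈ S, orderOf s ≠ 0 → Odd (orderOf s) ∧ orderOf s ≠ 1 := by
          intro s hs h
          refine ⟨?_, fun h' => hone s hs (orderOf_eq_one_iff.1 h')⟩
          rw [← Nat.not_even_iff_odd]
          intro h'
          exact hev ⟨s, hs, h, h'⟩
        by_cases hO : ∃ s ∈ S, orderOf s ≠ 0
        · obtain ⟨s, hs, hs0⟩ := hO
          have hso := hodd s hs hs0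
          by_cases hI : ∃ t ∈ S, orderOf t = 0
          · -- one element of odd order and one of infinite order
            obtain ⟨t, ht, ht0⟩ := hI
            have hs3 : 3 ≤ orderOf s := by
              have := hinv s hs
              have := hso.2
              omega
            have hTe : ({s, s⁻¹, t, t⁻¹} : Finset Γ) = {s, s⁻¹} ∪ {t, t⁻¹} := by
              ext g
              simp only [Finset.mem_insert, Finset.mem_singleton, Finset.mem_union]
              tauto
            have hdis : Disjoint ({s, s⁻¹} : Finset Γ) {t, t⁻¹} := by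
              rw [Finset.disjoint_left]
              intro g hg hg'
              have o1 : orderOf g = orderOf s := by
                rcases Finset.mem_insert.1 hg with rfl | h
                · rfl
                · rw [Finset.mem_singleton] at h
                  rw [h, orderOf_inv]
              have o2 : orderOf g = orderOf t := by
                rcases Finset.mem_insert.1 hg' with rfl | h
                · rfl
                · rw [Finset.mem_singleton] at h
                  rw [h, orderOf_inv]
              omega
            have hT : ({s, s⁻¹, t, t⁻¹} : Finset Γ) ⊆ S := by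
              rw [hTe]
              exact Finset.union_subset (hsub2 s hs) (hsub2 t ht)
            have hfc : ∀ (p : Γ → Prop) [DecidablePred p],
                (({s, s⁻¹, t, t⁻¹} : Finset Γ).filter p).card =
                (({s, s⁻¹} : Finset Γ).filter p).card + (({t, t⁻¹} : Finset Γ).filter p).card := by
              intro p _
              rw [hTe, Finset.filter_union, Finset.card_union_of_disjoint]
              exact Finset.disjoint_filter_filter hdis
            refine hgen {s, s⁻¹, t, t⁻¹} 5 hT ?_ (by simp) (g_pair hm hfree hs3 ht0) ?_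
            · intro g hg
              rw [hTe] at hg ⊢
              rcases Finset.mem_union.1 hg with h | h
              · exact Finset.mem_union_left _ (hsym2 s g h)
              · exact Finset.mem_union_right _ (hsym2 t g h)
            · have e1 := hcard _ hT
              have e2 := hpI _ hT
              have e3 := hpO _ hT
              rw [hfc, hI2 s (hne s hs), hI2 t (hne t ht), if_neg hs0, if_pos ht0] at e2
              rw [hfc, hO2 s (hne s hs), hO2 t (hne t ht), if_pos hso, if_neg (fun h => by
                rw [ht0] at h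
                exact absurd h.1 (by decide))] at e3
              have e4 : ({s, s⁻¹, t, t⁻¹} : Finset Γ).card = 4 := by
                rw [hTe, Finset.card_union_of_disjoint hdis, Finset.card_pair (hne s hs),
                  Finset.card_pair (hne t ht)]
              rw [e4] at e1
              unfold pI pO
              omega
          · -- only odd orders
            push_neg at hI
            obtain ⟨d, hd, hds⟩ := c_three hm hfree s (hone s hs)
            refine hgen {s, s⁻¹} 3 (hsub2 s hs) (hsym2 s) (by simp)
              (c_single (hne s hs) hm hd hds) ?_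
            have e1 := hcard _ (hsub2 s hs)
            have e2 := hpI _ (hsub2 s hs)
            have e3 := hpO _ (hsub2 s hs)
            have e5 : (S.filter (fun s => orderOf s = 0)).card = 0 := by
              rw [Finset.card_eq_zero, Finset.filter_eq_empty_iff]
              exact fun x hx => hI x hx
            rw [hI2 s (hne s hs), if_neg hs0] at e2
            rw [hO2 s (hne s hs), if_pos hso] at e3
            rw [Finset.card_pair (hne s hs)] at e1
            unfold pI pO
            omega
        · push_neg at hO
          by_cases hI : ∃ t, t ∈ S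
          · -- only infinite orders
            obtain ⟨t, ht⟩ := hI
            have ht0 := hO t ht
            obtain ⟨d, hd, hds⟩ := c_three hm hfree t (hone t ht)
            refine hgen {t, t⁻¹} 3 (hsub2 t ht) (hsym2 t) (by simp)
              (c_single (hne t ht) hm hd hds) ?_
            have e1 := hcard _ (hsub2 t ht)
            have e2 := hpI _ (hsub2 t ht)
            have e3 := hpO _ (hsub2 t ht)
            have e5 : (S.filter (fun s => Odd (orderOf s) ∧ orderOf s ≠ 1)).card = 0 := by
              rw [Finset.card_eq_zero, Finset.filter_eq_empty_iff]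
              intro x hx h
              have := hO x hx
              rw [this] at h
              exact absurd h.1 (by decide)
            rw [hI2 t (hne t ht), if_pos ht0] at e2
            rw [Finset.card_pair (hne t ht)] at e1
            unfold pI pO
            omega
          · have : S = ∅ := Finset.eq_empty_of_forall_notMem fun x hx => hI ⟨x, hx⟩
            subst this
            exact ⟨fun _ _ => 0, by simp, by simp, by simp, by simp⟩

/-- from colours of directions to a Borel edge colouring -/
theorem g_final [MeasurableSpace X] [StandardBorelSpace X]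
    (hm : ∀ γ : Γ, Measurable (fun x : X => γ • x))
    (hfree : ∀ (γ : Γ) (x : X), γ • x = x → γ = 1) (S : Finset Γ) (hS : ∀ s ∈ S, s⁻¹ ∈ S)
    {n k : ℕ} (hnk : n ≤ k + 1) (h : DirCol X S n) :
    ∃ c : X × X → Fin (k + 1), Measurable c ∧ (∀ x y : X, c (x, y) = c (y, x)) ∧
      (∀ x y z : X, (∃ s ∈ S, s • x = y) → (∃ s ∈ S, s • x = z) →
          y ≠ z → c (x, y) ≠ c (x, z)) := by
  classical
  obtain ⟨d, h1, h2, h3, h4⟩ := h
  have huniq : ∀ (x : X) (g g' : Γ), g • x = g' • x → g = g' := by
    intro x g g' h
    have : (g'⁻¹ * g) • x = x := by rw [← smul_smul, h, inv_smul_smul]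
    have := hfree _ _ this
    exact (inv_mul_eq_one.1 this).symm
  set C : X × X → ℕ := fun q => ∑ s ∈ S, if s • q.1 = q.2 then d s q.1 else 0 with hC
  have hCval : ∀ (s : Γ) (x : X), s ∈ S → C (x, s • x) = d s x := by
    intro s x hs
    simp only [hC]
    rw [Finset.sum_eq_single s]
    · simp
    · intro g _ hgs
      exact if_neg fun h => hgs (huniq x g s h)
    · intro h
      exact absurd hs h
  have hC0 : ∀ x y : X, (¬ ∃ s ∈ S, s • x = y) → C (x, y) = 0 := by
    intro x y hno
    simp only [hC]
    apply Finset.sum_eq_zero
    intro s hs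
    exact if_neg fun h => hno ⟨s, hs, h⟩
  have hCsymm : ∀ x y : X, C (x, y) = C (y, x) := by
    intro x y
    by_cases hex : ∃ s ∈ S, s • x = y
    · obtain ⟨s, hs, rfl⟩ := hex
      rw [hCval s x hs]
      have := hCval s⁻¹ (s • x) (hS s hs)
      rw [inv_smul_smul] at this
      rw [this, h3 s hs]
    · rw [hC0 x y hex, hC0 y x]
      rintro ⟨s, hs, rfl⟩
      exact hex ⟨s⁻¹, hS s hs, inv_smul_smul s y⟩
  have hCm : Measurable C := by
    refine Finset.measurable_fun_sum S fun s hs => ?_
    refine Measurable.ite ?_ ((h1 s hs).comp measurable_fst) measurable_const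
    exact measurableSet_eq_fun ((hm s).comp measurable_fst) measurable_snd
  refine ⟨fun q => Fin.ofNat (k + 1) (C q), (Measurable.of_discrete
    (f := fun i : ℕ => Fin.ofNat (k + 1) i)).comp hCm, fun x y => ?_, ?_⟩
  · show Fin.ofNat (k + 1) (C (x, y)) = Fin.ofNat (k + 1) (C (y, x))
    rw [hCsymm]
  · rintro x y z ⟨s, hs, rfl⟩ ⟨s', hs', rfl⟩ hne heq
    have hss : s ≠ s' := fun h => hne (by rw [h])
    have e1 := congrArg Fin.val heq
    simp only [Fin.ofNat, hCval s x hs, hCval s' x hs'] at e1
    have l1 := h2 s hs x
    have l2 := h2 s' hs' x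
    rw [Nat.mod_eq_of_lt (by omega), Nat.mod_eq_of_lt (by omega)] at e1
    exact h4 s hs s' hs' hss x e1

end Pool.Agent.Lib.H84E
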