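import Mathlib
import Pool.Agent.Lib.H84E.Main
import Pool.Agent.Lib.H84E.G2

/-!
# H84E, module Main2: all symmetric sets, pairs of odd order included
-/

set_option autoImplicit false

namespace Pool.Agent.Lib.H84E

variable {Γ : Type*} [Group Γ] {X : Type*} [MulAction Γ X]

/-- the number of additional colours -/
noncomputable def xtra (S : Finset Γ) : ℕ :=
  max ((S.filter (fun s => orderOf s = 0)).card / 2)
    (((S.filter (fun s => orderOf s = 0)).card +
      (S.filter (fun s => Odd (orderOf s) ∧ orderOf s ≠ 1)).card + 2) / 4)

theorem h2_main [MeasurableSpace X] [StandardBorelSpace X]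
    (hm : ∀ γ : Γ, Measurable (fun x : X => γ • x))
    (hfree : ∀ (γ : Γ) (x : X), γ • x = x → γ = 1) (N : ℕ) :
    ∀ S : Finset Γ, S.card ≤ N → (∀ s ∈ S, s⁻¹ ∈ S) → (1 : Γ) ∉ S →
      DirCol X S (S.card + xtra S) := by
  classical
  induction N with
  | zero =>
    intro S hS _ _
    have : S = ∅ := Finset.card_eq_zero.1 (Nat.le_zero.1 hS)
    subst this
    exact ⟨fun _ _ => 0, by simp, by simp, by simp, by simp⟩
  | succ N ih =>
    intro S hN hS h1
    have hone : ∀ s ∈ S, s ≠ 1 := fun s hs h => h1 (h ▸ hs)
    have hrec : ∀ T : Finset Γ, T ⊆ S → (∀ s ∈ T, s⁻¹ ∈ T) → 0 < T.card →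
        DirCol X (S \ T) ((S \ T).card + xtra (S \ T)) := by
      intro T hT hTs hTc
      apply ih
      · have := Finset.card_sdiff_add_card_eq_card hT
        omega
      · intro s hs
        rw [Finset.mem_sdiff] at hs ⊢
        refine ⟨hS s hs.1, fun h => hs.2 ?_⟩
        have := hTs _ h
        rwa [inv_inv] at this
      · intro h
        exact h1 (Finset.mem_sdiff.1 h).1
    have hgen : ∀ (T : Finset Γ) (k : ℕ), T ⊆ S → (∀ s ∈ T, s⁻¹ ∈ T) → 0 < T.card →
        DirCol X T k →
        (S \ T).card + xtra (S \ T) + k = S.card + xtra S →
        DirCol X S (S.card + xtra S) := by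
      intro T k hT hTs hTc hk he
      rw [← he]
      exact g_peel hT hS hTs hk (hrec T hT hTs hTc)
    have hcard : ∀ T : Finset Γ, T ⊆ S → (S \ T).card + T.card = S.card := fun T hT =>
      Finset.card_sdiff_add_card_eq_card hT
    have hpI : ∀ T : Finset Γ, T ⊆ S → ((S \ T).filter (fun s => orderOf s = 0)).card +
        (T.filter (fun s => orderOf s = 0)).card = (S.filter (fun s => orderOf s = 0)).card :=
      fun T hT => g_card_sdiff hT _
    have hpO : ∀ T : Finset Γ, T ⊆ S →
        ((S \ T).filter (fun s => Odd (orderOf s) ∧ orderOf s ≠ 1)).card +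
        (T.filter (fun s => Odd (orderOf s) ∧ orderOf s ≠ 1)).card =
          (S.filter (fun s => Odd (orderOf s) ∧ orderOf s ≠ 1)).card :=
      fun T hT => g_card_sdiff hT _
    have hsym2 : ∀ s : Γ, ∀ g ∈ ({s, s⁻¹} : Finset Γ), g⁻¹ ∈ ({s, s⁻¹} : Finset Γ) := by
      intro s g hg
      rcases Finset.mem_insert.1 hg with rfl | hg
      · simp
      · rw [Finset.mem_singleton] at hg
        subst hg
        simp
    have hsub2 : ∀ s ∈ S, ({s, s⁻¹} : Finset Γ) ⊆ S := by
      intro s hs g hg
      rcases Finset.mem_insert.1 hg with rfl | hg
      · exact hs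
      · rw [Finset.mem_singleton] at hg
        subst hg
        exact hS s hs
    have hI2 : ∀ s : Γ, s ≠ s⁻¹ → (({s, s⁻¹} : Finset Γ).filter (fun s => orderOf s = 0)).card =
        if orderOf s = 0 then 2 else 0 := fun s hs =>
      g_filter_pair hs _ (by rw [orderOf_inv])
    have hO2 : ∀ s : Γ, s ≠ s⁻¹ → (({s, s⁻¹} : Finset Γ).filter
        (fun s => Odd (orderOf s) ∧ orderOf s ≠ 1)).card =
        if Odd (orderOf s) ∧ orderOf s ≠ 1 then 2 else 0 := fun s hs =>
      g_filter_pair hs _ (by rw [orderOf_inv])
    by_cases hinv : ∃ s ∈ S, orderOf s = 2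
    · -- an involution
      obtain ⟨s, hs, hs2⟩ := hinv
      have hss : s⁻¹ = s := by
        have : s * s = 1 := by rw [← pow_two, ← hs2]; exact pow_orderOf_eq_one s
        exact inv_eq_of_mul_eq_one_left this
      have hT : ({s} : Finset Γ) ⊆ S := Finset.singleton_subset_iff.2 hs
      refine hgen {s} 1 hT ?_ (by simp) (c_invol hss) ?_
      · intro g hg
        rw [Finset.mem_singleton] at hg ⊢
        rw [hg, hss]
      · have e1 := hcard _ hT
        have e2 := hpI _ hT
        have e3 := hpO _ hT
        have e4 : (({s} : Finset Γ).filter (fun s => orderOf s = 0)).card = 0 := by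
          rw [Finset.card_eq_zero, Finset.filter_eq_empty_iff]
          intro x hx
          rw [Finset.mem_singleton] at hx
          subst hx
          omega
        have e5 : (({s} : Finset Γ).filter
            (fun s => Odd (orderOf s) ∧ orderOf s ≠ 1)).card = 0 := by
          rw [Finset.card_eq_zero, Finset.filter_eq_empty_iff]
          intro x hx
          rw [Finset.mem_singleton] at hx
          subst hx
          rw [hs2]
          decide
        rw [Finset.card_singleton] at e1
        unfold xtra
        omega
    · have hinv : ∀ s ∈ S, orderOf s ≠ 2 := by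
        intro s hs h
        exact hinv ⟨s, hs, h⟩
      have hne : ∀ s ∈ S, s ≠ s⁻¹ := fun s hs => g_ne_inv (hinv s hs) (hone s hs)
      by_cases hev : ∃ s ∈ S, orderOf s ≠ 0 ∧ Even (orderOf s)
      · -- an element of even order
        obtain ⟨s, hs, hs0, hse⟩ := hev
        obtain ⟨d, hd, hds⟩ := c_two hm hfree s (Nat.pos_of_ne_zero hs0) hse
        refine hgen {s, s⁻¹} 2 (hsub2 s hs) (hsym2 s) (by simp) (c_single (hne s hs) hm hd hds) ?_
        have e1 := hcard _ (hsub2 s hs)
        have e2 := hpI _ (hsub2 s hs)
        have e3 := hpO _ (hsub2 s hs)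
        rw [hI2 s (hne s hs), if_neg hs0] at e2
        rw [hO2 s (hne s hs), if_neg (fun h => by
          have := h.1
          rw [← Nat.not_even_iff_odd] at this
          exact this hse)] at e3
        rw [Finset.card_pair (hne s hs)] at e1
        unfold xtra
        omega
      · have hodd : ∀ s ∈ S, orderOf s ≠ 0 → Odd (orderOf s) ∧ orderOf s ≠ 1 := by
          intro s hs h
          refine ⟨?_, fun h' => hone s hs (orderOf_eq_one_iff.1 h')⟩
          rw [← Nat.not_even_iff_odd]
          intro h'
          exact hev ⟨s, hs, h, h'⟩
        -- removal of two pairs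
        have htwo : ∀ s t, s ∈ S → t ∈ S → t ≠ s → t ≠ s⁻¹ →
            (PairCol X s t ∨ PairCol X t s) →
            (S \ ({s, s⁻¹} ∪ {t, t⁻¹} : Finset Γ)).card + 4 = S.card ∧
            ((S \ ({s, s⁻¹} ∪ {t, t⁻¹} : Finset Γ)).card +
              xtra (S \ ({s, s⁻¹} ∪ {t, t⁻¹} : Finset Γ)) + 5 = S.card + xtra S →
              DirCol X S (S.card + xtra S)) ∧
            (∀ (p : Γ → Prop) [DecidablePred p],
                ((({s, s⁻¹} ∪ {t, t⁻¹} : Finset Γ)).filter p).card =
                (({s, s⁻¹} : Finset Γ).filter p).card +
                  (({t, t⁻¹} : Finset Γ).filter p).card) := by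
          intro s t hs ht hts hts' hpc
          have hdis : Disjoint ({s, s⁻¹} : Finset Γ) {t, t⁻¹} := by
            rw [Finset.disjoint_left]
            intro g hg hg'
            simp only [Finset.mem_insert, Finset.mem_singleton] at hg hg'
            rcases hg with rfl | rfl <;> rcases hg' with h | h
            · exact hts h.symm
            · exact hts' (by rw [h, inv_inv])
            · exact hts' h.symm
            · exact hts (inv_injective h).symm
          have hT : ({s, s⁻¹} ∪ {t, t⁻¹} : Finset Γ) ⊆ S :=
            Finset.union_subset (hsub2 s hs) (hsub2 t ht)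
          have hTc : ({s, s⁻¹} ∪ {t, t⁻¹} : Finset Γ).card = 4 := by
            rw [Finset.card_union_of_disjoint hdis, Finset.card_pair (hne s hs),
              Finset.card_pair (hne t ht)]
          have hdir : DirCol X ({s, s⁻¹} ∪ {t, t⁻¹} : Finset Γ) 5 := by
            rcases hpc with h | h
            · have h3 := g2_dir hm (hne s hs).symm (hne t ht).symm hts hts' h
              have : ({s, s⁻¹, t, t⁻¹} : Finset Γ) = {s, s⁻¹} ∪ {t, t⁻¹} := by
                ext g
                simp only [Finset.mem_insert, Finset.mem_singleton, Finset.mem_union]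
                tauto
              rwa [this] at h3
            · have h3 := g2_dir hm (hne t ht).symm (hne s hs).symm hts.symm
                (by rintro rfl; exact hts' (inv_inv t).symm) h
              have : ({t, t⁻¹, s, s⁻¹} : Finset Γ) = {s, s⁻¹} ∪ {t, t⁻¹} := by
                ext g
                simp only [Finset.mem_insert, Finset.mem_singleton, Finset.mem_union]
                tauto
              rwa [this] at h3
          refine ⟨?_, fun he => ?_, fun p _ => ?_⟩
          · have := hcard _ hT
            omega
          · refine hgen _ 5 hT ?_ (by rw [hTc]; norm_num) hdir he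
            intro g hg
            rcases Finset.mem_union.1 hg with h | h
            · exact Finset.mem_union_left _ (hsym2 s g h)
            · exact Finset.mem_union_right _ (hsym2 t g h)
          · rw [Finset.filter_union, Finset.card_union_of_disjoint]
            exact Finset.disjoint_filter_filter hdis
        by_cases hO : ∃ s ∈ S, orderOf s ≠ 0
        · obtain ⟨s, hs, hs0⟩ := hO
          have hso := hodd s hs hs0
          have hs3 : 3 ≤ orderOf s := by
            have := hinv s hs
            have := hso.2
            omega
          by_cases hI : ∃ t ∈ S, orderOf t = 0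
          · -- one element of odd order and one of infinite order
            obtain ⟨t, ht, ht0⟩ := hI
            have hts : t ≠ s := by rintro rfl; exact hs0 ht0
            have hts' : t ≠ s⁻¹ := by rintro rfl; rw [orderOf_inv] at ht0; exact hs0 ht0
            obtain ⟨a1, a2, a3⟩ := htwo s t hs ht hts hts' (Or.inl (g2_inf hm hfree hs3 ht0))
            have hT : ({s, s⁻¹} ∪ {t, t⁻¹} : Finset Γ) ⊆ S :=
              Finset.union_subset (hsub2 s hs) (hsub2 t ht)
            apply a2
            have e2 := hpI _ hT
            have e3 := hpO _ hT
            rw [a3, hI2 s (hne s hs), hI2 t (hne t ht), if_neg hs0, if_pos ht0] at e2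
            rw [a3, hO2 s (hne s hs), hO2 t (hne t ht), if_pos hso, if_neg (fun h => by
              rw [ht0] at h
              exact absurd h.1 (by decide))] at e3
            unfold xtra
            omega
          · -- only odd orders
            push_neg at hI
            have e5 : (S.filter (fun s => orderOf s = 0)).card = 0 := by
              rw [Finset.card_eq_zero, Finset.filter_eq_empty_iff]
              exact fun x hx => hI x hx
            by_cases hP : ∃ t ∈ S, t ≠ s ∧ t ≠ s⁻¹
            · obtain ⟨t, ht, hts, hts'⟩ := hP
              have hto := hodd t ht (hI t ht)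
              obtain ⟨a1, a2, a3⟩ := htwo s t hs ht hts hts'
                (g2_odd hm hfree hso.1 hso.2 hto.1 hto.2 hts hts')
              have hT : ({s, s⁻¹} ∪ {t, t⁻¹} : Finset Γ) ⊆ S :=
                Finset.union_subset (hsub2 s hs) (hsub2 t ht)
              apply a2
              have e2 := hpI _ hT
              have e3 := hpO _ hT
              rw [a3, hI2 s (hne s hs), hI2 t (hne t ht), if_neg hs0, if_neg (hI t ht)] at e2
              rw [a3, hO2 s (hne s hs), hO2 t (hne t ht), if_pos hso, if_pos hto] at e3
              unfold xtra
              omega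
            · push_neg at hP
              obtain ⟨d, hd, hds⟩ := c_three hm hfree s (hone s hs)
              refine hgen {s, s⁻¹} 3 (hsub2 s hs) (hsym2 s) (by simp)
                (c_single (hne s hs) hm hd hds) ?_
              have e1 := hcard _ (hsub2 s hs)
              have e2 := hpI _ (hsub2 s hs)
              have e3 := hpO _ (hsub2 s hs)
              have e6 : ((S \ {s, s⁻¹}).filter
                  (fun s => Odd (orderOf s) ∧ orderOf s ≠ 1)).card = 0 := by
                rw [Finset.card_eq_zero, Finset.filter_eq_empty_iff]
                intro x hx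
                exfalso
                rw [Finset.mem_sdiff, Finset.mem_insert, Finset.mem_singleton, not_or] at hx
                exact hx.2.2 (hP x hx.1 hx.2.1)
              rw [hI2 s (hne s hs), if_neg hs0] at e2
              rw [hO2 s (hne s hs), if_pos hso] at e3
              rw [Finset.card_pair (hne s hs)] at e1
              unfold xtra
              omega
        · push_neg at hO
          by_cases hI : ∃ t, t ∈ S
          · -- only infinite orders
            obtain ⟨t, ht⟩ := hI
            have ht0 := hO t ht
            obtain ⟨d, hd, hds⟩ := c_three hm hfree t (hone t ht)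
            refine hgen {t, t⁻¹} 3 (hsub2 t ht) (hsym2 t) (by simp)
              (c_single (hne t ht) hm hd hds) ?_
            have e1 := hcard _ (hsub2 t ht)
            have e2 := hpI _ (hsub2 t ht)
            have e3 := hpO _ (hsub2 t ht)
            have e5 : (S.filter (fun s => Odd (orderOf s) ∧ orderOf s ≠ 1)).card = 0 := by
              rw [Finset.card_eq_zero, Finset.filter_eq_empty_iff]
              intro x hx h
              have := hO x hx
              rw [this] at h
              exact absurd h.1 (by decide)
            rw [hI2 t (hne t ht), if_pos ht0] at e2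
            rw [Finset.card_pair (hne t ht)] at e1
            unfold xtra
            omega
          · have : S = ∅ := Finset.eq_empty_of_forall_notMem fun x hx => hI ⟨x, hx⟩
            subst this
            exact ⟨fun _ _ => 0, by simp, by simp, by simp, by simp⟩

end Pool.Agent.Lib.H84E
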